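import Pool.Agent.Y97.Defs

/-!
# Positive combinations of pull-backs
-/

open CategoryTheory AlgebraicGeometry

universe u v

namespace Pool.Agent.Y97.AB

open Pool.Agent.H914 Pool.Agent.H914.VarClass Pool.Agent.H914.VarClass.Obj
  Pool.Agent.H914.WeilCohomology Pool.Agent.H281R3.HT

variable {k : Type u} [Field k] {𝒱 : VarClass k} {ops : CycleOps 𝒱}

/-- The class of the divisor of `Q` is a linear combination with positive rational coefficients of
pull-backs of the class of the divisor of `P` along morphisms from the variety of `Q` to the variety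
of `P`. -/
def PosPull (W : WeilCohomology.{u, v} ops) (Q P : Polarized 𝒱) : Prop :=
  ∃ (r : ℕ) (a : Fin r → ℚ) (h : Fin r → (Q.X ⟶ P.X)), (∀ i, 0 < a i) ∧
    W.cl Q.X Q.D = ∑ i, (a i : W.K) • W.map (h i) (W.cl P.X P.D)

end Pool.Agent.Y97.AB
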