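import Pool.Agent.Y97.Defs

/-!
# Classes on the powers generated by the cycles on one factor
-/

open CategoryTheory AlgebraicGeometry

universe u v

namespace Pool.Agent.Y97.AB

open Pool.Agent.H914 Pool.Agent.H914.VarClass Pool.Agent.H914.VarClass.Obj
  Pool.Agent.H914.WeilCohomology Pool.Agent.H281R3.HT Pool.Agent.W539.Ker

variable {k : Type u} [Field k] {𝒱 : VarClass k} {ops : CycleOps 𝒱}

/-- The cohomology of `X` is generated by the first cohomology. -/
def GenByOne (W : WeilCohomology.{u, v} ops) (X : 𝒱.Obj) : Prop :=
  ∀ S : Subalgebra W.K (W.H X), (∀ v ∈ W.gr X 1, v ∈ S) → ∀ c, c ∈ S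

/-- The dimension of the first cohomology. -/
noncomputable def betti1 (W : WeilCohomology.{u, v} ops) (X : 𝒱.Obj) : ℕ :=
  Module.finrank W.K (W.gr X 1)

/-- The cohomology of `X` is the exterior algebra on the first cohomology: it is generated by the
first cohomology (whose elements anticommute), and it has the dimension of the exterior algebra. -/
def IsExt (W : WeilCohomology.{u, v} ops) (X : 𝒱.Obj) : Prop :=
  GenByOne W X ∧ Module.finrank W.K (W.H X) = 2 ^ betti1 W X

/-- The Hodge index theorem for `X` and the divisor `D`, `d = dim X ≥ 2`: the pairing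
`⟨z, w⟩ = - deg (z · D ^ (d - 2) · w)` is positive definite on the primitive classes of
codimension one modulo numerical equivalence. -/
def HodgeIndex (W : WeilCohomology.{u, v} ops) (X : 𝒱.Obj) (D : X.Cycles) : Prop :=
  2 ≤ X.dim → ∀ z, Primitive W X D 1 z →
    (∃ w, X.IsCyc (X.dim - 1) w ∧ X.V.degCycle (ops.mul z w) ≠ 0) → 0 < pairing ops X D 1 z z

/-- The cohomology classes on the powers of `X` which are generated by the classes of the
algebraic cycles on `X ^ (m + 1)` and of the cycles on all powers whose codimension or dimension
`j` satisfies `2 j ≤ max 2 (m + 1)`, by means of sums, rational multiples, intersection products,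
pull-backs and push-forwards along arbitrary morphisms between powers, the addition of classes
of numerically trivial cycles, and the addition of the classes of the cycles which are linear
combinations, with coefficients in the coefficient field `K`, of classes already obtained. -/
inductive GenA (W : WeilCohomology.{u, v} ops) (P : Polarized 𝒱) (m : ℕ) :
    (s : ℕ) → W.H (power ops P s).X → Prop
  | cyc {j : ℕ} {z : (power ops P m).X.Cycles} : (power ops P m).X.IsCyc j z →
      GenA W P m m (W.cl (power ops P m).X z)
  | low {s j : ℕ} {z : (power ops P s).X.Cycles} : 2 * j ≤ max 2 (m + 1) →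
      (power ops P s).X.IsCyc j z → GenA W P m s (W.cl (power ops P s).X z)
  | cmp {s i j : ℕ} {z : (power ops P s).X.Cycles} : 2 * j ≤ max 2 (m + 1) →
      i + j = (power ops P s).X.dim → (power ops P s).X.IsCyc i z →
      GenA W P m s (W.cl (power ops P s).X z)
  | num {s j : ℕ} {z : (power ops P s).X.Cycles} : (power ops P s).X.IsCyc j z →
      (∀ w, (power ops P s).X.IsCyc ((power ops P s).X.dim - j) w →
        (power ops P s).X.V.degCycle (ops.mul z w) = 0) →
      GenA W P m s (W.cl (power ops P s).X z)
  | add {s : ℕ} {c d : W.H (power ops P s).X} : GenA W P m s c → GenA W P m s d →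
      GenA W P m s (c + d)
  | smul {s : ℕ} (q : ℚ) {c : W.H (power ops P s).X} : GenA W P m s c →
      GenA W P m s ((q : W.K) • c)
  | mul {s : ℕ} {c d : W.H (power ops P s).X} : GenA W P m s c → GenA W P m s d →
      GenA W P m s (c * d)
  | pull {s t : ℕ} (h : (power ops P t).X ⟶ (power ops P s).X) {c : W.H (power ops P s).X} :
      GenA W P m s c → GenA W P m t (W.map h c)
  | push {s t : ℕ} (h : (power ops P t).X ⟶ (power ops P s).X) {c : W.H (power ops P t).X} :
      GenA W P m t c → GenA W P m s (W.push h c)
  | spn {s j r : ℕ} {z : (power ops P s).X.Cycles} (a : Fin r → W.K)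
      (c : Fin r → W.H (power ops P s).X) : (power ops P s).X.IsCyc j z →
      (∀ i, GenA W P m s (c i)) → W.cl (power ops P s).X z = ∑ i, a i • c i →
      GenA W P m s (W.cl (power ops P s).X z)

end Pool.Agent.Y97.AB
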