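import Pool.Agent.Y97.AB.Mon

/-!
# The tensors attached to a class
-/

set_option linter.unusedSectionVars false

open CategoryTheory AlgebraicGeometry Finset

universe u v

namespace Pool.Agent.Y97.AB

open Pool.Agent.H914 Pool.Agent.H914.VarClass Pool.Agent.H914.VarClass.Obj
  Pool.Agent.H914.WeilCohomology Pool.Agent.H281R3.HT Pool.Agent.W552 Pool.Agent.W539.Ker
  Pool.Agent.Y97.FD

variable {k : Type u} [Field k] {𝒱 : VarClass k} {ops : CycleOps 𝒱}
  {W : WeilCohomology.{u, v} ops} {P : Polarized 𝒱} {Y : 𝒱.Obj}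
  {f : Module.End W.K (W.H P.X)}

/-- The determinant formula for the form. -/
def KF (W : WeilCohomology.{u, v} ops) (P : Polarized 𝒱) (f : Module.End W.K (W.H P.X))
    (b : HB W P.X) (t : ℕ) : Prop :=
  ∀ (n : ℕ) (φ ψ : Fin n → Fin (t + 1)) (x y : Fin n → Fin (N1 b)),
    bfs W P f t (mon b t φ x) (mon b t ψ y) = bfs W P f t 1 1 *
      (Matrix.of fun i j => if φ i = ψ j then G1 b f (x i) (y j) else 0).det

/-- The tensor attached to a class `c` and to a choice of slots `φ`. -/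
noncomputable def tau (b : HB W P.X) (f : Module.End W.K (W.H P.X)) (t : ℕ) {n : ℕ}
    (φ : Fin n → Fin (t + 1)) (c : W.H (power ops P t).X) : (Fin n → Fin (N1 b)) → W.K :=
  act (G1 b f)⁻¹ (fun x => bfs W P f t (mon b t φ x) c)

lemma act_tau (b : HB W P.X) (hG : (G1 b f).det ≠ 0) (t : ℕ) {n : ℕ}
    (φ : Fin n → Fin (t + 1)) (c : W.H (power ops P t).X) (x : Fin n → Fin (N1 b)) :
    act (G1 b f) (tau (ops := ops) b f t φ c) x = bfs W P f t (mon b t φ x) c := by
  have h3 : G1 b f * (G1 b f)⁻¹ = 1 := Matrix.mul_nonsing_inv _ (isUnit_iff_ne_zero.2 hG)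
  rw [tau, ← act_mul, h3, act_one]

lemma tau_add (b : HB W P.X) (t : ℕ) {n : ℕ} (φ : Fin n → Fin (t + 1))
    (c d : W.H (power ops P t).X) :
    tau (ops := ops) b f t φ (c + d) = tau b f t φ c + tau b f t φ d := by
  rw [tau, tau, tau, ← act_add]
  congr 1
  funext x
  rw [map_add]; rfl

lemma tau_smul (b : HB W P.X) (t : ℕ) {n : ℕ} (φ : Fin n → Fin (t + 1)) (r : W.K)
    (c : W.H (power ops P t).X) :
    tau (ops := ops) b f t φ (r • c) = r • tau b f t φ c := by
  rw [tau, tau, ← act_smul]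
  congr 1
  funext x
  rw [map_smul]; rfl

lemma tau_zero (b : HB W P.X) (t : ℕ) {n : ℕ} (φ : Fin n → Fin (t + 1)) :
    tau (ops := ops) b f t φ 0 = 0 := by
  have := tau_smul (ops := ops) (f := f) b t φ 0 0
  rwa [zero_smul, zero_smul] at this

lemma tau_sum {ι : Type*} (b : HB W P.X) (t : ℕ) {n : ℕ} (φ : Fin n → Fin (t + 1))
    (s : Finset ι) (c : ι → W.H (power ops P t).X) :
    tau (ops := ops) b f t φ (∑ i ∈ s, c i) = ∑ i ∈ s, tau b f t φ (c i) := by
  classical
  induction s using Finset.induction_on with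
  | empty => rw [Finset.sum_empty, Finset.sum_empty, tau_zero]
  | insert a s ha ih => rw [Finset.sum_insert ha, Finset.sum_insert ha, tau_add, ih]

/-- The form in terms of the tensors. -/
lemma dG_tau (b : HB W P.X) (hG : (G1 b f).det ≠ 0) (t : ℕ) {n : ℕ}
    (φ : Fin n → Fin (t + 1)) (g : (Fin n → Fin (N1 b)) → W.K) (c : W.H (power ops P t).X) :
    dG (G1 b f) g (tau (ops := ops) b f t φ c) = bfs W P f t (mm b t φ g) c := by
  rw [dG, dot, mm, map_sum, LinearMap.sum_apply]
  refine Finset.sum_congr rfl fun x _ => ?_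
  rw [act_tau b hG, map_smul, LinearMap.smul_apply, smul_eq_mul]

/-- The tensors are determined by the form. -/
lemma tau_eq (b : HB W P.X) (hG : (G1 b f).det ≠ 0) (t : ℕ) {n : ℕ}
    (φ : Fin n → Fin (t + 1)) (c : W.H (power ops P t).X) {h : (Fin n → Fin (N1 b)) → W.K}
    (H : ∀ x, bfs W P f t (mon (ops := ops) b t φ x) c = act (G1 b f) h x) :
    tau (ops := ops) b f t φ c = h := by
  have h3 : (G1 b f)⁻¹ * G1 b f = 1 := Matrix.nonsing_inv_mul _ (isUnit_iff_ne_zero.2 hG)
  rw [tau, funext H]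
  have h4 := act_mul (G1 b f)⁻¹ (G1 b f) h
  rw [h3, act_one] at h4
  exact h4.symm

/-- The tensors are alternating. -/
lemma tau_perm (b : HB W P.X) (hG : (G1 b f).det ≠ 0) (t : ℕ) {n : ℕ}
    (φ : Fin n → Fin (t + 1)) (c : W.H (power ops P t).X) (σ : Equiv.Perm (Fin n)) :
    rel σ (tau (ops := ops) b f t (φ ∘ σ) c) =
      ((Equiv.Perm.sign σ : ℤ) : W.K) • tau b f t φ c := by
  rw [← tau_smul]
  symm
  refine tau_eq b hG t φ _ fun x => ?_
  rw [act_rel, rel_apply, act_tau b hG]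
  have h1 := mon_perm (ops := ops) b t φ x σ
  have h2 : (fun s => x (σ s)) = x ∘ σ := rfl
  rw [h2, h1, map_smul, map_smul, LinearMap.smul_apply]

/-- The tensors of a product of classes of degree one. -/
lemma tau_mm (b : HB W P.X) (hG : (G1 b f).det ≠ 0) (t : ℕ) (hK : KF W P f b t) {n : ℕ}
    (φ ψ : Fin n → Fin (t + 1)) (g : (Fin n → Fin (N1 b)) → W.K) :
    tau (ops := ops) b f t φ (mm b t ψ g) = bfs W P f t 1 1 •
      ∑ σ : Equiv.Perm (Fin n), if φ ∘ σ = ψ then
        ((Equiv.Perm.sign σ : ℤ) : W.K) • rel σ g else 0 := by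
  refine tau_eq b hG t φ _ fun x => ?_
  rw [act_smul, act_sum, Pi.smul_apply, Finset.sum_apply, smul_eq_mul, mm, map_sum]
  have h1 : ∀ y : Fin n → Fin (N1 b),
      bfs W P f t (mon (ops := ops) b t φ x) (g y • mon b t ψ y) =
      bfs W P f t 1 1 * ∑ σ : Equiv.Perm (Fin n), if φ ∘ σ = ψ then
        ((Equiv.Perm.sign σ : ℤ) : W.K) * (∏ i, G1 b f (x (σ i)) (y i)) * g y else 0 := by
    intro y
    rw [map_smul, hK n φ ψ x y, smul_eq_mul, mul_left_comm, Matrix.det_apply, Finset.mul_sum]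
    congr 1
    refine Finset.sum_congr rfl fun σ _ => ?_
    simp only [Matrix.of_apply]
    split_ifs with h
    · have h2 : ∀ i, (if φ (σ i) = ψ i then G1 b f (x (σ i)) (y i) else 0) =
          G1 b f (x (σ i)) (y i) := fun i => if_pos (congrFun h i)
      rw [Finset.prod_congr rfl fun i _ => h2 i]
      rcases Int.units_eq_one_or (Equiv.Perm.sign σ) with h | h <;> rw [h] <;> simp [mul_comm]
    · have h2 : ∃ i, φ (σ i) ≠ ψ i := by
        by_contra h3
        push Not at h3
        exact h (funext h3)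
      obtain ⟨i, hi⟩ := h2
      rw [Finset.prod_eq_zero (Finset.mem_univ i) (if_neg hi), smul_zero, mul_zero]
  rw [Finset.sum_congr rfl fun y _ => h1 y, ← Finset.mul_sum, Finset.sum_comm]
  congr 1
  refine Finset.sum_congr rfl fun σ _ => ?_
  split_ifs with h
  · rw [act_smul, act_rel, Pi.smul_apply, rel_apply, act_apply, smul_eq_mul, Finset.mul_sum]
    refine Finset.sum_congr rfl fun y _ => ?_
    ring
  · rw [act_zero, Finset.sum_const_zero]; rfl

end Pool.Agent.Y97.AB
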