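import Pool.Agent.Y97.AB.Fin

/-!
# The class of the divisor and the form on the first cohomology
-/

set_option linter.unusedSectionVars false

open CategoryTheory AlgebraicGeometry Finset

universe u v

namespace Pool.Agent.Y97.AB

open Pool.Agent.H914 Pool.Agent.H914.VarClass Pool.Agent.H914.VarClass.Obj
  Pool.Agent.H914.WeilCohomology Pool.Agent.H281R3.HT Pool.Agent.W552 Pool.Agent.W539.Ker
  Pool.Agent.Y97.FD

variable {k : Type u} [Field k] {𝒱 : VarClass k} {ops : CycleOps 𝒱}
  {W : WeilCohomology.{u, v} ops}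

/-- The form on the products of two classes of degree one and the class of the divisor. -/
theorem bf_cl {X : 𝒱.Obj} {D : X.Cycles} {f : Module.End W.K (W.H X)} (G : Gp W X D f)
    {x y : W.H X} (hx : x ∈ W.gr X 1) (hy : y ∈ W.gr X 1) :
    bf W X D f (x * y) (W.cl X D) = bf W X D f x y := by
  have F := G.fr
  rcases Nat.eq_zero_or_pos X.dim with hd | hd
  · rw [W.gr_eq_bot X 1 (by omega)] at hx
    rw [(Submodule.mem_bot _).1 hx, zero_mul, map_zero, LinearMap.zero_apply,
      LinearMap.zero_apply]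
  obtain ⟨m, hm⟩ : ∃ m, X.dim = m + 1 := ⟨X.dim - 1, by omega⟩
  set L : Module.End W.K (W.H X) := LinearMap.mulLeft W.K (W.cl X D) with hL
  have h1 : f 1 = 0 := (F.f_gr (W.one_mem X)).2 (by norm_num)
  have hw1 : wt (W.isInternal X) X.dim (1 : W.H X) = -(X.dim : W.K) • 1 := by
    rw [Fr.wt_gr (W.one_mem X)]
    congr 1
    push_cast
    ring
  have hy0 : f y = 0 := (F.f_gr hy).2 (by norm_num)
  have hwy : wt (W.isInternal X) X.dim y = -(m : W.K) • y := by
    rw [Fr.wt_gr hy, hm]
    congr 1
    push_cast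
    ring
  have e1 := wey_lowest F.sl2 h1 hw1
  have e2 := wey_lowest F.sl2 hy0 hwy
  have e3 : f ((L ^ (m + 1)) 1) = ((m : W.K) + 1) • (L ^ m) 1 := by
    rw [F.sl2.f_e_pow h1 hw1 m, hm]
    congr 1
    push_cast
    ring
  have e4 : wey L f (W.cl X D) = -((m.factorial : W.K)⁻¹ • (L ^ m) 1) := by
    have h2 : W.cl X D = L 1 := (mul_one _).symm
    rw [h2, ← Module.End.mul_apply, wey_e F.sl2, LinearMap.neg_apply, Module.End.mul_apply, e1,
      hm, map_smul, e3, smul_smul, Nat.factorial_succ]
    congr 2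
    have h3 : (m.factorial : W.K) ≠ 0 := by exact_mod_cast m.factorial_ne_zero
    have h4 : ((m : W.K) + 1) ≠ 0 := by exact_mod_cast m.succ_ne_zero
    push_cast
    field_simp
  have e5 : st W X D f (W.cl X D) = (m.factorial : W.K)⁻¹ • (L ^ m) 1 := by
    rw [st_apply (W.cl_mem F.hD), wop, e4]
    have h3 : sg (2 * 1) = -1 := by rw [sg_two_mul]; norm_num
    rw [h3]
    push_cast
    rw [neg_one_smul, neg_neg]
  have e6 : st W X D f y = (m.factorial : W.K)⁻¹ • (L ^ m) y := by
    rw [st_apply hy, wop, e2]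
    have h3 : sg 1 = 1 := by rw [sg]; norm_num
    rw [h3]
    push_cast
    rw [one_smul]
  have e7 : ∀ (j : ℕ) (z : W.H X), (L ^ j) z = W.cl X D ^ j * z := by
    intro j
    induction j with
    | zero => intro z; simp
    | succ j ih =>
      intro z
      rw [pow_succ', Module.End.mul_apply, ih, pow_succ', mul_assoc]
      rfl
  have e8 : ∀ j : ℕ, W.cl X D ^ j * y = y * W.cl X D ^ j := by
    intro j
    have hc : W.cl X D * y = y * W.cl X D := by
      have h9 := W.comm (W.cl_mem F.hD) hy
      rw [show 2 * 1 * 1 = 2 by norm_num, neg_one_sq, one_smul] at h9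
      exact h9
    exact (Commute.pow_left hc j).eq
  rw [bf_apply, bf_apply, e5, e6, e7, e7, mul_one, e8, mul_smul_comm, mul_smul_comm, mul_assoc]

end Pool.Agent.Y97.AB
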