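import Pool.Agent.Y97.AB.Der
import Pool.Agent.Y97.AB.GDefs

/-!
# A criterion for the cohomology to be an exterior algebra
-/

set_option linter.unusedSectionVars false

open CategoryTheory AlgebraicGeometry

universe u v

namespace Pool.Agent.Y97.AB

open Pool.Agent.H914 Pool.Agent.H914.VarClass Pool.Agent.H914.VarClass.Obj
  Pool.Agent.H914.WeilCohomology

variable {k : Type u} [Field k] {𝒱 : VarClass k} {ops : CycleOps 𝒱}

theorem IsExt.isExterior {W : WeilCohomology.{u, v} ops} {X : 𝒱.Obj} (h : IsExt W X) :
    IsExterior W X := by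
  classical
  have hsurj : Function.Surjective (extHom W X) := by
    intro c
    refine h.1 (extHom W X).range (fun v hv => ?_) c
    refine ⟨ExteriorAlgebra.ι W.K (⟨v, hv⟩ : W.gr X 1), ?_⟩
    change extHom W X _ = v
    rw [extHom, ExteriorAlgebra.lift_ι_apply]
    rfl
  let e := Module.finBasis W.K (W.gr X 1)
  let B := e.ExteriorAlgebra
  have hfin : Module.Finite W.K (ExteriorAlgebra W.K (W.gr X 1)) := Module.Finite.of_basis B
  have hrank : Module.finrank W.K (ExteriorAlgebra W.K (W.gr X 1)) =
      Module.finrank W.K (W.H X) := by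
    rw [Module.finrank_eq_card_basis B, h.2, Fintype.card_finset, Fintype.card_fin]; rfl
  have h1 := (LinearMap.injective_iff_surjective_of_finrank_eq_finrank hrank
    (f := (extHom W X).toLinearMap)).2 hsurj
  exact ⟨h1, hsurj⟩

end Pool.Agent.Y97.AB
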