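import Pool.Agent.Y97.AB.Tau
import Pool.Agent.Y668.AB.Prod
import Pool.Agent.Y333.AB.UU

/-!
# The determinant formula
-/

set_option linter.unusedSectionVars false

open CategoryTheory AlgebraicGeometry Finset

universe u v

namespace Pool.Agent.Y97.AB

open Pool.Agent.H914 Pool.Agent.H914.VarClass Pool.Agent.H914.VarClass.Obj
  Pool.Agent.H914.WeilCohomology Pool.Agent.H281R3.HT Pool.Agent.W552 Pool.Agent.W539.Ker
  Pool.Agent.Y97.FD

variable {k : Type u} [Field k] {𝒱 : VarClass k} {ops : CycleOps 𝒱}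
  {W : WeilCohomology.{u, v} ops} {P : Polarized 𝒱} {f : Module.End W.K (W.H P.X)}

theorem kf (G : Gp W P.X P.D f) (hd : Der W P.X P.D f) (b : HB W P.X) {q : ℚ} (hq : q ≠ 0)
    (hq1 : bf W P.X P.D f 1 1 = (q : W.K)) (t : ℕ) : KF W P f b t := by
  intro n φ ψ x y
  have hqK : (q : W.K) ≠ 0 := by exact_mod_cast hq
  have h1 : bfs W P f t 1 1 = (q : W.K) ^ (t + 1) := Pool.Agent.Y333.AB.bfs_one G hq1 t
  have h2 : bfs W P f t 1 1 ≠ 0 := by rw [h1]; exact pow_ne_zero _ hqK
  have h3 := Pool.Agent.Y668.AB.bf_prod_det (Pool.Agent.Y668.AB.der_power G hd t) h2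
    (fun l => ev (ops := ops) b t (φ l) (x l)) (fun l => ev (ops := ops) b t (ψ l) (y l))
    (fun _ => ev_mem b t _ _) (fun _ => ev_mem b t _ _)
  refine h3.trans ?_
  have h4 : ∀ i j : Fin n, bf W (power ops P t).X (power ops P t).D (frm W P f t)
      (ev (ops := ops) b t (φ i) (x i)) (ev (ops := ops) b t (ψ j) (y j)) /
      bf W (power ops P t).X (power ops P t).D (frm W P f t) 1 1 =
      if φ i = ψ j then G1 b f (x i) (y j) else 0 := by
    intro i j
    have h5 := Pool.Agent.Y333.AB.bfs_ev G b hq hq1 t (φ i) (ψ j) (x i) (y j)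
    have h6 : bf W (power ops P t).X (power ops P t).D (frm W P f t) 1 1 =
      (q : W.K) ^ (t + 1) := h1
    rw [h6]
    refine (congrArg (· / (q : W.K) ^ (t + 1)) h5).trans ?_
    split_ifs
    · exact mul_div_cancel_left₀ _ (pow_ne_zero _ hqK)
    · exact zero_div _
  have h5 : (Matrix.of fun i j => bf W (power ops P t).X (power ops P t).D (frm W P f t)
      (ev (ops := ops) b t (φ i) (x i)) (ev (ops := ops) b t (ψ j) (y j)) /
      bf W (power ops P t).X (power ops P t).D (frm W P f t) 1 1) =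
      Matrix.of fun i j => if φ i = ψ j then G1 b f (x i) (y j) else 0 := by
    ext i j
    exact h4 i j
  exact congrArg (fun M => bfs W P f t 1 1 * Matrix.det M) h5

end Pool.Agent.Y97.AB
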