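import Pool.Agent.Y97.AB.Rc
import Pool.Agent.Y97.AB.Cld
import Pool.Agent.Y97.AB.Kf
import Pool.Agent.Y97.AB.Ext

/-!
# Pull-backs to another variety, and their adjoints
-/

set_option linter.unusedSectionVars false

open CategoryTheory AlgebraicGeometry Finset

universe u v

namespace Pool.Agent.Y97.AB

open Pool.Agent.H914 Pool.Agent.H914.VarClass Pool.Agent.H914.VarClass.Obj
  Pool.Agent.H914.WeilCohomology Pool.Agent.H281R3.HT Pool.Agent.W552 Pool.Agent.W539.Ker
  Pool.Agent.Y97.FD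

variable {k : Type u} [Field k] {𝒱 : VarClass k} {ops : CycleOps 𝒱}
  {W : WeilCohomology.{u, v} ops} {P Q : Polarized 𝒱}
  {f : Module.End W.K (W.H P.X)} {f' : Module.End W.K (W.H Q.X)}
  {b : HB W P.X} {b' : HB W Q.X} {q q' : ℚ}

/-- The matrix of a pull-back on the first cohomology. -/
lemma exists_mat (b : HB W P.X) (b' : HB W Q.X) (h : Q.X ⟶ P.X) :
    ∃ M : Matrix (Fin (N1 b')) (Fin (N1 b)) W.K,
      ∀ a, W.map h (e1 b a) = ∑ y, M y a • e1 b' y := by
  have h1 : ∀ a, ∃ V : Fin (N1 b') → W.K, W.map h (e1 b a) = ∑ y, V y • e1 b' y := fun a =>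
    Pool.Agent.Y333.AB.span_one b' (W.map_mem h (e1_mem b a))
  choose V hV using h1
  exact ⟨fun y a => V a y, hV⟩

/-- The morphism between powers with given components. -/
noncomputable def tupQ (ops : CycleOps 𝒱) {P Q : Polarized 𝒱} {s : ℕ}
    (h : Fin (s + 1) → (Q.X ⟶ P.X)) : (power ops Q s).X ⟶ (power ops P s).X :=
  tup ops P s (fun l => pr ops Q s l ≫ h l)

section

variable {s : ℕ} {h : Fin (s + 1) → (Q.X ⟶ P.X)}
  {M : Fin (s + 1) → Matrix (Fin (N1 b')) (Fin (N1 b)) W.K}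
  (hM : ∀ l a, W.map (h l) (e1 b a) = ∑ y, M l y a • e1 b' y)

include hM

lemma map_tupQ_ev (l : Fin (s + 1)) (a : Fin (N1 b)) :
    W.map (tupQ ops h) (ev b s l a) = ∑ y, M l y a • ev b' s l y := by
  rw [ev, ← W.map_comp, tupQ, tup_pr, W.map_comp, hM, map_sum]
  refine Finset.sum_congr rfl fun y _ => ?_
  rw [map_smul]
  rfl

lemma map_tupQ_mon {n : ℕ} (φ : Fin n → Fin (s + 1)) (x : Fin n → Fin (N1 b)) :
    W.map (tupQ ops h) (mon b s φ x) =
      ∑ y : Fin n → Fin (N1 b'), (∏ l, M (φ l) (y l) (x l)) • mon b' s φ y := by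
  rw [mon, map_list_prod, List.map_ofFn]
  have h1 : (⇑(W.map (tupQ ops h)) ∘ fun l => ev (ops := ops) b s (φ l) (x l)) =
      fun l => ∑ y, M (φ l) y (x l) • ev (ops := ops) b' s (φ l) y := by
    funext l
    exact map_tupQ_ev hM (φ l) (x l)
  rw [h1, prod_sum_ofFn (W := W)]
  rfl

lemma map_tupQ_mm {n : ℕ} (φ : Fin n → Fin (s + 1)) (g : (Fin n → Fin (N1 b)) → W.K) :
    W.map (tupQ ops h) (mm b s φ g) = mm b' s φ (Rc (fun l => M (φ l)) g) := by
  rw [mm, map_sum, mm]
  simp only [map_smul, map_tupQ_mon hM, Rc, Finset.sum_smul, Finset.smul_sum]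
  rw [Finset.sum_comm]
  refine Finset.sum_congr rfl fun x _ => Finset.sum_congr rfl fun y _ => ?_
  rw [smul_smul, mul_comm]

end

/-- The adjoint of the pull-back. -/
lemma bf_adj' {X Y : 𝒱.Obj} {D : X.Cycles} {E : Y.Cycles} {f : Module.End W.K (W.H X)}
    {g : Module.End W.K (W.H Y)} (G' : Gp W Y E g) (h : X ⟶ Y) (a : W.H Y) (c : W.H X) :
    bf W X D f (W.map h a) c = bf W Y E g a (st W Y E g (W.push h (st W X D f c))) := by
  rw [bf_apply, bf_apply, G'.gd.st_st_apply]
  exact Pool.Agent.Y46.AB.tr_map_adj' h a _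

lemma Sb_id (n : ℕ) : Sb (id : Fin n → Fin n) = {1} := by
  ext σ
  rw [mem_Sb, Finset.mem_singleton]
  constructor
  · intro h
    ext i
    exact congrArg Fin.val (congrFun h i)
  · rintro rfl; rfl

lemma tau_mm_id (G : Gp W P.X P.D f) (H : Hy W P f b q) (s : ℕ)
    (g : (Fin (s + 1) → Fin (N1 b)) → W.K) :
    tau (ops := ops) b f s id (mm b s id g) = ((q ^ (s + 1) : ℚ) : W.K) • g := by
  have h4 := alt_eq' (W := W) (b := b) (id : Fin (s + 1) → Fin (s + 1)) g
  rw [Sb_id, Finset.card_singleton, Nat.cast_one, one_smul, Finset.sum_singleton,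
    Equiv.Perm.sign_one] at h4
  rw [tau_mm_self G H, h4, Sb_id, Finset.card_singleton, Nat.cast_one, mul_one]
  have h5 : rel (1 : Equiv.Perm (Fin (s + 1))) g = g := rfl
  rw [h5]
  simp

lemma mm_id' (s : ℕ) (g : (Fin (s + 1) → Fin (N1 b)) → W.K) :
    mm (ops := ops) b s id g = TT b s g := by
  rw [mm_eq, map_cmap_id b]

/-- **The adjoints of the pull-backs preserve algebraic tensors.** -/
theorem a1_adj (G : Gp W P.X P.D f) (H : Hy W P f b q) (G' : Gp W Q.X Q.D f')
    (H' : Hy W Q f' b' q') (hN : ClosedN (fun _ => true) (G1 b f) (A1 (ops := ops) b))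
    {Cu : Matrix (Fin (N1 b)) (Fin (N1 b)) W.K} (hCu : G1 b f * Cu = -1) {n : ℕ}
    {h : Fin n → (Q.X ⟶ P.X)} {M : Fin n → Matrix (Fin (N1 b')) (Fin (N1 b)) W.K}
    (hM : ∀ l a, W.map (h l) (e1 b a) = ∑ y, M l y a • e1 b' y)
    {g : (Fin n → Fin (N1 b')) → W.K} (hg : A1 (ops := ops) b' n g) :
    A1 (ops := ops) b n (Rc (fun l => -(Cu * (M l).transpose * G1 b' f')) g) := by
  rcases n with _ | s
  · obtain ⟨r, rfl⟩ := hg
    refine ⟨r, ?_⟩
    funext x
    rw [Rc, Fintype.sum_unique, Finset.univ_eq_empty, Finset.prod_empty, one_mul]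
  · have hTT := H'.tt s g hg
    set c : W.H (power ops P s).X := st W (power ops P s).X (power ops P s).D (frm W P f s)
      (W.push (tupQ ops h) (st W (power ops Q s).X (power ops Q s).D (frm W Q f' s)
        (TT b' s g))) with hc
    have hAc : AS W _ c := (gp_frm G s).fr.st_AS (AS.push _ ((gp_frm G' s).fr.st_AS hTT))
    have h0 : (0 : ℚ) < q' ^ (s + 1) := pow_pos H'.hq _
    have h0K : ((q' ^ (s + 1) : ℚ) : W.K) ≠ 0 := by exact_mod_cast h0.ne'
    have key : tau (ops := ops) b f s id c = ((q' ^ (s + 1) : ℚ) : W.K) •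
        Rc (fun l => -(Cu * (M l).transpose * G1 b' f')) g := by
      refine tau_eq b H.det s id c fun x => ?_
      have h1 : bfs W P f s (mon b s id x) c =
          bfs W Q f' s (W.map (tupQ ops h) (mon b s id x)) (TT b' s g) :=
        (bf_adj' (gp_frm G s) (tupQ ops h) (mon b s id x) (TT b' s g)).symm
      rw [h1, map_tupQ_mon hM, map_sum, LinearMap.sum_apply]
      have h2 : ∀ y : Fin (s + 1) → Fin (N1 b'),
          bfs W Q f' s ((∏ l, M (id l) (y l) (x l)) • mon b' s id y) (TT b' s g) =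
          ((q' ^ (s + 1) : ℚ) : W.K) * ((∏ l, (M l).transpose (x l) (y l)) *
            Rc (fun _ => G1 b' f') g y) := by
        intro y
        rw [map_smul, LinearMap.smul_apply, ← act_tau b' H'.det, ← mm_id', tau_mm_id G' H',
          act_smul, Pi.smul_apply, act_eq_Rc, smul_eq_mul, smul_eq_mul]
        simp only [Matrix.transpose_apply, id]
        ring
      rw [Finset.sum_congr rfl fun y _ => h2 y, ← Finset.mul_sum, act_smul, Pi.smul_apply,
        smul_eq_mul, act_eq_Rc, Rc_Rc]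
      congr 1
      have h3 : Rc (fun l => (M l).transpose) (Rc (fun _ => G1 b' f') g) x =
          ∑ y, (∏ l, (M l).transpose (x l) (y l)) * Rc (fun _ => G1 b' f') g y := rfl
      rw [← h3, Rc_Rc]
      have h4 : (fun l => G1 b f * -(Cu * (M l).transpose * G1 b' f')) =
          fun l => (M l).transpose * G1 b' f' := by
        funext l
        rw [Matrix.mul_neg, ← Matrix.mul_assoc, ← Matrix.mul_assoc, hCu, Matrix.neg_mul,
          Matrix.neg_mul, neg_neg, Matrix.one_mul]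
      rw [h4]
    have h5 := (hN.sub (s + 1)).smul ((q' ^ (s + 1) : ℚ)⁻¹) (H.a1 s (s + 1) id c hAc)
    rw [key, smul_smul, Rat.cast_inv, inv_mul_cancel₀ h0K, one_smul] at h5
    exact h5

end Pool.Agent.Y97.AB
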