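import Pool.Agent.Y97.AB.Tau

/-!
# The tensors of the algebraic classes on the first power are positive
-/

set_option linter.unusedSectionVars false

open CategoryTheory AlgebraicGeometry Finset

universe u v

namespace Pool.Agent.Y97.AB

open Pool.Agent.H914 Pool.Agent.H914.VarClass Pool.Agent.H914.VarClass.Obj
  Pool.Agent.H914.WeilCohomology Pool.Agent.H281R3.HT Pool.Agent.W552 Pool.Agent.W539.Ker
  Pool.Agent.Y97.FD

variable {k : Type u} [Field k] {𝒱 : VarClass k} {ops : CycleOps 𝒱}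
  {W : WeilCohomology.{u, v} ops} {P : Polarized 𝒱} {Y : 𝒱.Obj}
  {f : Module.End W.K (W.H P.X)}

section

variable (W P f)

/-- The hypotheses on the algebraic classes and tensors. -/
structure Hy (b : HB W P.X) (q : ℚ) : Prop where
  hq : 0 < q
  hq1 : bf W P.X P.D f 1 1 = (q : W.K)
  det : (G1 b f).det ≠ 0
  kf : ∀ t, KF W P f b t
  tt : ∀ (s : ℕ) (g : (Fin (s + 1) → Fin (N1 b)) → W.K),
    A1 (ops := ops) b (s + 1) g → AS W _ (TT (ops := ops) b s g)
  a1 : ∀ (t n : ℕ) (φ : Fin n → Fin (t + 1)) (c : W.H (power ops P t).X), AS W _ c →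
    A1 (ops := ops) b n (tau b f t φ c)

end

variable {b : HB W P.X} {q : ℚ}

/-- The stabilizer of a choice of slots. -/
def Sb {n m : ℕ} (φ : Fin n → Fin m) : Finset (Equiv.Perm (Fin n)) :=
  Finset.univ.filter fun σ => φ ∘ σ = φ

lemma mem_Sb {n m : ℕ} {φ : Fin n → Fin m} {σ : Equiv.Perm (Fin n)} :
    σ ∈ Sb φ ↔ φ ∘ σ = φ := by
  rw [Sb, Finset.mem_filter]; exact ⟨fun h => h.2, fun h => ⟨Finset.mem_univ _, h⟩⟩

lemma Sb_pos {n m : ℕ} (φ : Fin n → Fin m) : (0 : ℚ) < ((Sb φ).card : ℚ) := by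
  have h : (1 : Equiv.Perm (Fin n)) ∈ Sb φ := mem_Sb.2 rfl
  exact_mod_cast Finset.card_pos.2 ⟨_, h⟩

lemma Sb_inv {n m : ℕ} {φ : Fin n → Fin m} {σ : Equiv.Perm (Fin n)} (h : σ ∈ Sb φ) :
    σ⁻¹ ∈ Sb φ := by
  rw [mem_Sb] at h ⊢
  funext i
  have h1 := congrFun h (σ⁻¹ i)
  have h2 : σ (σ⁻¹ i) = i := by simp
  rw [Function.comp_apply, h2] at h1
  exact h1.symm

/-- The coefficients of the alternation. -/
def cf {n m : ℕ} (φ : Fin n → Fin m) (σ : Equiv.Perm (Fin n)) : ℚ :=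
  if φ ∘ σ = φ then ((Equiv.Perm.sign σ : ℤ) : ℚ) / ((Sb φ).card : ℚ) else 0

/-- The alternation. -/
noncomputable def alt {n m : ℕ} (φ : Fin n → Fin m) (g : (Fin n → Fin (N1 b)) → W.K) :
    (Fin n → Fin (N1 b)) → W.K :=
  ∑ σ : Equiv.Perm (Fin n), (cf φ σ : W.K) • rel σ g

lemma alt_eq {n m : ℕ} (φ : Fin n → Fin m) (g : (Fin n → Fin (N1 b)) → W.K) :
    ((Sb φ).card : W.K) • alt φ g =
    ∑ σ : Equiv.Perm (Fin n), if φ ∘ σ = φ then
      ((Equiv.Perm.sign σ : ℤ) : W.K) • rel σ g else 0 := by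
  have h1 : ((Sb φ).card : W.K) ≠ 0 := by exact_mod_cast (Sb_pos φ).ne'
  rw [alt, Finset.smul_sum]
  refine Finset.sum_congr rfl fun σ _ => ?_
  rw [smul_smul, cf]
  split_ifs with h
  · congr 1
    push_cast
    field_simp
  · rw [Rat.cast_zero, mul_zero, zero_smul]

lemma alt_eq' {n m : ℕ} (φ : Fin n → Fin m) (g : (Fin n → Fin (N1 b)) → W.K) :
    ((Sb φ).card : W.K) • alt φ g =
    ∑ σ ∈ Sb φ, ((Equiv.Perm.sign σ : ℤ) : W.K) • rel σ g := by
  rw [alt_eq, Sb, Finset.sum_filter]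

lemma bfs_one' (G : Gp W P.X P.D f) (hq1 : bf W P.X P.D f 1 1 = (q : W.K)) (t : ℕ) :
    bfs W P f t 1 1 = ((q ^ (t + 1) : ℚ) : W.K) := by
  induction t with
  | zero => rw [zero_add, pow_one]; exact hq1
  | succ t ih =>
    have h1 := bfs_ext G t 1 1 1 1
    have h2 : ext W (X := P.X) (Y := (power ops P t).X) 1 1 = 1 := by
      rw [H281R3.HT.ext, map_one, map_one, mul_one]
    rw [h2, hq1, ih] at h1
    refine h1.trans ?_
    push_cast
    ring

lemma tau_mm_self (G : Gp W P.X P.D f) (H : Hy W P f b q) (t : ℕ) {n : ℕ}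
    (φ : Fin n → Fin (t + 1)) (g : (Fin n → Fin (N1 b)) → W.K) :
    tau (ops := ops) b f t φ (mm b t φ g) =
      ((q ^ (t + 1) * (Sb φ).card : ℚ) : W.K) • alt φ g := by
  rw [tau_mm b H.det t (H.kf t), bfs_one' G H.hq1]
  push_cast
  rw [mul_smul, alt_eq]

lemma rel_tau (H : Hy W P f b q) (t : ℕ) {n : ℕ} (φ : Fin n → Fin (t + 1))
    (c : W.H (power ops P t).X) {σ : Equiv.Perm (Fin n)} (hσ : σ ∈ Sb φ) :
    rel σ (tau (ops := ops) b f t φ c) =
      ((Equiv.Perm.sign σ : ℤ) : W.K) • tau b f t φ c := by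
  have h4 := tau_perm (ops := ops) b H.det t φ c σ
  rwa [mem_Sb.1 hσ] at h4

lemma alt_tau (H : Hy W P f b q) (t : ℕ) {n : ℕ} (φ : Fin n → Fin (t + 1))
    (c : W.H (power ops P t).X) :
    alt φ (tau (ops := ops) b f t φ c) = tau b f t φ c := by
  have h1 : ((Sb φ).card : W.K) ≠ 0 := by exact_mod_cast (Sb_pos φ).ne'
  have h2 : ((Sb φ).card : W.K) • alt φ (tau (ops := ops) b f t φ c) =
      ((Sb φ).card : W.K) • tau b f t φ c := by
    rw [alt_eq']
    have h3 : ∀ σ ∈ Sb φ, ((Equiv.Perm.sign σ : ℤ) : W.K) •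
        rel σ (tau (ops := ops) b f t φ c) = tau b f t φ c := by
      intro σ hσ
      rw [rel_tau H t φ c hσ, smul_smul, sgn_sq, one_smul]
    rw [Finset.sum_congr rfl h3, Finset.sum_const, Nat.cast_smul_eq_nsmul]
  exact smul_right_injective _ h1 h2

lemma dG_alt {n m : ℕ} (φ : Fin n → Fin m) (G : Matrix (Fin (N1 b)) (Fin (N1 b)) W.K)
    {g h : (Fin n → Fin (N1 b)) → W.K} (hg : ∀ σ ∈ Sb φ,
      rel σ g = ((Equiv.Perm.sign σ : ℤ) : W.K) • g) :
    dG G g (alt φ h) = dG G g h := by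
  have h1 : ((Sb φ).card : W.K) ≠ 0 := by exact_mod_cast (Sb_pos φ).ne'
  have h2 : ((Sb φ).card : W.K) * dG G g (alt φ h) = ((Sb φ).card : W.K) * dG G g h := by
    rw [← dG_smul, alt_eq', dG_sum]
    have h3 : ∀ σ ∈ Sb φ,
        dG G g (((Equiv.Perm.sign σ : ℤ) : W.K) • rel σ h) = dG G g h := by
      intro σ hσ
      have h4 := dG_rel G σ⁻¹ g h
      have h5 : ((σ⁻¹ : Equiv.Perm (Fin n)) : Fin n ≃ Fin n).symm = σ := rfl
      rw [h5, hg _ (Sb_inv hσ)] at h4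
      rw [dG_smul, ← h4, Equiv.Perm.sign_inv]
      have h6 : dG G (((Equiv.Perm.sign σ : ℤ) : W.K) • g) h =
          ((Equiv.Perm.sign σ : ℤ) : W.K) * dG G g h := by
        rw [dG, dG, dot, dot, Finset.mul_sum]
        refine Finset.sum_congr rfl fun x _ => ?_
        rw [Pi.smul_apply, smul_eq_mul, mul_assoc]
      rw [h6, ← mul_assoc, sgn_sq, one_mul]
    rw [Finset.sum_congr rfl h3, Finset.sum_const, nsmul_eq_mul]
  exact mul_left_cancel₀ h1 h2

/-- **The tensors of the algebraic classes are positive.** -/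
theorem pq_cyc (G : Gp W P.X P.D f) (H : Hy W P f b q)
    (D : DN (fun _ => true) (G1 b f) (A1 (ops := ops) b)) {t : ℕ} (h0 : PosAt W P f t) {n : ℕ}
    (φ : Fin n → Fin (t + 1)) {c : W.H (power ops P t).X} (hc : AS W _ c) :
    D.PQ n (tau (ops := ops) b f t φ c) := by
  have h6 : (0 : ℚ) < q ^ (t + 1) * (Sb φ).card := mul_pos (pow_pos H.hq _) (Sb_pos φ)
  have hqnK : ((q ^ (t + 1) * (Sb φ).card : ℚ) : W.K) ≠ 0 := by exact_mod_cast h6.ne'
  refine DN.stable (D := D) (V := fun g => ∃ c : W.H (power ops P t).X, AS W _ c ∧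
    g = tau b f t φ c) ⟨?_, ?_, ?_⟩ ?_ (cf φ) ?_ ?_ ?_ _ ⟨c, hc, rfl⟩
  · exact ⟨0, AS.zero, (tau_zero b t φ).symm⟩
  · rintro _ _ ⟨c, hc, rfl⟩ ⟨d, hd, rfl⟩
    exact ⟨c + d, hc.add hd, (tau_add b t φ c d).symm⟩
  · rintro r _ ⟨c, hc, rfl⟩
    exact ⟨(r : W.K) • c, hc.smul r, (tau_smul b t φ _ c).symm⟩
  · rintro _ ⟨c, hc, rfl⟩
    exact H.a1 t n φ c hc
  · intro g hg
    have h1 := mm_as (fun h => H.tt _ _ h) t φ hg
    refine ⟨(((q ^ (t + 1) * (Sb φ).card : ℚ)⁻¹ : ℚ) : W.K) • mm b t φ g, h1.smul _, ?_⟩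
    rw [tau_smul, tau_mm_self G H, smul_smul]
    have h2 : (((q ^ (t + 1) * (Sb φ).card : ℚ)⁻¹ : ℚ) : W.K) *
        ((q ^ (t + 1) * (Sb φ).card : ℚ) : W.K) = 1 := by
      rw [Rat.cast_inv]
      exact inv_mul_cancel₀ hqnK
    rw [h2, one_smul]
    rfl
  · rintro _ ⟨c, hc, rfl⟩
    exact (alt_tau H t φ c).symm
  · rintro _ ⟨c, hc, rfl⟩ r hr
    set g := tau (ops := ops) b f t φ c with hg
    have hgA : A1 (ops := ops) b n g := H.a1 t n φ c hc
    have h1 : AS W _ (mm (ops := ops) b t φ g) := mm_as (fun h => H.tt _ _ h) t φ hgA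
    have h2 : ∀ h : (Fin n → Fin (N1 b)) → W.K,
        bfs W P f t (mm b t φ g) (mm b t φ h) = ((q ^ (t + 1) * (Sb φ).card : ℚ) : W.K) *
          dG (G1 b f) g h := by
      intro h
      rw [← dG_tau b H.det, tau_mm_self G H, dG_smul,
        dG_alt φ (G1 b f) (fun σ hσ => rel_tau H t φ c hσ)]
    have h3 : bfs W P f t (mm b t φ g) (mm b t φ g) =
        ((q ^ (t + 1) * (Sb φ).card * r : ℚ) : W.K) := by
      rw [h2, hr]; push_cast; ring
    obtain ⟨h4, h5⟩ := h0 _ h1 _ h3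
    refine ⟨nonneg_of_mul_nonneg_right h4 h6, fun hr0 h hh => ?_⟩
    have h7 := h5 (by rw [hr0, mul_zero]) _ (mm_as (fun h => H.tt _ _ h) t φ hh)
    rw [h2] at h7
    exact (mul_eq_zero.1 h7).resolve_left hqnK

/-- If the form is positive on the algebraic classes of `X ^ (t + 1)`, all the tensors of the
system in at most `t + 1` slots are positive. -/
theorem pq_low (G : Gp W P.X P.D f) (H : Hy W P f b q)
    (D : DN (fun _ => true) (G1 b f) (A1 (ops := ops) b)) {t : ℕ} (h0 : PosAt W P f t) {n : ℕ}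
    (hn : n ≤ t + 1) {g : (Fin n → Fin (N1 b)) → W.K} (hg : A1 (ops := ops) b n g) :
    D.PQ n g := by
  set φ : Fin n → Fin (t + 1) := Fin.castLE hn with hφ
  have h1 : Sb φ = {1} := by
    ext σ
    rw [mem_Sb, Finset.mem_singleton]
    constructor
    · intro h
      ext i
      have h2 := congrFun h i
      exact congrArg Fin.val (Fin.castLE_injective hn h2)
    · rintro rfl; rfl
  have h2 : (0 : ℚ) < q ^ (t + 1) := pow_pos H.hq _
  have h3 : tau (ops := ops) b f t φ (mm b t φ g) = ((q ^ (t + 1) : ℚ) : W.K) • g := by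
    have h4 := alt_eq' φ g
    rw [h1, Finset.card_singleton, Nat.cast_one, one_smul, Finset.sum_singleton,
      Equiv.Perm.sign_one] at h4
    rw [tau_mm_self G H, h4, h1, Finset.card_singleton, Nat.cast_one, mul_one]
    have h5 : rel (1 : Equiv.Perm (Fin n)) g = g := rfl
    rw [h5]
    simp
  have h4 := (pq_cyc G H D h0 φ (mm_as (fun h => H.tt _ _ h) t φ hg)).smul
    ((q ^ (t + 1) : ℚ)⁻¹)
  rw [h3, smul_smul, ← Rat.cast_mul, inv_mul_cancel₀ h2.ne', Rat.cast_one, one_smul] at h4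
  exact h4

end Pool.Agent.Y97.AB
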