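import Pool.Agent.Y97.AB.GDefs

/-!
# Frobenius endomorphisms, Tate classes and relations between the eigenvalues: definitions
-/

open CategoryTheory AlgebraicGeometry

universe u v

namespace Pool.Agent.Y97.AB

open Pool.Agent.H914 Pool.Agent.H914.VarClass Pool.Agent.H914.VarClass.Obj
  Pool.Agent.H914.WeilCohomology Pool.Agent.H281R3.HT Pool.Agent.W539.Ker

/-- The product of the `2 j` numbers `π (x 0), π (x 1), …` is `q ^ j`. -/
def Rel {K : Type*} [Field K] {N n : ℕ} (q : ℕ) (π : Fin N → K) (x : Fin n → Fin N) : Prop :=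
  ∃ j, n = 2 * j ∧ ∏ l, π (x l) = (q : K) ^ j

/-- The exponent vector: it gives for every number how often it is among `π (x 0), π (x 1), …` -/
noncomputable def expo {K : Type*} {N n : ℕ} (π : Fin N → K) (x : Fin n → Fin N) : K →₀ ℤ :=
  ∑ l, Finsupp.single (π (x l)) 1

/-- The group generated by the exponent vectors of the relations in which each of the members
`π 0, …, π (N - 1)` of the family is used at most `m + 1` times. -/
noncomputable def relGroup {K : Type*} [Field K] {N : ℕ} (q : ℕ) (π : Fin N → K) (m : ℕ) :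
    AddSubgroup (K →₀ ℤ) :=
  AddSubgroup.closure {v | ∃ (n : ℕ) (a : Fin n → Fin (m + 1)) (x : Fin n → Fin N),
    (∀ l l', a l = a l' → x l = x l' → l = l') ∧ Rel q π x ∧ v = expo π x}

/-- All relations belong to the group generated by the relations in which each of the members
`π 0, …, π (N - 1)` of the family is used at most `m + 1` times. -/
def RelGen {K : Type*} [Field K] {N : ℕ} (q : ℕ) (π : Fin N → K) (m : ℕ) : Prop :=
  ∀ (n : ℕ) (x : Fin n → Fin N), Rel q π x → expo π x ∈ relGroup q π m

variable {k : Type u} [Field k] {𝒱 : VarClass k} {ops : CycleOps 𝒱}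

/-- The endomorphism `φ × ⋯ × φ` of a power of `X`. -/
noncomputable def frobP (ops : CycleOps 𝒱) (P : Polarized 𝒱) (φ : P.X ⟶ P.X) :
    (s : ℕ) → ((power ops P s).X ⟶ (power ops P s).X)
  | 0 => φ
  | s + 1 => Obj.lift (X := P.X) (Y := (power ops P s).X) (fst P.X (power ops P s).X ≫ φ)
      (snd P.X (power ops P s).X ≫ frobP ops P φ s)

/-- The endomorphism `F` acts on the classes of the cycles of codimension `j` as `q ^ j`. -/
def FrobLike (W : WeilCohomology.{u, v} ops) (Y : 𝒱.Obj) (F : Y ⟶ Y) (q : ℕ) : Prop :=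
  ∀ j z, Y.IsCyc j z → W.map F (W.cl Y z) = (q : W.K) ^ j • W.cl Y z

/-- The Tate conjecture in codimension `j`: the classes in degree `2 j` on which `F` acts as
`q ^ j` are linear combinations of classes of cycles of codimension `j`. -/
def TateIn (W : WeilCohomology.{u, v} ops) (Y : 𝒱.Obj) (F : Y ⟶ Y) (q j : ℕ) : Prop :=
  ∀ c ∈ W.gr Y (2 * j), W.map F c = (q : W.K) ^ j • c →
    c ∈ Submodule.span W.K {c | ∃ z, Y.IsCyc j z ∧ c = W.cl Y z}

/-- The endomorphism `F` is diagonalizable on the first cohomology of `Y`, with the eigenvalues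
`π 0, …, π (N - 1)` (with multiplicities). -/
def Diag (W : WeilCohomology.{u, v} ops) (Y : 𝒱.Obj) (F : Y ⟶ Y) {N : ℕ} (π : Fin N → W.K) :
    Prop :=
  ∃ e : Fin N → W.H Y, LinearIndependent W.K e ∧ Submodule.span W.K (Set.range e) = W.gr Y 1 ∧
    ∀ i, W.map F (e i) = π i • e i

end Pool.Agent.Y97.AB
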