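import Pool.Agent.Y97.AB.Kp
import Pool.Agent.Y97.AB.RDefs

/-!
# Tensors supported on relations
-/

set_option linter.unusedSectionVars false

open Finset

universe v

namespace Pool.Agent.Y97.AB

open Pool.Agent.W552 Pool.Agent.Y97 Pool.Agent.Y97.FD

lemma expo_append {K : Type*} {N n m : ℕ} (π : Fin N → K) (x : Fin n → Fin N)
    (z : Fin m → Fin N) : expo π (Fin.append x z) = expo π x + expo π z := by
  rw [expo, Fin.sum_univ_add]
  congr 1
  · exact Finset.sum_congr rfl fun l _ => by rw [Fin.append_left]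
  · exact Finset.sum_congr rfl fun l _ => by rw [Fin.append_right]

/-- Families with the same exponent vector differ by a permutation. -/
lemma exists_equiv_of_expo {K : Type*} {N n m : ℕ} {π : Fin N → K} {x : Fin n → Fin N}
    {y : Fin m → Fin N} (h : expo π x = expo π y) :
    ∃ e : Fin n ≃ Fin m, ∀ l, π (x l) = π (y (e l)) := by
  classical
  have h1 : ∀ κ, Fintype.card {l // π (x l) = κ} = Fintype.card {l // π (y l) = κ} := by
    intro κ
    have h2 := DFunLike.congr_fun h κ
    simp only [expo, Finsupp.finset_sum_apply, Finsupp.single_apply, Finset.sum_boole] at h2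
    rw [Fintype.card_subtype, Fintype.card_subtype]
    exact_mod_cast h2
  let e : Fin n ≃ Fin m := (Equiv.sigmaFiberEquiv fun l => π (x l)).symm.trans
    ((Equiv.sigmaCongrRight fun κ => Fintype.equivOfCardEq (h1 κ)).trans
      (Equiv.sigmaFiberEquiv fun l => π (y l)))
  refine ⟨e, fun l => ?_⟩
  have h2 : ∀ w : Σ κ, {l // π (x l) = κ}, π (y (((Equiv.sigmaCongrRight fun κ =>
      Fintype.equivOfCardEq (h1 κ)).trans (Equiv.sigmaFiberEquiv fun l => π (y l))) w)) = w.1 :=
    fun w => (Fintype.equivOfCardEq (h1 w.1) w.2).2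
  exact (h2 ((Equiv.sigmaFiberEquiv fun l => π (x l)).symm l)).symm

variable {N : ℕ} {K : Type v} [Field K] [CharZero K]
  {G : Matrix (Fin N) (Fin N) K} {A : ∀ n : ℕ, ((Fin n → Fin N) → K) → Prop}

namespace DN

lemma ua_sg {n : ℕ} (x y : Fin n → Fin N) :
    Ua (fun l => Matrix.single (x l) (y l) (1 : K)) (sg y) = sg x := by
  funext z
  rw [Ua, Finset.sum_eq_single y]
  · rw [sg_apply, if_pos rfl, mul_one, sg_apply]
    by_cases h : z = x
    · subst h
      rw [if_pos rfl]
      exact Finset.prod_eq_one fun l _ => by simp [Matrix.single]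
    · rw [if_neg h]
      have h1 : ∃ l, z l ≠ x l := by
        by_contra h2
        push Not at h2
        exact h (funext h2)
      obtain ⟨l, hl⟩ := h1
      refine Finset.prod_eq_zero (Finset.mem_univ l) ?_
      simp [Matrix.single, Ne.symm hl]
  · intro w _ hw
    rw [sg_apply, if_neg hw, mul_zero]
  · intro h; exact absurd (Finset.mem_univ _) h

variable {D : DN (fun _ => true) G A}

/-- Contractions of linear combinations of positive tensors. -/
lemma KP.ctr {n m : ℕ} {g : (Fin (n + m) → Fin N) → K} {p : (Fin m → Fin N) → K}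
    (hg : g ∈ D.KP (n + m)) (hp : p ∈ D.KP m) :
    pdot (FD.rel finSumFinEquiv.symm g) (act G.transpose p) ∈ D.KP n := by
  induction hg using Submodule.span_induction with
  | mem g hg =>
    induction hp using Submodule.span_induction with
    | mem p hp => exact KP.of (PQ.ctr hg hp)
    | zero =>
      have h1 : pdot (FD.rel finSumFinEquiv.symm g)
          (act G.transpose (0 : (Fin m → Fin N) → K)) = 0 := by
        rw [act_zero]
        funext I
        simp [pdot]
      rw [h1]; exact Submodule.zero_mem _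
    | add x y _ _ hx hy =>
      have h1 : pdot (FD.rel finSumFinEquiv.symm g) (act G.transpose (x + y)) =
          pdot (FD.rel finSumFinEquiv.symm g) (act G.transpose x) +
            pdot (FD.rel finSumFinEquiv.symm g) (act G.transpose y) := by
        rw [act_add]
        funext I
        simp only [pdot, Pi.add_apply, mul_add, Finset.sum_add_distrib]
      rw [h1]; exact Submodule.add_mem _ hx hy
    | smul a x _ hx =>
      have h1 : pdot (FD.rel finSumFinEquiv.symm g) (act G.transpose (a • x)) =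
          a • pdot (FD.rel finSumFinEquiv.symm g) (act G.transpose x) := by
        rw [act_smul]
        funext I
        simp only [pdot, Pi.smul_apply, smul_eq_mul, Finset.mul_sum]
        exact Finset.sum_congr rfl fun _ _ => by ring
      rw [h1]; exact Submodule.smul_mem _ _ hx
  | zero =>
    have h1 : pdot (FD.rel finSumFinEquiv.symm (0 : (Fin (n + m) → Fin N) → K))
        (act G.transpose p) = 0 := by
      rw [rel_zero]
      funext I
      simp [pdot]
    rw [h1]; exact Submodule.zero_mem _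
  | add x y _ _ hx hy =>
    have h1 : pdot (FD.rel finSumFinEquiv.symm (x + y)) (act G.transpose p) =
        pdot (FD.rel finSumFinEquiv.symm x) (act G.transpose p) +
          pdot (FD.rel finSumFinEquiv.symm y) (act G.transpose p) := by
      rw [rel_add]
      funext I
      simp only [pdot, Pi.add_apply, add_mul, Finset.sum_add_distrib]
    rw [h1]; exact Submodule.add_mem _ hx hy
  | smul a x _ hx =>
    have h1 : pdot (FD.rel finSumFinEquiv.symm (a • x)) (act G.transpose p) =
        a • pdot (FD.rel finSumFinEquiv.symm x) (act G.transpose p) := by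
      rw [rel_smul]
      funext I
      simp only [pdot, Pi.smul_apply, smul_eq_mul, Finset.mul_sum]
      exact Finset.sum_congr rfl fun _ _ => by ring
    rw [h1]; exact Submodule.smul_mem _ _ hx

lemma ctr_sg {n m : ℕ} (x : Fin n → Fin N) (z z' : Fin m → Fin N) :
    pdot (FD.rel finSumFinEquiv.symm (sg (Fin.append x z) : (Fin (n + m) → Fin N) → K))
      (act G.transpose (sg z')) = (∏ l, G (z' l) (z l)) • sg x := by
  have h1 : ∀ w : Fin m → Fin N, act G.transpose (sg z') w = ∏ l, G (z' l) (w l) := by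
    intro w
    rw [act_apply, Finset.sum_eq_single z']
    · rw [sg_apply, if_pos rfl, mul_one]
      rfl
    · intro v _ hv
      rw [sg_apply, if_neg hv, mul_zero]
    · intro h; exact absurd (Finset.mem_univ _) h
  rw [← tmul_sg, rel_symm_rel]
  funext I
  rw [pdot, Finset.sum_eq_single z]
  · rw [h1, tmul_apply, Pi.smul_apply, smul_eq_mul]
    have h2 : (sg z : (Fin m → Fin N) → K) (fun s => Sum.elim I z (Sum.inr s)) = 1 := by
      rw [sg_apply, if_pos]
      rfl
    rw [h2, mul_one, mul_comm]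
    rfl
  · intro w _ hw
    rw [tmul_apply]
    have h2 : (sg z : (Fin m → Fin N) → K) (fun s => Sum.elim I w (Sum.inr s)) = 0 := by
      rw [sg_apply, if_neg]
      exact hw
    rw [h2, mul_zero, zero_mul]
  · intro h; exact absurd (Finset.mem_univ _) h

/-- Cancellation. -/
lemma KP.cancel {n m : ℕ} {x : Fin n → Fin N} {z z' : Fin m → Fin N}
    (hz : ∀ l, G (z' l) (z l) ≠ 0)
    (h : (sg (Fin.append x z) : (Fin (n + m) → Fin N) → K) ∈ D.KP (n + m))
    (h' : (sg z' : (Fin m → Fin N) → K) ∈ D.KP m) :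
    (sg x : (Fin n → Fin N) → K) ∈ D.KP n := by
  have h1 := KP.ctr h h'
  rw [ctr_sg] at h1
  have h2 : ∏ l, G (z' l) (z l) ≠ 0 := Finset.prod_ne_zero_iff.2 fun l _ => hz l
  have h3 := Submodule.smul_mem _ (∏ l, G (z' l) (z l))⁻¹ h1
  rwa [smul_smul, inv_mul_cancel₀ h2, one_smul] at h3

/-- The tensors with one entry at a relation are linear combinations of positive tensors. -/
theorem KP.rel_mem (hfull : ∀ g, A 2 g → D.PQ 2 g) {q m : ℕ} (hq : (q : K) ≠ 0)
    {π : Fin N → K} (hE : ∀ i j, π i = π j → Matrix.single i j (1 : K) ∈ KU G A)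
    {τ : Fin N → Fin N} (hτi : Function.Injective τ) (hτ : ∀ i, G (τ i) i ≠ 0)
    (hτπ : ∀ i, π i * π (τ i) = q)
    (hb : ∀ (r : ℕ) (a : Fin r → Fin (m + 1)) (y : Fin r → Fin N),
      (∀ l l', a l = a l' → y l = y l' → l = l') → Rel q π y →
      (sg y : (Fin r → Fin N) → K) ∈ D.KP r)
    (hR : RelGen q π m) (n : ℕ) (x : Fin n → Fin N) (hx : Rel q π x) :
      (sg x : (Fin n → Fin N) → K) ∈ D.KP n := by
  have hdual : ∀ (n : ℕ) (y : Fin n → Fin N), Rel q π y → Rel q π (τ ∘ y) := by
    rintro n y ⟨j, hj, hj'⟩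
    refine ⟨j, hj, ?_⟩
    have h1 : (∏ l, π (y l)) * ∏ l, π ((τ ∘ y) l) = (q : K) ^ j * (q : K) ^ j := by
      have h2 : ∀ l, π (y l) * π ((τ ∘ y) l) = (q : K) := fun l => hτπ (y l)
      rw [← Finset.prod_mul_distrib, Finset.prod_congr rfl fun l _ => h2 l,
        Finset.prod_const, Finset.card_univ, Fintype.card_fin, hj, two_mul, pow_add]
    rw [hj'] at h1
    exact mul_left_cancel₀ (pow_ne_zero _ hq) h1
  have hmain : ∀ v ∈ relGroup q π m, ∃ (r : ℕ) (y : Fin r → Fin N) (r' : ℕ)
      (y' : Fin r' → Fin N), ((sg y : (Fin r → Fin N) → K) ∈ D.KP r ∧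
        (sg (τ ∘ y) : (Fin r → Fin N) → K) ∈ D.KP r) ∧
      ((sg y' : (Fin r' → Fin N) → K) ∈ D.KP r' ∧
        (sg (τ ∘ y') : (Fin r' → Fin N) → K) ∈ D.KP r') ∧ v + expo π y' = expo π y := by
    have hemp : ∀ y : Fin 0 → Fin N, (sg y : (Fin 0 → Fin N) → K) ∈ D.KP 0 := fun y =>
      hb 0 Fin.elim0 y (fun l => l.elim0) ⟨0, rfl, by simp⟩
    have happ : ∀ {r r' : ℕ} {y : Fin r → Fin N} {y' : Fin r' → Fin N},
        (sg y : (Fin r → Fin N) → K) ∈ D.KP r ∧ (sg (τ ∘ y) : (Fin r → Fin N) → K) ∈ D.KP r →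
        (sg y' : (Fin r' → Fin N) → K) ∈ D.KP r' ∧
          (sg (τ ∘ y') : (Fin r' → Fin N) → K) ∈ D.KP r' →
        (sg (Fin.append y y') : (Fin (r + r') → Fin N) → K) ∈ D.KP (r + r') ∧
          (sg (τ ∘ Fin.append y y') : (Fin (r + r') → Fin N) → K) ∈ D.KP (r + r') := by
      intro r r' y y' h h'
      have h1 : τ ∘ Fin.append y y' = Fin.append (τ ∘ y) (τ ∘ y') := by
        funext l
        refine Fin.addCases (fun i => ?_) (fun i => ?_) l
        · rw [Function.comp_apply, Fin.append_left, Fin.append_left]; rfl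
        · rw [Function.comp_apply, Fin.append_right, Fin.append_right]; rfl
      refine ⟨?_, ?_⟩
      · rw [← tmul_sg]; exact KP.tm h.1 h'.1
      · rw [h1, ← tmul_sg]; exact KP.tm h.2 h'.2
    intro v hv
    induction hv using AddSubgroup.closure_induction with
    | mem v hv =>
      obtain ⟨r, a, y, hinj, hy, rfl⟩ := hv
      refine ⟨r, y, 0, Fin.elim0, ⟨hb r a y hinj hy, hb r a (τ ∘ y)
        (fun l l' h1 h2 => hinj l l' h1 (hτi h2)) (hdual r y hy)⟩, ⟨hemp _, hemp _⟩, ?_⟩
      simp [expo]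
    | zero =>
      exact ⟨0, Fin.elim0, 0, Fin.elim0, ⟨hemp _, hemp _⟩, ⟨hemp _, hemp _⟩, by simp⟩
    | add v w _ _ ihv ihw =>
      obtain ⟨r, y, r', y', h1, h2, h3⟩ := ihv
      obtain ⟨s, z, s', z', h4, h5, h6⟩ := ihw
      refine ⟨r + s, Fin.append y z, r' + s', Fin.append y' z', happ h1 h4, happ h2 h5, ?_⟩
      rw [expo_append, expo_append, ← h3, ← h6]
      abel
    | neg v _ ih =>
      obtain ⟨r, y, r', y', h1, h2, h3⟩ := ih
      refine ⟨r', y', r, y, h2, h1, ?_⟩
      rw [← h3]
      abel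
  obtain ⟨r, y, r', y', hy, hy', h⟩ := hmain _ (hR n x hx)
  rw [← expo_append] at h
  obtain ⟨e, he⟩ := exists_equiv_of_expo h
  have h1 : (sg (y ∘ e) : (Fin (n + r') → Fin N) → K) ∈ D.KP (n + r') := by
    have h2 := KP.rel hy.1 e.symm
    rwa [rel_sg, Equiv.symm_symm] at h2
  have h2 := KP.ua hfull (fun l => Matrix.single (Fin.append x y' l) ((y ∘ e) l) (1 : K))
    (fun l => hE _ _ (he l)) h1
  rw [ua_sg] at h2
  exact KP.cancel (fun l => hτ (y' l)) h2 hy'.2

/-- A permutation of the indices with nonzero entries of a nondegenerate form. -/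
lemma exists_dual {G : Matrix (Fin N) (Fin N) K} (hG : G.det ≠ 0) :
    ∃ τ : Equiv.Perm (Fin N), ∀ i, G (τ i) i ≠ 0 := by
  by_contra h
  push Not at h
  apply hG
  rw [Matrix.det_apply]
  refine Finset.sum_eq_zero fun τ _ => ?_
  obtain ⟨i, hi⟩ := h τ
  have h1 : ∏ i, G (τ i) i = 0 := Finset.prod_eq_zero (Finset.mem_univ i) hi
  rw [h1, smul_zero]

end DN

end Pool.Agent.Y97.AB
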