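import Pool.Agent.Y97.FD.Geo3

/-!
# Varieties whose cohomology is the exterior algebra on the first cohomology: definitions
-/

set_option linter.unusedSectionVars false

open CategoryTheory AlgebraicGeometry Finset

universe u v

namespace Pool.Agent.Y97.AB

open Pool.Agent.H914 Pool.Agent.H914.VarClass Pool.Agent.H914.VarClass.Obj
  Pool.Agent.H914.WeilCohomology Pool.Agent.H281R3.HT Pool.Agent.W552 Pool.Agent.W539.Ker
  Pool.Agent.Y97.FD

variable {k : Type u} [Field k] {𝒱 : VarClass k} {ops : CycleOps 𝒱}

/-- The square of a class of degree one vanishes. -/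
lemma sq_zero (W : WeilCohomology.{u, v} ops) (X : 𝒱.Obj) (v : W.gr X 1) :
    (W.gr X 1).subtype v * (W.gr X 1).subtype v = 0 := by
  have h1 := W.comm v.2 v.2
  rw [one_mul, pow_one, neg_one_smul] at h1
  have h2 : (2 : W.K) • ((v : W.H X) * (v : W.H X)) = 0 := by
    rw [two_smul]
    nth_rewrite 1 [h1]
    exact neg_add_cancel _
  exact (smul_eq_zero.1 h2).resolve_left two_ne_zero

/-- The homomorphism from the exterior algebra on the first cohomology to the cohomology. -/
noncomputable def extHom (W : WeilCohomology.{u, v} ops) (X : 𝒱.Obj) :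
    ExteriorAlgebra W.K (W.gr X 1) →ₐ[W.K] W.H X :=
  ExteriorAlgebra.lift W.K ⟨(W.gr X 1).subtype, sq_zero W X⟩

/-- The cohomology of `X` is the exterior algebra on the first cohomology. -/
def IsExterior (W : WeilCohomology.{u, v} ops) (X : 𝒱.Obj) : Prop :=
  Function.Bijective (extHom W X)

/-- The adjoints, for the form `bf`, of the multiplications by the classes of degree one are odd
derivations. -/
def Der (W : WeilCohomology.{u, v} ops) (X : 𝒱.Obj) (D : X.Cycles)
    (f : Module.End W.K (W.H X)) : Prop :=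
  ∀ v ∈ W.gr X 1, ∃ v' : Module.End W.K (W.H X),
    (∀ a b, bf W X D f (v * a) b = bf W X D f a (v' b)) ∧ v' 1 = 0 ∧
      ∀ w ∈ W.gr X 1, ∃ γ : W.K, ∀ b, v' (w * b) = γ • b - w * v' b

end Pool.Agent.Y97.AB
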