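import Pool.Agent.Y97.FD.Geo3
import Pool.Agent.Y784.FD.Ker

/-!
# Positive tensors of a closed system in numbered slots
-/

set_option linter.unusedSectionVars false

open Finset

universe v

namespace Pool.Agent.Y97.AB

open Pool.Agent.W552 Pool.Agent.Y97 Pool.Agent.Y97.FD

/-- The form on tensors given by a matrix. -/
def dG {R : Type} [Fintype R] [DecidableEq R] {K : Type*} [CommRing K] {κ : Type} [Fintype κ]
    [DecidableEq κ] (G : Matrix R R K) (g h : (κ → R) → K) : K := dot g (act G h)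

section dG

variable {R : Type} [Fintype R] [DecidableEq R] {K : Type*} [CommRing K] {κ κ' : Type} [Fintype κ]
  [DecidableEq κ] [Fintype κ'] [DecidableEq κ'] (G : Matrix R R K)

lemma dG_rel (e : κ ≃ κ') (g : (κ → R) → K) (h : (κ' → R) → K) :
    dG G (rel e g) h = dG G g (rel e.symm h) := by
  rw [dG, dG, dot_rel, act_rel]

lemma dG_add (g h h' : (κ → R) → K) : dG G g (h + h') = dG G g h + dG G g h' := by
  rw [dG, act_add, dot_add, dG, dG]

lemma dG_smul (c : K) (g h : (κ → R) → K) : dG G g (c • h) = c * dG G g h := by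
  rw [dG, act_smul, dot_smul, dG]

lemma dG_zero (g : (κ → R) → K) : dG G g 0 = 0 := by
  rw [dG, act_zero, dot_zero]

lemma dG_sum {ι : Type*} (s : Finset ι) (g : (κ → R) → K) (h : ι → (κ → R) → K) :
    dG G g (∑ i ∈ s, h i) = ∑ i ∈ s, dG G g (h i) := by
  rw [dG, act_sum, dot_sum]
  rfl

lemma dG_ctr (g : (κ → R) → K) (p : (κ' → R) → K) (t : (κ ⊕ κ' → R) → K) :
    dG G (tmul g p) t = dG G g (pdot t (act G.transpose p)) := by
  rw [dG, ← dot_pdot, pdot_act, dG]

lemma dG_ext {K : Type*} [Field K] {G : Matrix R R K} (hG : G.det ≠ 0) {h h' : (κ → R) → K}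
    (H : ∀ g, dG G g h = dG G g h') : h = h' := by
  have h1 : act G h = act G h' := dot_ext (fun v => H v)
  have h2 := congrArg (act G⁻¹) h1
  have h3 : G⁻¹ * G = 1 := Matrix.nonsing_inv_mul _ (isUnit_iff_ne_zero.2 hG)
  rwa [← act_mul, ← act_mul, h3, act_one, act_one] at h2

end dG

variable {N : ℕ} {K : Type v} [Field K] [CharZero K] {par : Fin N → Bool}
  {G : Matrix (Fin N) (Fin N) K} {A : ∀ n : ℕ, ((Fin n → Fin N) → K) → Prop}

/-- The data attached to a closed system. -/
structure DN (par : Fin N → Bool) (G : Matrix (Fin N) (Fin N) K)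
    (A : ∀ n : ℕ, ((Fin n → Fin N) → K) → Prop) where
  /-- the standard form -/
  S : Std (Fin N)
  /-- the change of coordinates -/
  M : Matrix (Fin N) (Fin N) (AlgebraicClosure K)
  /-- its inverse -/
  M' : Matrix (Fin N) (Fin N) (AlgebraicClosure K)
  hmul : M * M' = 1
  hform : M.transpose * S.C _ * M = G.map (algebraMap K (AlgebraicClosure K))
  hN : ClosedN par G A
  hA : Closed S (AF (algebraMap K (AlgebraicClosure K)) M A)
  /-- maximal orthogonal families -/
  B : Bas S (AF (algebraMap K (AlgebraicClosure K)) M A)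
  /-- a model -/
  x : B.Vr → ℂ
  /-- its unitary -/
  k : Matrix (Fin N) (Fin N) ℂ
  mm : MM B x k

/-- The existence of the data. -/
theorem exists_DN (hN : ClosedN par G A) (h1 : ∀ i j, par i ≠ par j → G i j = 0)
    (h2 : ∀ i j, G j i = (if par i then -1 else 1) * G i j) (h3 : G.det ≠ 0) :
    Nonempty (DN par G A) := by
  set φ := algebraMap K (AlgebraicClosure K) with hφ
  obtain ⟨S, M, M', e1, e2, e3, e4⟩ := Pool.Agent.Y96.FD.jobD (AlgebraicClosure K) N
    par (G.map φ)
    (fun i j h => by rw [Matrix.map_apply, h1 i j h, map_zero])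
    (fun i j => by
      rw [Matrix.map_apply, Matrix.map_apply, h2 i j, map_mul]
      congr 1
      split_ifs <;> simp)
    (by
      have h5 : (G.map φ).det = φ G.det := (RingHom.map_det φ _).symm
      rw [h5]
      exact (map_ne_zero φ).2 h3)
  have hA : Closed S (AF φ M A) :=
    Pool.Agent.Y97.FD.E.jobE S _ (Pool.Agent.Y496.FD.jobF φ par G _ hN S M M' e1 e2 e3 e4)
  obtain ⟨B, x, k, hm⟩ := exists_MM hA
  exact ⟨⟨S, M, M', e2, e3, hN, hA, B, x, k, hm⟩⟩

namespace DN

variable (D : DN par G A)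

/-- The extension of scalars. -/
noncomputable abbrev φ (K : Type v) [Field K] : K →+* AlgebraicClosure K :=
  algebraMap K (AlgebraicClosure K)

/-- The system. -/
abbrev AA : ∀ κ : Type, ((κ → Fin N) → AlgebraicClosure K) → Prop :=
  AF (algebraMap K (AlgebraicClosure K)) D.M A

lemma hmul' : D.M' * D.M = 1 := mul_eq_one_comm.1 D.hmul

section Cs

variable {κ κ' : Type} [Fintype κ] [DecidableEq κ] [Fintype κ'] [DecidableEq κ']

/-- The tensor in the coordinates in which the form is standard. -/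
noncomputable def cs (g : (κ → Fin N) → K) : (κ → Fin N) → AlgebraicClosure K :=
  act D.M (mapT (φ K) g)

lemma cs_add (g h : (κ → Fin N) → K) : D.cs (g + h) = D.cs g + D.cs h := by
  rw [cs, cs, cs, ← act_add]
  congr 1
  funext x
  simp [mapT_apply]

lemma cs_smul (q : ℚ) (g : (κ → Fin N) → K) :
    D.cs ((q : K) • g) = (q : AlgebraicClosure K) • D.cs g := by
  rw [cs, cs, ← act_smul]
  congr 1
  funext x
  simp [mapT_apply]

lemma cs_zero : D.cs (0 : (κ → Fin N) → K) = 0 := by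
  have : mapT (φ K) (0 : (κ → Fin N) → K) = 0 := by
    funext x; simp [mapT_apply]
  rw [cs, this, act_zero]

lemma cs_sum {ι : Type*} (s : Finset ι) (g : ι → (κ → Fin N) → K) :
    D.cs (∑ i ∈ s, g i) = ∑ i ∈ s, D.cs (g i) := by
  classical
  induction s using Finset.induction_on with
  | empty => rw [Finset.sum_empty, Finset.sum_empty, cs_zero]
  | insert a s ha ih => rw [Finset.sum_insert ha, Finset.sum_insert ha, cs_add, ih]

lemma cs_rel (e : κ ≃ κ') (g : (κ → Fin N) → K) : D.cs (rel e g) = rel e (D.cs g) := by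
  rw [cs, mapT_rel, act_rel]; rfl

lemma cs_tmul (g : (κ → Fin N) → K) (h : (κ' → Fin N) → K) :
    D.cs (tmul g h) = tmul (D.cs g) (D.cs h) := by
  rw [cs, mapT_tmul, act_tmul]; rfl

lemma bp_cs (g h : (κ → Fin N) → K) : bp D.S (D.cs g) (D.cs h) = φ K (dG G g h) := by
  rw [dG, map_dot, mapT_act, ← D.hform, act_mul, act_mul, bp, jl_eq_act, cs, cs, dot_act]

lemma cs_inj {g h : (κ → Fin N) → K} (H : D.cs g = D.cs h) : g = h := by
  have h1 := congrArg (act D.M') H
  rw [cs, cs, ← act_mul, ← act_mul, D.hmul', act_one, act_one] at h1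
  funext x
  exact (φ K).injective (congrFun h1 x)

end Cs

lemma cs_mem {n : ℕ} {g : (Fin n → Fin N) → K} (hg : A n g) : D.AA (Fin n) (D.cs g) :=
  Or.inr ⟨n, Equiv.refl _, g, hg, rfl⟩

lemma exists_cs {n : ℕ} {a : (Fin n → Fin N) → AlgebraicClosure K} (ha : D.AA (Fin n) a) :
    ∃ g, A n g ∧ a = D.cs g := by
  rcases ha with rfl | ⟨m, e, g, hg, h⟩
  · exact ⟨0, (D.hN.sub n).zero, D.cs_zero.symm⟩
  · have hn : n = m := by simpa using Fintype.card_congr e
    subst hn
    refine ⟨rel e.symm g, D.hN.perm e.symm hg, ?_⟩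
    rw [cs, mapT_rel, act_rel, ← h, rel_symm_rel]

/-- The positive tensors. -/
def PQ (n : ℕ) (g : (Fin n → Fin N) → K) : Prop := PP D.B D.x D.k (Fin n) (D.cs g)

variable {D} {n m : ℕ}

lemma PQ.mem {g : (Fin n → Fin N) → K} (h : D.PQ n g) : A n g := by
  obtain ⟨g', hg', h'⟩ := D.exists_cs h.1
  rw [D.cs_inj h']
  exact hg'

lemma PQ.add {g h : (Fin n → Fin N) → K} (hg : D.PQ n g) (hh : D.PQ n h) : D.PQ n (g + h) := by
  rw [PQ, cs_add]
  exact PP.add D.hA hg hh

lemma PQ.smul {g : (Fin n → Fin N) → K} (hg : D.PQ n g) (q : ℚ) : D.PQ n ((q : K) • g) := by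
  rw [PQ, cs_smul]
  exact PP.smul D.hA hg q

lemma PQ.zero : D.PQ n 0 := by
  rw [PQ, cs_zero]
  exact PP.nt D.hA (NT.zero D.hA)

lemma PQ.sum {ι : Type*} {s : Finset ι} {g : ι → (Fin n → Fin N) → K}
    (hg : ∀ i ∈ s, D.PQ n (g i)) : D.PQ n (∑ i ∈ s, g i) := by
  classical
  induction s using Finset.induction_on with
  | empty => rw [Finset.sum_empty]; exact PQ.zero
  | insert a s ha ih =>
    rw [Finset.sum_insert ha]
    exact (hg a (Finset.mem_insert_self _ _)).add
      (ih fun i hi => hg i (Finset.mem_insert_of_mem hi))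

lemma PQ.rel {g : (Fin n → Fin N) → K} (hg : D.PQ n g) (e : Fin n ≃ Fin m) :
    D.PQ m (rel e g) := by
  rw [PQ, cs_rel]
  exact PP.rel D.hA D.mm e hg

lemma PQ.tm {g : (Fin n → Fin N) → K} {h : (Fin m → Fin N) → K} (hg : D.PQ n g)
    (hh : D.PQ m h) : D.PQ (n + m) (FD.rel finSumFinEquiv (tmul g h)) := by
  rw [PQ, cs_rel, cs_tmul]
  exact PP.rel D.hA D.mm _ (PP.tmul D.hA D.mm hg hh)

lemma cs_ctr {g : (Fin n ⊕ Fin m → Fin N) → K} {p : (Fin m → Fin N) → K} (hp : A m p) :
    D.cs (pdot g (act G.transpose p)) = ctr D.S (D.cs g) (D.cs p) := by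
  have h1 : mapT (φ K) (pdot g (act G.transpose p)) =
      pdot (mapT (φ K) g) (act (G.map (φ K)).transpose (mapT (φ K) p)) := by
    rw [← Matrix.transpose_map, ← mapT_act]
    funext I
    simp only [mapT_apply, pdot, map_sum, map_mul]
  have h2 := act_transpose_C D.S (D.hA.even (D.cs_mem hp))
  rw [cs, h1, ← D.hform, ctr, ← h2]
  have h3 : (D.M.transpose * D.S.C _ * D.M).transpose =
      D.M.transpose * ((D.S.C (AlgebraicClosure K)).transpose * D.M) := by
    rw [Matrix.transpose_mul, Matrix.transpose_mul, Matrix.transpose_transpose]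
  rw [h3, act_mul, ← pdot_act, act_mul]
  rfl

lemma PQ.ctr {g : (Fin (n + m) → Fin N) → K} {p : (Fin m → Fin N) → K} (hg : D.PQ (n + m) g)
    (hp : D.PQ m p) :
    D.PQ n (pdot (FD.rel finSumFinEquiv.symm g) (act G.transpose p)) := by
  rw [PQ, cs_ctr hp.mem]
  refine PP.ctr D.hA D.mm ?_ hp
  rw [cs_rel]
  exact PP.rel D.hA D.mm _ hg

lemma nt_iff {g : (Fin n → Fin N) → K} (hg : A n g) :
    NT D.S D.AA (Fin n) (D.cs g) ↔ ∀ h, A n h → dG G g h = 0 := by
  constructor
  · intro h d hd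
    have h1 := h.2 _ (D.cs_mem hd)
    rw [D.bp_cs] at h1
    exact (map_eq_zero _).1 h1
  · intro h
    refine ⟨D.cs_mem hg, fun a ha => ?_⟩
    obtain ⟨d, hd, rfl⟩ := D.exists_cs ha
    rw [D.bp_cs, h d hd, map_zero]

lemma PQ.nt {g : (Fin n → Fin N) → K} (hg : A n g) (h : ∀ h, A n h → dG G g h = 0) :
    D.PQ n g := PP.nt D.hA ((nt_iff hg).2 h)

lemma dG_rat (D : DN par G A) {g h : (Fin n → Fin N) → K} (hg : A n g) (hh : A n h) :
    ∃ q : ℚ, dG G g h = (q : K) := by
  obtain ⟨q, hq⟩ := D.hA.bp_rat (D.cs_mem hg) (D.cs_mem hh)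
  refine ⟨q, (φ K).injective ?_⟩
  rw [← D.bp_cs, hq]; simp

lemma dG_symm (D : DN par G A) {g h : (Fin n → Fin N) → K} (hg : A n g) :
    dG G g h = dG G h g := by
  apply (φ K).injective
  rw [← D.bp_cs, ← D.bp_cs]
  exact D.hA.symm (D.cs_mem hg)

/-- **Positivity.** -/
theorem PQ.pos {g : (Fin n → Fin N) → K} (hg : D.PQ n g) {q : ℚ} (hq : dG G g g = (q : K)) :
    0 ≤ q ∧ (q = 0 → ∀ h, A n h → dG G g h = 0) := by
  have h1 : bp D.S (D.cs g) (D.cs g) = (q : AlgebraicClosure K) := by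
    rw [D.bp_cs, hq]; simp
  have h2 := PP.pos D.hA D.mm hg h1
  exact ⟨h2.1, fun h => (nt_iff hg.mem).1 (h2.2 h)⟩

/-- A stable family of tensors on which the form is positive consists of positive tensors. Here
stability means that the family is the set of the values of an operator `T` on the system which is
a rational combination of permutations of the slots. -/
theorem stable {V : ((Fin n → Fin N) → K) → Prop} (hV : RatSub K V) (hVA : ∀ g, V g → A n g)
    (c : Equiv.Perm (Fin n) → ℚ)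
    (hT : ∀ g, A n g → V (∑ σ, (c σ : K) • FD.rel σ g))
    (hT' : ∀ g, V g → g = ∑ σ, (c σ : K) • FD.rel σ g)
    (hpos : ∀ g, V g → ∀ q : ℚ, dG G g g = (q : K) →
      0 ≤ q ∧ (q = 0 → ∀ h, A n h → dG G g h = 0)) : ∀ g, V g → D.PQ n g := by
  have h0 : ∀ a, (∃ g, V g ∧ a = D.cs g) → PP D.B D.x D.k (Fin n) a := by
    refine MM.stable D.hA D.mm (W := fun a => ∃ g, V g ∧ a = D.cs g) ⟨?_, ?_, ?_⟩ ?_ ?_ ?_
    · exact ⟨0, hV.zero, D.cs_zero.symm⟩
    · rintro _ _ ⟨g, hg, rfl⟩ ⟨h, hh, rfl⟩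
      exact ⟨g + h, hV.add hg hh, (D.cs_add g h).symm⟩
    · rintro q _ ⟨g, hg, rfl⟩
      exact ⟨(q : K) • g, hV.smul q hg, (D.cs_smul q g).symm⟩
    · rintro _ ⟨g, hg, rfl⟩
      exact D.cs_mem (hVA g hg)
    · rintro _ ⟨g, hg, rfl⟩
      -- the operator on complex tensors
      have hrho : ∀ g', A n g' → rho D.B D.x (Fin n) (D.cs (∑ σ, (c σ : K) • FD.rel σ g')) =
          ∑ σ, (c σ : ℂ) • FD.rel σ (rho D.B D.x (Fin n) (D.cs g')) := by
        intro g' hg'
        rw [cs_sum]
        have h1 : ∀ t : Finset (Equiv.Perm (Fin n)),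
            D.AA (Fin n) (∑ σ ∈ t, D.cs ((c σ : K) • FD.rel σ g')) ∧
            rho D.B D.x (Fin n) (∑ σ ∈ t, D.cs ((c σ : K) • FD.rel σ g')) =
              ∑ σ ∈ t, (c σ : ℂ) • FD.rel σ (rho D.B D.x (Fin n) (D.cs g')) := by
          intro t
          induction t using Finset.induction_on with
          | empty =>
            rw [Finset.sum_empty, Finset.sum_empty]
            exact ⟨(D.hA.sub _).zero, rho_nt D.hA (NT.zero D.hA)⟩
          | insert σ t hσ ih =>
            have h2 : D.AA (Fin n) (D.cs ((c σ : K) • FD.rel σ g')) :=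
              D.cs_mem ((D.hN.sub n).smul _ (D.hN.perm σ hg'))
            rw [Finset.sum_insert hσ, Finset.sum_insert hσ]
            refine ⟨(D.hA.sub _).add h2 ih.1, ?_⟩
            rw [rho_add D.hA h2 ih.1, ih.2, cs_smul, cs_rel,
              rho_smul D.hA (D.hA.rel _ (D.cs_mem hg')),
              rho_rel D.hA D.mm.model σ (D.cs_mem hg')]
            rfl
        exact (h1 Finset.univ).2
      have h2 : act D.k (rho D.B D.x (Fin n) (D.cs g)) =
          ∑ σ, (c σ : ℂ) • FD.rel σ (act D.k (rho D.B D.x (Fin n) (D.cs g))) := by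
        conv_lhs => rw [hT' g hg, hrho g (hVA g hg), act_sum]
        exact Finset.sum_congr rfl fun σ _ => by rw [act_smul, act_rel]
      rw [h2]
      refine Submodule.span_induction (p := fun u _ =>
        ∑ σ, (c σ : ℂ) • FD.rel σ u ∈ Submodule.span ℂ {f | ∃ b, (∃ g, V g ∧ b = D.cs g) ∧
          f = rho D.B D.x (Fin n) b}) ?_ ?_ ?_ ?_ (D.mm.k_mem D.hA (D.cs g))
      · rintro _ ⟨i, rfl⟩
        obtain ⟨g', hg', hg''⟩ := D.exists_cs (tk_mem D.hA (κ := Fin n) i)
        refine Submodule.subset_span ⟨_, ⟨_, hT g' hg', rfl⟩, ?_⟩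
        rw [hrho g' hg']
        have h3 := congrArg (rho D.B D.x (Fin n)) hg''
        rw [← h3]
      · have h3 : ∑ σ : Equiv.Perm (Fin n), (c σ : ℂ) •
            FD.rel σ (0 : (Fin n → Fin N) → ℂ) = 0 := by
          refine Finset.sum_eq_zero fun σ _ => ?_
          rw [rel_zero, smul_zero]
        rw [h3]; exact Submodule.zero_mem _
      · intro u w _ _ hu hw
        have h3 : ∑ σ : Equiv.Perm (Fin n), (c σ : ℂ) • FD.rel σ (u + w) =
            ∑ σ : Equiv.Perm (Fin n), (c σ : ℂ) • FD.rel σ u +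
              ∑ σ : Equiv.Perm (Fin n), (c σ : ℂ) • FD.rel σ w := by
          rw [← Finset.sum_add_distrib]
          exact Finset.sum_congr rfl fun σ _ => by rw [rel_add, smul_add]
        rw [h3]; exact Submodule.add_mem _ hu hw
      · intro r u _ hu
        have h3 : ∑ σ : Equiv.Perm (Fin n), (c σ : ℂ) • FD.rel σ (r • u) =
            r • ∑ σ : Equiv.Perm (Fin n), (c σ : ℂ) • FD.rel σ u := by
          rw [Finset.smul_sum]
          exact Finset.sum_congr rfl fun σ _ => by rw [rel_smul, smul_comm]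
        rw [h3]; exact Submodule.smul_mem _ _ hu
    · rintro _ ⟨g, hg, rfl⟩ q hq
      have h1 : dG G g g = (q : K) := by
        rw [D.bp_cs] at hq
        apply (φ K).injective
        rw [hq]; simp
      obtain ⟨h2, h3⟩ := hpos g hg q h1
      exact ⟨h2, fun h0 => (nt_iff (hVA g hg)).2 (h3 h0)⟩
  exact fun g hg => h0 _ ⟨g, hg, rfl⟩

end DN

end Pool.Agent.Y97.AB
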