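import Pool.Agent.Y97.AB.One
import Pool.Agent.Y97.AB.Dn
import Pool.Agent.Y97.FD.Geo5

/-!
# Products of classes of degree one
-/

set_option linter.unusedSectionVars false

open CategoryTheory AlgebraicGeometry Finset

universe u v

namespace Pool.Agent.Y97.AB

open Pool.Agent.H914 Pool.Agent.H914.VarClass Pool.Agent.H914.VarClass.Obj
  Pool.Agent.H914.WeilCohomology Pool.Agent.H281R3.HT Pool.Agent.W552 Pool.Agent.W539.Ker
  Pool.Agent.Y97.FD

variable {k : Type u} [Field k] {𝒱 : VarClass k} {ops : CycleOps 𝒱}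
  {W : WeilCohomology.{u, v} ops} {P : Polarized 𝒱} {Y : 𝒱.Obj}
  {f : Module.End W.K (W.H P.X)}

lemma sum_sumArrow' {κ κ' R M : Type*} [Fintype κ] [DecidableEq κ] [Fintype κ'] [DecidableEq κ']
    [Fintype R] [AddCommMonoid M] (F' : (κ ⊕ κ' → R) → M) :
    ∑ J, F' J = ∑ I : κ → R, ∑ I' : κ' → R, F' (Sum.elim I I') := by
  rw [← Fintype.sum_prod_type']
  exact (Fintype.sum_equiv (Equiv.sumArrowEquivProdArrow κ κ' R).symm _ _ (fun x => rfl)).symm

lemma sum_rel' {κ κ' R M : Type*} [Fintype κ] [DecidableEq κ] [Fintype κ'] [DecidableEq κ']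
    [Fintype R] [AddCommMonoid M] (e : κ ≃ κ') (F' : (κ' → R) → M) :
    ∑ J, F' J = ∑ I : κ → R, F' (fun s => I (e.symm s)) :=
  (Fintype.sum_equiv (Equiv.arrowCongr e (Equiv.refl R)) _ _ (fun x => rfl)).symm

lemma append_eq {n m : ℕ} {R : Type*} (x : Fin n → R) (y : Fin m → R) :
    (fun s => Sum.elim x y (finSumFinEquiv.symm s)) = Fin.append x y := by
  funext l
  refine Fin.addCases (fun i => ?_) (fun i => ?_) l
  · rw [finSumFinEquiv_symm_apply_castAdd, Fin.append_left]; rfl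
  · rw [finSumFinEquiv_symm_apply_natAdd, Fin.append_right]; rfl

lemma prod_mem_gr {n : ℕ} (v : Fin n → W.H Y) (hv : ∀ i, v i ∈ W.gr Y 1) :
    (List.ofFn v).prod ∈ W.gr Y n := by
  induction n with
  | zero => rw [List.ofFn_zero, List.prod_nil]; exact W.one_mem Y
  | succ n ih =>
    rw [List.ofFn_succ, List.prod_cons]
    have h := W.mul_mem (hv 0) (ih (fun i => v i.succ) (fun i => hv i.succ))
    rwa [add_comm 1 n] at h

/-- Products of classes of degree one are alternating. -/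
lemma prod_perm {n : ℕ} (v : Fin n → W.H Y) (hv : ∀ i, v i ∈ W.gr Y 1)
    (σ : Equiv.Perm (Fin n)) : (List.ofFn (v ∘ σ)).prod =
      ((Equiv.Perm.sign σ : ℤ) : W.K) • (List.ofFn v).prod := by
  have key : ∀ u : Fin n → W.gr Y 1, extHom W Y (ExteriorAlgebra.ιMulti W.K n u) =
      (List.ofFn fun i => (u i : W.H Y)).prod := by
    intro u
    rw [ExteriorAlgebra.ιMulti_apply, map_list_prod, List.map_ofFn]
    congr 2
    funext i
    rw [Function.comp_apply, extHom, ExteriorAlgebra.lift_ι_apply]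
    rfl
  have h1 := (ExteriorAlgebra.ιMulti W.K n).map_perm (fun i => (⟨v i, hv i⟩ : W.gr Y 1)) σ
  have h2 := congrArg (extHom W Y) h1
  have h3 : extHom W Y (Equiv.Perm.sign σ • ExteriorAlgebra.ιMulti W.K n
      (fun i => (⟨v i, hv i⟩ : W.gr Y 1))) = ((Equiv.Perm.sign σ : ℤ) : W.K) •
        extHom W Y (ExteriorAlgebra.ιMulti W.K n (fun i => (⟨v i, hv i⟩ : W.gr Y 1))) := by
    rcases Int.units_eq_one_or (Equiv.Perm.sign σ) with h | h <;> rw [h] <;> simp
  have h4 := key ((fun i => (⟨v i, hv i⟩ : W.gr Y 1)) ∘ ⇑σ)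
  have h5 := key (fun i => (⟨v i, hv i⟩ : W.gr Y 1))
  rw [h3, h4, h5] at h2
  exact h2

/-- The pull-back of a basis vector of degree one to a power. -/
noncomputable def ev (b : HB W P.X) (t : ℕ) (i : Fin (t + 1)) (a : Fin (N1 b)) :
    W.H (power ops P t).X := W.map (pr ops P t i) (e1 b a)

lemma ev_mem (b : HB W P.X) (t : ℕ) (i : Fin (t + 1)) (a : Fin (N1 b)) :
    ev (ops := ops) b t i a ∈ W.gr (power ops P t).X 1 := W.map_mem _ (e1_mem b a)

/-- The product of pull-backs of basis vectors of degree one. -/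
noncomputable def mon (b : HB W P.X) (t : ℕ) {n : ℕ} (φ : Fin n → Fin (t + 1))
    (x : Fin n → Fin (N1 b)) : W.H (power ops P t).X :=
  (List.ofFn fun l => ev (ops := ops) b t (φ l) (x l)).prod

lemma mon_mem (b : HB W P.X) (t : ℕ) {n : ℕ} (φ : Fin n → Fin (t + 1))
    (x : Fin n → Fin (N1 b)) : mon (ops := ops) b t φ x ∈ W.gr (power ops P t).X n :=
  prod_mem_gr _ (fun _ => ev_mem b t _ _)

lemma mon_zero (b : HB W P.X) (t : ℕ) (φ : Fin 0 → Fin (t + 1)) (x : Fin 0 → Fin (N1 b)) :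
    mon (ops := ops) b t φ x = 1 := by
  rw [mon, List.ofFn_zero, List.prod_nil]

lemma mon_perm (b : HB W P.X) (t : ℕ) {n : ℕ} (φ : Fin n → Fin (t + 1))
    (x : Fin n → Fin (N1 b)) (σ : Equiv.Perm (Fin n)) :
    mon (ops := ops) b t (φ ∘ σ) (x ∘ σ) = ((Equiv.Perm.sign σ : ℤ) : W.K) •
      mon (ops := ops) b t φ x :=
  prod_perm (fun l => ev (ops := ops) b t (φ l) (x l)) (fun _ => ev_mem b t _ _) σ

lemma mon_append (b : HB W P.X) (t : ℕ) {n m : ℕ} (φ : Fin n → Fin (t + 1))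
    (x : Fin n → Fin (N1 b)) (ψ : Fin m → Fin (t + 1)) (y : Fin m → Fin (N1 b)) :
    mon (ops := ops) b t φ x * mon (ops := ops) b t ψ y =
      mon (ops := ops) b t (Fin.append φ ψ) (Fin.append x y) := by
  have h1 : (fun l => ev (ops := ops) b t (Fin.append φ ψ l) (Fin.append x y l)) =
      Fin.append (fun l => ev (ops := ops) b t (φ l) (x l))
        (fun l => ev (ops := ops) b t (ψ l) (y l)) := by
    funext l
    refine Fin.addCases (fun i => ?_) (fun i => ?_) l
    · simp only [Fin.append_left]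
    · simp only [Fin.append_right]
  rw [mon, mon, mon, h1, List.ofFn_fin_append, List.prod_append]

/-- The class with given coefficients. -/
noncomputable def mm (b : HB W P.X) (t : ℕ) {n : ℕ} (φ : Fin n → Fin (t + 1))
    (g : (Fin n → Fin (N1 b)) → W.K) : W.H (power ops P t).X := ∑ x, g x • mon b t φ x

lemma mm_add (b : HB W P.X) (t : ℕ) {n : ℕ} (φ : Fin n → Fin (t + 1))
    (g h : (Fin n → Fin (N1 b)) → W.K) :
    mm (ops := ops) b t φ (g + h) = mm b t φ g + mm b t φ h := by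
  simp only [mm, Pi.add_apply, add_smul, Finset.sum_add_distrib]

lemma mm_smul (b : HB W P.X) (t : ℕ) {n : ℕ} (φ : Fin n → Fin (t + 1)) (r : W.K)
    (g : (Fin n → Fin (N1 b)) → W.K) :
    mm (ops := ops) b t φ (r • g) = r • mm b t φ g := by
  simp only [mm, Pi.smul_apply, smul_eq_mul, mul_smul, Finset.smul_sum]

lemma mm_zero (b : HB W P.X) (t : ℕ) {n : ℕ} (φ : Fin n → Fin (t + 1)) :
    mm (ops := ops) b t φ 0 = 0 := by
  simp [mm]

lemma mm_sum {ι : Type*} (b : HB W P.X) (t : ℕ) {n : ℕ} (φ : Fin n → Fin (t + 1))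
    (s : Finset ι) (g : ι → (Fin n → Fin (N1 b)) → W.K) :
    mm (ops := ops) b t φ (∑ i ∈ s, g i) = ∑ i ∈ s, mm b t φ (g i) := by
  classical
  induction s using Finset.induction_on with
  | empty => rw [Finset.sum_empty, Finset.sum_empty, mm_zero]
  | insert a s ha ih => rw [Finset.sum_insert ha, Finset.sum_insert ha, mm_add, ih]

lemma mm_mem (b : HB W P.X) (t : ℕ) {n : ℕ} (φ : Fin n → Fin (t + 1))
    (g : (Fin n → Fin (N1 b)) → W.K) : mm (ops := ops) b t φ g ∈ W.gr _ n :=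
  Submodule.sum_mem _ fun x _ => Submodule.smul_mem _ _ (mon_mem b t φ x)

lemma mm_single (b : HB W P.X) (t : ℕ) {n : ℕ} (φ : Fin n → Fin (t + 1))
    (x : Fin n → Fin (N1 b)) :
    mm (ops := ops) b t φ (Pi.single x 1) = mon b t φ x := by
  rw [mm, Finset.sum_eq_single x]
  · rw [Pi.single_eq_same, one_smul]
  · intro y _ hy
    rw [Pi.single_eq_of_ne hy, zero_smul]
  · intro h; exact absurd (Finset.mem_univ _) h

lemma sgn_sq {n : ℕ} (σ : Equiv.Perm (Fin n)) :
    ((Equiv.Perm.sign σ : ℤ) : W.K) * ((Equiv.Perm.sign σ : ℤ) : W.K) = 1 := by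
  rcases Int.units_eq_one_or (Equiv.Perm.sign σ) with h | h <;> rw [h] <;> simp

lemma mm_perm (b : HB W P.X) (t : ℕ) {n : ℕ} (φ : Fin n → Fin (t + 1))
    (g : (Fin n → Fin (N1 b)) → W.K) (σ : Equiv.Perm (Fin n)) :
    mm (ops := ops) b t φ (rel σ g) =
      ((Equiv.Perm.sign σ : ℤ) : W.K) • mm b t (φ ∘ σ) g := by
  have h0 : mm (ops := ops) b t (φ ∘ σ) g =
      ∑ x : Fin n → Fin (N1 b), g (x ∘ σ) • mon (ops := ops) b t (φ ∘ σ) (x ∘ σ) :=
    (Fintype.sum_equiv (σ.arrowCongr (Equiv.refl _)) (fun y : Fin n → Fin (N1 b) =>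
      g y • mon (ops := ops) b t (φ ∘ σ) y)
      (fun x => g (x ∘ σ) • mon (ops := ops) b t (φ ∘ σ) (x ∘ σ)) (fun y => by
        have h1 : (σ.arrowCongr (Equiv.refl (Fin (N1 b)))) y ∘ σ = y := by
          funext s; simp [Equiv.arrowCongr]
        rw [h1]))
  rw [mm, h0, Finset.smul_sum]
  refine Finset.sum_congr rfl fun x _ => ?_
  rw [mon_perm, smul_comm (g _), smul_smul, sgn_sq, one_smul]
  rfl

/-- Products. -/
lemma mm_mul (b : HB W P.X) (t : ℕ) {n m : ℕ} (φ : Fin n → Fin (t + 1))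
    (g : (Fin n → Fin (N1 b)) → W.K) (ψ : Fin m → Fin (t + 1))
    (h : (Fin m → Fin (N1 b)) → W.K) :
    mm (ops := ops) b t φ g * mm b t ψ h =
      mm b t (Fin.append φ ψ) (rel finSumFinEquiv (tmul g h)) := by
  rw [mm, mm, mm, Finset.sum_mul_sum, sum_rel' finSumFinEquiv, sum_sumArrow']
  refine Finset.sum_congr rfl fun x _ => Finset.sum_congr rfl fun y _ => ?_
  rw [smul_mul_smul_comm, mon_append, append_eq, rel_apply, tmul_apply]
  simp only [finSumFinEquiv_apply_left, finSumFinEquiv_apply_right, Fin.append_left,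
    Fin.append_right]

/-- The expansion of a product of sums. -/
lemma prod_sum_ofFn {A : Type*} [Ring A] [Algebra W.K A] {ι : Type*} [Fintype ι] {n : ℕ}
    (c : Fin n → ι → W.K) (v : Fin n → ι → A) :
    (List.ofFn fun l => ∑ j, c l j • v l j).prod =
      ∑ ψ : Fin n → ι, (∏ l, c l (ψ l)) • (List.ofFn fun l => v l (ψ l)).prod := by
  induction n with
  | zero => simp
  | succ n ih =>
    rw [List.ofFn_succ, List.prod_cons, ih, Finset.sum_mul_sum,
      ← (Fin.consEquiv (fun _ => ι)).sum_comp, Fintype.sum_prod_type]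
    refine Finset.sum_congr rfl fun i _ => Finset.sum_congr rfl fun ψ _ => ?_
    rw [List.ofFn_succ, List.prod_cons, Fin.prod_univ_succ, smul_mul_smul_comm]
    rfl

/-- The pull-back of a product of classes of degree one. -/
lemma map_mon (b : HB W P.X) {s t : ℕ} (h : (power ops P t).X ⟶ (power ops P s).X)
    (M : Fin (s + 1) → Fin (t + 1) → W.K)
    (hM : ∀ i, ∀ v ∈ W.gr P.X 1, W.map h (W.map (pr ops P s i) v) =
      ∑ j, M i j • W.map (pr ops P t j) v) {n : ℕ} (φ : Fin n → Fin (s + 1))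
    (x : Fin n → Fin (N1 b)) :
    W.map h (mon b s φ x) = ∑ ψ : Fin n → Fin (t + 1), (∏ l, M (φ l) (ψ l)) • mon b t ψ x := by
  rw [mon, map_list_prod, List.map_ofFn]
  have h1 : (⇑(W.map h) ∘ fun l => ev (ops := ops) b s (φ l) (x l)) =
      fun l => ∑ j, M (φ l) j • ev (ops := ops) b t j (x l) := by
    funext l
    exact hM (φ l) _ (e1_mem b (x l))
  rw [h1, prod_sum_ofFn (W := W)]
  rfl

/-- The pull-back of a class. -/
lemma map_mm (b : HB W P.X) {s t : ℕ} (h : (power ops P t).X ⟶ (power ops P s).X)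
    (M : Fin (s + 1) → Fin (t + 1) → W.K)
    (hM : ∀ i, ∀ v ∈ W.gr P.X 1, W.map h (W.map (pr ops P s i) v) =
      ∑ j, M i j • W.map (pr ops P t j) v) {n : ℕ} (φ : Fin n → Fin (s + 1))
    (g : (Fin n → Fin (N1 b)) → W.K) :
    W.map h (mm b s φ g) = ∑ ψ : Fin n → Fin (t + 1), (∏ l, M (φ l) (ψ l)) • mm b t ψ g := by
  rw [mm, map_sum]
  simp only [map_smul, map_mon b h M hM, mm, Finset.smul_sum]
  rw [Finset.sum_comm]
  refine Finset.sum_congr rfl fun ψ _ => Finset.sum_congr rfl fun x _ => ?_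
  rw [smul_comm]

/-- Products of classes of degree one are pull-backs of basis vectors. -/
lemma mon_eq (b : HB W P.X) (t : ℕ) {s : ℕ} (φ : Fin (s + 1) → Fin (t + 1))
    (x : Fin (s + 1) → Fin (N1 b)) :
    mon (ops := ops) b t φ x = W.map (cmap ops P φ) (vec b s (fun l => j1 b (x l))) := by
  rw [map_cmap_vec]
  have h : ∀ (s : ℕ) (g : Fin (s + 1) → ((power ops P t).X ⟶ P.X)) (y : Fin (s + 1) → Fin b.N),
      vG b s g y = (List.ofFn fun l => W.map (g l) (b.e (y l))).prod := by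
    intro s
    induction s with
    | zero => intro g y; simp [vG]
    | succ s ih =>
      intro g y
      conv_rhs => rw [List.ofFn_succ, List.prod_cons]
      rw [vG_succ, ih]
  rw [h]
  rfl

lemma mm_eq (b : HB W P.X) (t : ℕ) {s : ℕ} (φ : Fin (s + 1) → Fin (t + 1))
    (g : (Fin (s + 1) → Fin (N1 b)) → W.K) :
    mm (ops := ops) b t φ g = W.map (cmap ops P φ) (TT b s g) := by
  rw [TT, map_sum, mm]
  refine Finset.sum_congr rfl fun x _ => ?_
  rw [map_smul, mon_eq]

/-- The algebraic tensors give algebraic classes. -/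
lemma mm_as {b : HB W P.X} (hT : ∀ {s : ℕ} {g : (Fin (s + 1) → Fin (N1 b)) → W.K},
    A1 (ops := ops) b (s + 1) g → AS W _ (TT (ops := ops) b s g)) (t : ℕ) {n : ℕ}
    (φ : Fin n → Fin (t + 1)) {g : (Fin n → Fin (N1 b)) → W.K} (hg : A1 (ops := ops) b n g) :
    AS W _ (mm (ops := ops) b t φ g) := by
  rcases n with _ | s
  · obtain ⟨q, rfl⟩ := hg
    rw [mm, Fintype.sum_unique, mon_zero]
    exact AS.one.smul q
  · rw [mm_eq]
    exact (hT hg).map _

end Pool.Agent.Y97.AB
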