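import Pool.Agent.Y97.AB.RDefs
import Pool.Agent.Y97.AB.Mon

/-!
# Homogeneous bases of eigenvectors
-/

set_option linter.unusedSectionVars false

open CategoryTheory AlgebraicGeometry Finset

universe u v

namespace Pool.Agent.Y97.AB

open Pool.Agent.H914 Pool.Agent.H914.VarClass Pool.Agent.H914.VarClass.Obj
  Pool.Agent.H914.WeilCohomology Pool.Agent.H281R3.HT Pool.Agent.W552 Pool.Agent.W539.Ker
  Pool.Agent.Y97.FD

variable {k : Type u} [Field k] {𝒱 : VarClass k} {ops : CycleOps 𝒱}
  {W : WeilCohomology.{u, v} ops} {P : Polarized 𝒱}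

lemma frobP_pr (φ : P.X ⟶ P.X) (s : ℕ) (i : Fin (s + 1)) :
    frobP ops P φ s ≫ pr ops P s i = pr ops P s i ≫ φ := by
  induction s with
  | zero => exact (Category.comp_id φ).trans (Category.id_comp φ).symm
  | succ s ih =>
    refine Fin.cases ?_ (fun j => ?_) i
    · exact Obj.lift_fst _ _
    · have h1 : frobP ops P φ (s + 1) ≫ snd P.X (power ops P s).X =
          snd P.X (power ops P s).X ≫ frobP ops P φ s := Obj.lift_snd _ _
      have h2 : frobP ops P φ (s + 1) ≫ (snd P.X (power ops P s).X ≫ pr ops P s j) =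
          (frobP ops P φ (s + 1) ≫ snd P.X (power ops P s).X) ≫ pr ops P s j :=
        (Category.assoc _ _ _).symm
      refine h2.trans ((congrArg (· ≫ pr ops P s j) h1).trans ?_)
      refine (Category.assoc _ _ _).trans ?_
      refine (congrArg (snd P.X (power ops P s).X ≫ ·) (ih j)).trans ?_
      exact (Category.assoc _ _ _).symm

/-- A homogeneous basis whose elements of degree one are given. -/
theorem exists_HB_eig {N : ℕ} {e : Fin N → W.H P.X} (hli : LinearIndependent W.K e)
    (hsp : Submodule.span W.K (Set.range e) = W.gr P.X 1) :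
    ∃ (b : HB W P.X) (σ : Fin (N1 b) ≃ Fin N), ∀ a, e1 b a = e (σ a) := by
  classical
  have h := W.isInternal P.X
  let B0 : Module.Basis (Fin N) W.K (W.gr P.X 1) :=
    (Module.Basis.span hli).map (LinearEquiv.ofEq _ _ hsp)
  have hB0 : ∀ i, (B0 i : W.H P.X) = e i := by
    intro i
    change ((LinearEquiv.ofEq _ _ hsp (Module.Basis.span hli i) : W.gr P.X 1) : W.H P.X) = e i
    rw [LinearEquiv.coe_ofEq_apply]
    exact congrArg Subtype.val (Module.Basis.span_apply hli i)
  have hN : N = Module.finrank W.K (W.gr P.X 1) := by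
    rw [Module.finrank_eq_card_basis B0, Fintype.card_fin]
  let B1 : Module.Basis (Fin (Module.finrank W.K (W.gr P.X 1))) W.K (W.gr P.X 1) :=
    B0.reindex (finCongr hN)
  let v : ∀ i, Module.Basis (Fin (Module.finrank W.K (W.gr P.X i))) W.K (W.gr P.X i) :=
    Function.update (fun i => Module.finBasis W.K (W.gr P.X i)) 1 B1
  have hv : v 1 = B1 := by simp only [v, Function.update_self]
  let B := h.collectedBasis v
  have : Finite (Σ i, Fin (Module.finrank W.K (W.gr P.X i))) := Module.Finite.finite_basis B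
  have := Fintype.ofFinite (Σ i, Fin (Module.finrank W.K (W.gr P.X i)))
  let φ := Fintype.equivFin (Σ i, Fin (Module.finrank W.K (W.gr P.X i)))
  let b : HB W P.X := ⟨_, B.reindex φ, fun p => (φ.symm p).1, fun p => by
    rw [Module.Basis.reindex_apply]
    exact h.collectedBasis_mem v _⟩
  have hb : ∀ l : Fin (Module.finrank W.K (W.gr P.X 1)), b.e (φ ⟨1, l⟩) =
      e ((finCongr hN).symm l) := by
    intro l
    change (B.reindex φ) (φ ⟨1, l⟩) = _
    rw [Module.Basis.reindex_apply, Equiv.symm_apply_apply]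
    change h.collectedBasis v ⟨1, l⟩ = _
    rw [DirectSum.IsInternal.collectedBasis_coe]
    change ((v 1 l : W.gr P.X 1) : W.H P.X) = _
    rw [hv]
    change ((B0.reindex (finCongr hN) l : W.gr P.X 1) : W.H P.X) = _
    rw [Module.Basis.reindex_apply, hB0]
  have h1 : ∀ a : Fin (N1 b), ∃ i, e1 b a = e i := by
    intro a
    have h2 : (φ.symm (j1 b a)).1 = 1 := j1_dg b a
    obtain ⟨w, hw⟩ : ∃ w, w = φ.symm (j1 b a) := ⟨_, rfl⟩
    rw [← hw] at h2
    obtain ⟨i, l⟩ := w
    obtain rfl : i = 1 := h2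
    refine ⟨(finCongr hN).symm l, ?_⟩
    rw [← hb, hw, Equiv.apply_symm_apply]
    rfl
  choose τ hτ using h1
  have hinj : Function.Injective τ := by
    intro a a' h2
    have h3 : e1 b a = e1 b a' := by rw [hτ, hτ, h2]
    exact j1_inj b (b.e.injective h3)
  have hsurj : Function.Surjective τ := by
    intro i
    have h2 := hb ((finCongr hN) i)
    rw [Equiv.symm_apply_apply] at h2
    have h3 : b.dg (φ ⟨1, (finCongr hN) i⟩) = 1 := by
      change (φ.symm (φ ⟨1, (finCongr hN) i⟩)).1 = 1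
      rw [Equiv.symm_apply_apply]
    obtain ⟨a, ha⟩ := j1_surj b h3
    refine ⟨a, ?_⟩
    apply hli.injective
    rw [← hτ, ← h2, ← ha]
    rfl
  exact ⟨b, Equiv.ofBijective τ ⟨hinj, hsurj⟩, hτ⟩

section

variable {b : HB W P.X} {φ : P.X ⟶ P.X} {ρ : Fin (N1 b) → W.K}
  (hρ : ∀ a, W.map φ (e1 b a) = ρ a • e1 b a)

include hρ

lemma map_frobP_ev (s : ℕ) (i : Fin (s + 1)) (a : Fin (N1 b)) :
    W.map (frobP ops P φ s) (ev b s i a) = ρ a • ev b s i a := by
  rw [ev, ← W.map_comp, frobP_pr, W.map_comp, hρ, map_smul]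

lemma map_frobP_mon (s : ℕ) {n : ℕ} (ψ : Fin n → Fin (s + 1)) (x : Fin n → Fin (N1 b)) :
    W.map (frobP ops P φ s) (mon b s ψ x) = (∏ l, ρ (x l)) • mon b s ψ x := by
  have h : ∀ (n : ℕ) (v : Fin n → W.H (power ops P s).X) (c : Fin n → W.K),
      (List.ofFn fun l => c l • v l).prod = (∏ l, c l) • (List.ofFn v).prod := by
    intro n
    induction n with
    | zero => intro v c; simp
    | succ n ih =>
      intro v c
      rw [List.ofFn_succ, List.prod_cons, ih, Fin.prod_univ_succ, smul_mul_smul_comm,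
        List.ofFn_succ, List.prod_cons]
  rw [mon, map_list_prod, List.map_ofFn, ← h]
  congr 2
  funext l
  exact map_frobP_ev hρ s (ψ l) (x l)

lemma map_frobP_mm (s : ℕ) {n : ℕ} (ψ : Fin n → Fin (s + 1))
    (g : (Fin n → Fin (N1 b)) → W.K) :
    W.map (frobP ops P φ s) (mm b s ψ g) = mm b s ψ (fun x => (∏ l, ρ (x l)) * g x) := by
  rw [mm, map_sum, mm]
  refine Finset.sum_congr rfl fun x _ => ?_
  rw [map_smul, map_frobP_mon hρ, smul_smul, mul_comm]

end

end Pool.Agent.Y97.AB
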