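import Pool.Agent.Y97.AB.Mor
import Pool.Agent.Y97.AB.GDefs
import Pool.Agent.Y46.AB.TauA
import Pool.Agent.Y96.AB.B
import Pool.Agent.Y232.AB.Span
import Pool.Agent.Y46.FD.Pos
import Pool.Agent.Y97.FD.Geo6

/-!
# Generated classes on the powers of an abelian variety are positive
-/

set_option linter.unusedSectionVars false

open CategoryTheory AlgebraicGeometry Finset

universe u v

namespace Pool.Agent.Y97.AB

open Pool.Agent.H914 Pool.Agent.H914.VarClass Pool.Agent.H914.VarClass.Obj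
  Pool.Agent.H914.WeilCohomology Pool.Agent.H281R3.HT Pool.Agent.W552 Pool.Agent.W539.Ker
  Pool.Agent.Y97.FD

variable {k : Type u} [Field k] {𝒱 : VarClass k} {ops : CycleOps 𝒱}
  {W : WeilCohomology.{u, v} ops} {P : Polarized 𝒱} {Y : 𝒱.Obj}
  {f : Module.End W.K (W.H P.X)} {b : HB W P.X} {q : ℚ}

/-- The class of a numerically trivial cycle is orthogonal to the algebraic classes. -/
lemma bf_num' {X : 𝒱.Obj} {D : X.Cycles} {g : Module.End W.K (W.H X)} (G : Gp W X D g) {j : ℕ}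
    {z : X.Cycles} (hz : X.IsCyc j z)
    (h : ∀ w, X.IsCyc (X.dim - j) w → X.V.degCycle (ops.mul z w) = 0) {d : W.H X}
    (hd : AS W X d) : bf W X D g d (W.cl X z) = 0 := by
  rw [bf_symm_AS G.gd.sy d (AS.of ⟨z, hz, rfl⟩)]
  exact bf_num G.fr hz h hd

/-- **Generated classes have positive tensors.** -/
theorem Qc.gen (G : Gp W P.X P.D f) (H : Hy W P f b q) (hE : ∀ t, EX W P f b t)
    (hadj : ADJ W P f) (hG : ∀ i j, G1 b f j i = -(G1 b f i j))
    {D : DN (fun _ => true) (G1 b f) (A1 (ops := ops) b)} {m : ℕ} (h0 : PosAt W P f 0)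
    (hm : PosAt W P f m)
    (hfull : ∀ n, n ≤ max 2 (m + 1) → ∀ g, A1 (ops := ops) b n g → D.PQ n g)
    (hUU : UU W P f b) {t : ℕ} {c : W.H (power ops P t).X} (hc : GenA W P m t c) :
    Qc D t c ∧ AS W _ c := by
  have hfull2 := hfull 2 (le_max_left _ _)
  induction hc with
  | cyc hz => exact ⟨Qc.cyc G H hm (AS.of ⟨_, hz, rfl⟩), AS.of ⟨_, hz, rfl⟩⟩
  | low hj hz =>
    exact ⟨Qc.low G H (hfull _ hj) (AS.of ⟨_, hz, rfl⟩) (W.cl_mem hz), AS.of ⟨_, hz, rfl⟩⟩
  | @cmp s i j z hj hij hz =>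
    have h1 : Qc D s (sts W P f s (W.cl (power ops P s).X z)) := by
      refine Qc.low G H (hfull _ hj) ((gp_frm G s).fr.st_AS (AS.of ⟨_, hz, rfl⟩)) ?_
      have h2 := (gp_frm G s).fr.w_mem (by omega) (W.cl_mem hz)
      rw [show 2 * (power ops P s).X.dim - 2 * i = 2 * j by omega] at h2
      rw [sts, st_apply (W.cl_mem hz)]
      exact Submodule.smul_mem _ _ h2
    have h2 := Qc.star G H hE h0 h1
    rw [(gp_frm G s).gd.st_st_apply] at h2
    exact ⟨h2, AS.of ⟨_, hz, rfl⟩⟩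
  | @num s j z hz hn =>
    exact ⟨Qc.nt G H (AS.of ⟨_, hz, rfl⟩) (fun d hd => bf_num' (gp_frm G s) hz hn hd),
      AS.of ⟨_, hz, rfl⟩⟩
  | add _ _ ih ih' => exact ⟨ih.1.add ih'.1, ih.2.add ih'.2⟩
  | smul r _ ih => exact ⟨ih.1.smul r, ih.2.smul r⟩
  | mul _ _ ih ih' => exact ⟨Qc.mul G H (hE _) ih.1 ih'.1, ih.2.mul ih'.2⟩
  | pull h _ ih => exact ⟨Qc.pull' G H (hE _) hfull2 hUU h ih.1, ih.2.map h⟩
  | push h _ ih => exact ⟨Qc.push' G H hE h0 hadj hG hfull2 hUU h ih.1, ih.2.push h⟩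
  | spn a c hz _ hcl ih =>
    exact ⟨Qc.span H (fun i => (ih i).1) (AS.of ⟨_, hz, rfl⟩) hcl, AS.of ⟨_, hz, rfl⟩⟩

/-- **The theorem, in terms of the form.** -/
theorem main_pos' (G : Gp W P.X P.D f) (H : Hy W P f b q) (hE : ∀ t, EX W P f b t)
    (hadj : ADJ W P f) (hG : ∀ i j, G1 b f j i = -(G1 b f i j))
    {D : DN (fun _ => true) (G1 b f) (A1 (ops := ops) b)} {m : ℕ} (h0 : PosAt W P f 0)
    (hm : PosAt W P f m)
    (hfull : ∀ n, n ≤ max 2 (m + 1) → ∀ g, A1 (ops := ops) b n g → D.PQ n g)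
    (hUU : UU W P f b) {s n : ℕ}
    (hn : 2 * n ≤ (power ops P s).X.dim)
    {z : (power ops P s).X.Cycles} (hprim : Primitive W (power ops P s).X (power ops P s).D n z)
    (hgen : GenA W P m s (W.cl (power ops P s).X z))
    (hnt : ∃ w, (power ops P s).X.IsCyc ((power ops P s).X.dim - n) w ∧
      (power ops P s).X.V.degCycle (ops.mul z w) ≠ 0) :
    0 < pairing ops (power ops P s).X (power ops P s).D n z z := by
  have F := (gp_frm G s).fr
  have h1 : bfs W P f s (W.cl (power ops P s).X z) (W.cl (power ops P s).X z) =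
      (((((power ops P s).X.dim - 2 * n).factorial : ℚ)⁻¹ *
        pairing ops (power ops P s).X (power ops P s).D n z z : ℚ) : W.K) := by
    have h2 := F.form_prim hn hprim.1 hprim.2
    refine h2.trans ?_
    rw [pairing]
    congr 1
    ring
  have h2 := Qc.pos G H (hE s) (Qc.gen G H hE hadj hG h0 hm hfull hUU hgen).1
    (AS.of ⟨_, hprim.1, rfl⟩) (W.cl_mem hprim.1) h1
  have h3 : (0 : ℚ) < (((power ops P s).X.dim - 2 * n).factorial : ℚ)⁻¹ := by positivity
  have h4 : 0 ≤ pairing ops (power ops P s).X (power ops P s).D n z z :=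
    nonneg_of_mul_nonneg_right h2.1 h3
  refine lt_of_le_of_ne h4 (fun h5 => ?_)
  obtain ⟨w, hw, hw'⟩ := hnt
  have h6 := h2.2 (by rw [← h5, mul_zero]) _ (F.st_AS (AS.of ⟨w, hw, rfl⟩))
  have h7 : bf W (power ops P s).X (power ops P s).D (frm W P f s) (W.cl (power ops P s).X z)
      (st W (power ops P s).X (power ops P s).D (frm W P f s) (W.cl (power ops P s).X w)) = 0 :=
    h6
  rw [bf_apply, (gp_frm G s).gd.st_st_apply, ← W.cl_mul, W.tr_cl] at h7
  · exact hw' (by exact_mod_cast h7)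
  · have := ops.mul_mem hprim.1 hw
    rwa [show n + ((power ops P s).X.dim - n) = (power ops P s).X.dim by omega] at this

end Pool.Agent.Y97.AB
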