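import Pool.Agent.Y97.AB.Fin
import Pool.Agent.Y97.AB.Dec
import Pool.Agent.Y97.AB.Eig

/-!
# Tate classes
-/

set_option linter.unusedSectionVars false

open CategoryTheory AlgebraicGeometry Finset

universe u v

namespace Pool.Agent.Y97.AB

open Pool.Agent.H914 Pool.Agent.H914.VarClass Pool.Agent.H914.VarClass.Obj
  Pool.Agent.H914.WeilCohomology Pool.Agent.H281R3.HT Pool.Agent.W552 Pool.Agent.W539.Ker
  Pool.Agent.Y97.FD

variable {k : Type u} [Field k] {𝒱 : VarClass k} {ops : CycleOps 𝒱}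
  {W : WeilCohomology.{u, v} ops} {P : Polarized 𝒱} {f : Module.End W.K (W.H P.X)}
  {b : HB W P.X} {q : ℚ} {φ : P.X ⟶ P.X} {ρ : Fin (N1 b) → W.K} {p : ℕ}

/-- The endomorphism acts on the algebraic classes of one degree by a scalar. -/
lemma frob_proj {Y : 𝒱.Obj} {F : Y ⟶ Y} (hF : FrobLike W Y F p) {c : W.H Y} (hc : AS W Y c)
    (n : ℕ) : proj (W.isInternal Y) n c = 0 ∨ ∃ j, n = 2 * j ∧
      W.map F (proj (W.isInternal Y) n c) = (p : W.K) ^ j • proj (W.isInternal Y) n c := by
  rcases Nat.even_or_odd' n with ⟨j, rfl | rfl⟩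
  · right
    refine ⟨j, rfl, ?_⟩
    refine AS.ind (p := fun c => W.map F (proj (W.isInternal Y) (2 * j) c) =
      (p : W.K) ^ j • proj (W.isInternal Y) (2 * j) c) ?_ ?_ hc
    · intro i c hc
      by_cases hij : i = j
      · subst hij
        rw [proj_same _ (alg_gr hc)]
        obtain ⟨z, hz, rfl⟩ := hc
        exact hF i z hz
      · rw [proj_ne _ (alg_gr hc) (by omega), map_zero, smul_zero]
    · intro a a' ha ha'
      rw [map_add, map_add, ha, ha', smul_add]
  · left
    refine AS.ind (p := fun c => proj (W.isInternal Y) (2 * j + 1) c = 0) ?_ ?_ hc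
    · intro i c hc
      exact proj_ne _ (alg_gr hc) (by omega)
    · intro a a' ha ha'
      rw [map_add, ha, ha', add_zero]

lemma mm_id (s : ℕ) (g : (Fin (s + 1) → Fin (N1 b)) → W.K) :
    mm (ops := ops) b s id g = TT b s g := by
  rw [mm_eq, map_cmap_id b]

/-- The tensors of the system are supported on the relations. -/
theorem supp_rel (H : Hy W P f b q) (hρ : ∀ a, W.map φ (e1 b a) = ρ a • e1 b a)
    (hF : ∀ s, FrobLike W (power ops P s).X (frobP ops P φ s) p) {n : ℕ}
    {g : (Fin n → Fin (N1 b)) → W.K} (hg : A1 (ops := ops) b n g) {x : Fin n → Fin (N1 b)}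
    (hx : g x ≠ 0) : Rel p ρ x := by
  rcases n with _ | s
  · exact ⟨0, by simp, by simp⟩
  · have h1 := H.tt s g hg
    have h2 : TT (ops := ops) b s g ∈ W.gr _ (s + 1) := by
      rw [← mm_id]; exact mm_mem b s id g
    have h3 := frob_proj (hF s) h1 (s + 1)
    rw [proj_same _ h2] at h3
    rcases h3 with h3 | ⟨j, hj, h3⟩
    · exfalso
      apply hx
      rw [← Pool.Agent.Y710.AB.co_TT (ops := ops) b s g x, h3, co_zero]
      rfl
    · refine ⟨j, hj, ?_⟩
      have h4 : TT (ops := ops) b s (fun x => (∏ l, ρ (x l)) * g x) =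
          TT b s ((p : W.K) ^ j • g) := by
        rw [← mm_id, ← mm_id, ← map_frobP_mm hρ, mm_smul, mm_id]
        exact h3
      have h5 := congrArg (fun c => co b s c (fun l => j1 b (x l))) h4
      simp only [Pool.Agent.Y710.AB.co_TT, Pi.smul_apply, smul_eq_mul] at h5
      exact mul_right_cancel₀ hx h5

section Blocks

variable {D : DN (fun _ => true) (G1 b f) (A1 (ops := ops) b)}

/-- The tensors of a class which is a linear combination of algebraic classes. -/
lemma tau_span {t : ℕ} {n : ℕ} (ψ : Fin n → Fin (t + 1)) {V : Submodule W.K _}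
    {c : W.H (power ops P t).X} {j : ℕ}
    (hV : ∀ z, (power ops P t).X.IsCyc j z → tau (ops := ops) b f t ψ (W.cl _ z) ∈ V)
    (hc : c ∈ Submodule.span W.K {c | ∃ z, (power ops P t).X.IsCyc j z ∧ c = W.cl _ z}) :
    tau (ops := ops) b f t ψ c ∈ V := by
  induction hc using Submodule.span_induction with
  | mem c hc =>
    obtain ⟨z, hz, rfl⟩ := hc
    exact hV z hz
  | zero => rw [tau_zero]; exact Submodule.zero_mem _
  | add x y _ _ hx hy => rw [tau_add]; exact Submodule.add_mem _ hx hy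
  | smul a x _ hx => rw [tau_smul]; exact Submodule.smul_mem _ _ hx

/-- A relation gives a class on which the endomorphism acts as on algebraic classes. -/
lemma mon_tate (hρ : ∀ a, W.map φ (e1 b a) = ρ a • e1 b a) {t n : ℕ}
    (hT : ∀ j, TateIn W (power ops P t).X (frobP ops P φ t) p j) (ψ : Fin n → Fin (t + 1))
    {x : Fin n → Fin (N1 b)} (hx : Rel p ρ x) : ∃ j, 2 * j = n ∧
      mon b t ψ x ∈ Submodule.span W.K
        {c | ∃ z, (power ops P t).X.IsCyc j z ∧ c = W.cl (power ops P t).X z} := by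
  obtain ⟨j, hj, hj'⟩ := hx
  refine ⟨j, hj.symm, hT j _ (hj ▸ mon_mem b t ψ x) ?_⟩
  rw [map_frobP_mon hρ, hj']

lemma Ua_smul' {n : ℕ} (U : Fin n → Matrix (Fin (N1 b)) (Fin (N1 b)) W.K) (c : W.K)
    (g : (Fin n → Fin (N1 b)) → W.K) : Ua U (c • g) = c • Ua U g := by
  funext y
  simp only [Ua, Pi.smul_apply, smul_eq_mul, Finset.mul_sum]
  exact Finset.sum_congr rfl fun _ _ => by ring

lemma Ua_sum' {ι : Type*} {n : ℕ} (U : Fin n → Matrix (Fin (N1 b)) (Fin (N1 b)) W.K)
    (s : Finset ι) (g : ι → (Fin n → Fin (N1 b)) → W.K) :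
    Ua U (∑ i ∈ s, g i) = ∑ i ∈ s, Ua U (g i) := by
  funext y
  simp only [Ua, Finset.sum_apply, Finset.mul_sum]
  exact Finset.sum_comm

lemma ua_sg' {n : ℕ} (y z : Fin n → Fin (N1 b)) :
    Ua (fun l => Matrix.single (y l) (y l) (1 : W.K)) (DN.sg z) =
      if z = y then DN.sg y else 0 := by
  by_cases h : z = y
  · subst h
    rw [if_pos rfl, DN.ua_sg]
  · rw [if_neg h]
    funext w
    rw [Ua, Finset.sum_eq_single z]
    · rw [DN.sg_apply, if_pos rfl, mul_one]
      have h1 : ∃ l, z l ≠ y l := by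
        by_contra h2
        push Not at h2
        exact h (funext h2)
      obtain ⟨l, hl⟩ := h1
      refine Finset.prod_eq_zero (Finset.mem_univ l) ?_
      simp [Matrix.single, Ne.symm hl]
    · intro v _ hv
      rw [DN.sg_apply, if_neg hv, mul_zero]
    · intro h; exact absurd (Finset.mem_univ _) h

/-- The blocks. -/
theorem kp_block (G : Gp W P.X P.D f) (H : Hy W P f b q) {m : ℕ} (hm : PosAt W P f m)
    (hρ : ∀ a, W.map φ (e1 b a) = ρ a • e1 b a)
    (hT : ∀ j, TateIn W (power ops P m).X (frobP ops P φ m) p j)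
    (hfull : ∀ g, A1 (ops := ops) b 2 g → D.PQ 2 g)
    (hE : ∀ i, Matrix.single i i (1 : W.K) ∈ KU (G1 b f) (A1 (ops := ops) b))
    {r : ℕ} (a : Fin r → Fin (m + 1)) (y : Fin r → Fin (N1 b))
    (hinj : ∀ l l', a l = a l' → y l = y l' → l = l') (hy : Rel p ρ y) :
    (DN.sg y : (Fin r → Fin (N1 b)) → W.K) ∈ D.KP r := by
  obtain ⟨j, -, hc⟩ := mon_tate hρ hT a hy
  have h1 : tau (ops := ops) b f m a (mon b m a y) ∈ D.KP r :=
    tau_span a (fun z hz => DN.KP.of (pq_cyc G H D hm a (AS.of ⟨z, hz, rfl⟩))) hc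
  rw [← mm_single, tau_mm_self G H] at h1
  have h2 := DN.KP.ua hfull (fun l => Matrix.single (y l) (y l) (1 : W.K)) (fun l => hE _) h1
  have h3 : ∀ σ : Equiv.Perm (Fin r), Ua (fun l => Matrix.single (y l) (y l) (1 : W.K))
      ((cf a σ : W.K) • FD.rel σ (Pi.single y (1 : W.K))) =
      if σ = 1 then (cf a 1 : W.K) • (DN.sg y : (Fin r → Fin (N1 b)) → W.K) else 0 := by
    intro σ
    have h4 : FD.rel σ (Pi.single y (1 : W.K)) =
        (DN.sg (y ∘ σ.symm) : (Fin r → Fin (N1 b)) → W.K) := DN.rel_sg σ y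
    rw [Ua_smul', h4, ua_sg']
    by_cases hσ : σ = 1
    · subst hσ
      have e5 : y ∘ ⇑(Equiv.symm (1 : Equiv.Perm (Fin r))) = y := rfl
      rw [if_pos e5, if_pos rfl]
    · rw [if_neg hσ]
      by_cases h5 : y ∘ σ.symm = y
      · have h6 : a ∘ σ ≠ a := by
          intro h6
          apply hσ
          ext l
          have h7 := congrFun h6 l
          have h8 := congrFun h5 (σ l)
          rw [Function.comp_apply, Equiv.symm_apply_apply] at h8
          exact congrArg Fin.val (hinj _ _ h7 h8.symm)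
        rw [cf, if_neg h6, Rat.cast_zero, zero_smul]
      · rw [if_neg h5, smul_zero]
  rw [Ua_smul', alt, Ua_sum', Finset.sum_congr rfl fun σ _ => h3 σ, Finset.sum_ite_eq',
    if_pos (Finset.mem_univ _), smul_smul] at h2
  have h6 : (0 : ℚ) < q ^ (m + 1) * (Sb a).card := mul_pos (pow_pos H.hq _) (Sb_pos a)
  have h7 : cf a 1 ≠ 0 := by
    have e6 : a ∘ ⇑(1 : Equiv.Perm (Fin r)) = a := rfl
    rw [cf, if_pos e6, Equiv.Perm.sign_one]
    have := (Sb_pos a).ne'
    simp only [Units.val_one, Int.cast_one]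
    exact div_ne_zero one_ne_zero this
  have h8 : ((q ^ (m + 1) * (Sb a).card : ℚ) : W.K) * (cf a 1 : W.K) ≠ 0 := by
    rw [← Rat.cast_mul]
    exact_mod_cast mul_ne_zero h6.ne' h7
  have h9 := Submodule.smul_mem _ (((q ^ (m + 1) * (Sb a).card : ℚ) : W.K) * (cf a 1 : W.K))⁻¹ h2
  rwa [smul_smul, inv_mul_cancel₀ h8, one_smul] at h9

/-- The tensors in two slots supported on one relation are linear combinations of tensors of the
system. -/
theorem two_span (G : Gp W P.X P.D f) (H : Hy W P f b q)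
    (hρ : ∀ a, W.map φ (e1 b a) = ρ a • e1 b a)
    (hT : TateIn W (power ops P 1).X (frobP ops P φ 1) p 1) {y : Fin 2 → Fin (N1 b)}
    (hy : Rel p ρ y) :
    (DN.sg y : (Fin 2 → Fin (N1 b)) → W.K) ∈
      Submodule.span W.K {g | A1 (ops := ops) b 2 g} := by
  obtain ⟨j, hj, hj'⟩ := hy
  obtain rfl : j = 1 := by omega
  have hc := hT (mon b 1 id y) (mon_mem b 1 id y) (by rw [map_frobP_mon hρ, hj'])
  have h1 : tau (ops := ops) b f 1 id (mon b 1 id y) ∈
      Submodule.span W.K {g | A1 (ops := ops) b 2 g} :=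
    tau_span id (fun z hz => Submodule.subset_span (H.a1 1 2 id _ (AS.of ⟨z, hz, rfl⟩))) hc
  have h0 : Sb (id : Fin 2 → Fin 2) = {1} := by
    ext σ
    rw [mem_Sb, Finset.mem_singleton]
    constructor
    · intro h
      ext i
      exact congrArg Fin.val (congrFun h i)
    · rintro rfl; rfl
  have h4 := alt_eq' (W := W) (b := b) (id : Fin 2 → Fin 2) (Pi.single y (1 : W.K))
  rw [h0, Finset.card_singleton, Nat.cast_one, one_smul, Finset.sum_singleton,
    Equiv.Perm.sign_one] at h4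
  rw [← mm_single, tau_mm_self G H, h4, h0, Finset.card_singleton, Nat.cast_one, mul_one] at h1
  have h5 : FD.rel (1 : Equiv.Perm (Fin 2)) (Pi.single y (1 : W.K)) =
      (DN.sg y : (Fin 2 → Fin (N1 b)) → W.K) := rfl
  rw [h5] at h1
  have h6 : ((q ^ 2 : ℚ) : W.K) ≠ 0 := by exact_mod_cast pow_ne_zero 2 H.hq.ne'
  have h7 := Submodule.smul_mem _ ((q ^ 2 : ℚ) : W.K)⁻¹ h1
  rw [smul_smul, inv_mul_cancel₀ h6, one_smul] at h7
  simpa using h7

/-- The inverse matrix of the form. -/
lemma exists_cu (H : Hy W P f b q)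
    (hN : ClosedN (fun _ => true) (G1 b f) (A1 (ops := ops) b))
    (hG : ∀ i j, G1 b f j i = -(G1 b f i j)) : ∃ Cu : Matrix (Fin (N1 b)) (Fin (N1 b)) W.K,
    A1 (ops := ops) b 2 (fun I => Cu (I 0) (I 1)) ∧ Cu * G1 b f = -1 := by
  obtain ⟨Cu, hCu, hCA⟩ := hN.cup true
  refine ⟨Cu, hCA, ?_⟩
  have hGt := G1_transpose hG
  have h1 : (G1 b f).transpose * Cu * G1 b f = G1 b f := by
    ext k l
    have := hCu k l
    rwa [if_pos rfl] at this
  have hu : IsUnit (G1 b f) := (Matrix.isUnit_iff_isUnit_det _).2 (isUnit_iff_ne_zero.2 H.det)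
  have h3 : G1 b f * (Cu * G1 b f) = G1 b f * (-1) := by
    rw [hGt, Matrix.neg_mul, Matrix.neg_mul] at h1
    rw [← Matrix.mul_assoc, Matrix.mul_neg, Matrix.mul_one, ← neg_eq_iff_eq_neg]
    exact h1
  exact hu.mul_left_cancel h3

/-- The eigenvalues of dual vectors. -/
theorem eig_dual (H : Hy W P f b q) (hp : (p : W.K) ≠ 0)
    (hN : ClosedN (fun _ => true) (G1 b f) (A1 (ops := ops) b))
    (hG : ∀ i j, G1 b f j i = -(G1 b f i j))
    (hρ : ∀ a, W.map φ (e1 b a) = ρ a • e1 b a)
    (hF : ∀ s, FrobLike W (power ops P s).X (frobP ops P φ s) p) {i j : Fin (N1 b)}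
    (hij : G1 b f i j ≠ 0) : ρ i * ρ j = p := by
  obtain ⟨Cu, hCA, hCG⟩ := exists_cu H hN hG
  have hGC : G1 b f * Cu = -1 := by
    have h1 : -Cu * G1 b f = 1 := by rw [Matrix.neg_mul, hCG, neg_neg]
    have h2 := mul_eq_one_comm.1 h1
    rw [Matrix.mul_neg] at h2
    rw [← h2, neg_neg]
  set R : Matrix (Fin (N1 b)) (Fin (N1 b)) W.K := Matrix.diagonal ρ with hR
  have h1 : R * Cu * R = (p : W.K) • Cu := by
    ext k l
    rw [hR, Matrix.mul_diagonal, Matrix.diagonal_mul, Matrix.smul_apply, smul_eq_mul]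
    by_cases h : Cu k l = 0
    · rw [h]; ring
    · obtain ⟨t, ht, ht'⟩ := supp_rel (p := p) (x := ![k, l]) H hρ hF hCA h
      obtain rfl : t = 1 := by omega
      rw [Fin.prod_univ_two, pow_one] at ht'
      have h2 : ρ k * ρ l = (p : W.K) := ht'
      rw [← h2]; ring
  have h2 : (R * Cu) * (R * G1 b f) = -((p : W.K) • (1 : Matrix _ _ W.K)) := by
    rw [← Matrix.mul_assoc, h1, Matrix.smul_mul, hCG, smul_neg]
  have h3 : (-((p : W.K)⁻¹ • (R * Cu))) * (R * G1 b f) = 1 := by
    rw [Matrix.neg_mul, Matrix.smul_mul, h2, smul_neg, smul_smul, inv_mul_cancel₀ hp, one_smul,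
      neg_neg]
  have h4 := mul_eq_one_comm.1 h3
  rw [Matrix.mul_neg, Matrix.mul_smul] at h4
  have h5 : R * G1 b f * (R * Cu) = -((p : W.K) • (1 : Matrix _ _ W.K)) := by
    have h6 := congrArg (fun M => -((p : W.K) • M)) h4
    beta_reduce at h6
    rw [smul_neg, neg_neg, smul_smul, mul_inv_cancel₀ hp, one_smul] at h6
    exact h6
  have h7 : R * G1 b f * R = (p : W.K) • G1 b f := by
    have h8 := congrArg (fun M => M * G1 b f) h5
    beta_reduce at h8
    rw [Matrix.mul_assoc, Matrix.mul_assoc R Cu, hCG, Matrix.mul_neg, Matrix.mul_one,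
      Matrix.mul_neg, Matrix.neg_mul, Matrix.smul_mul, Matrix.one_mul, neg_inj] at h8
    exact h8
  have h9 := congrFun (congrFun h7 i) j
  rw [hR, Matrix.mul_diagonal, Matrix.diagonal_mul, Matrix.smul_apply, smul_eq_mul] at h9
  have h10 : (ρ i * ρ j) * G1 b f i j = p * G1 b f i j := by rw [← h9]; ring
  exact mul_right_cancel₀ hij h10

/-- The elementary matrices between vectors with the same eigenvalue. -/
theorem single_ku (G : Gp W P.X P.D f) (H : Hy W P f b q)
    (hN : ClosedN (fun _ => true) (G1 b f) (A1 (ops := ops) b))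
    (hG : ∀ i j, G1 b f j i = -(G1 b f i j))
    (hρ : ∀ a, W.map φ (e1 b a) = ρ a • e1 b a)
    (hF : ∀ s, FrobLike W (power ops P s).X (frobP ops P φ s) p)
    (hT : TateIn W (power ops P 1).X (frobP ops P φ 1) p 1) {i j : Fin (N1 b)}
    (hij : ρ i = ρ j) : Matrix.single i j (1 : W.K) ∈ KU (G1 b f) (A1 (ops := ops) b) := by
  obtain ⟨Cu, hCA, h2⟩ := exists_cu H hN hG
  -- the tensor
  have h3 : (fun I : Fin 2 → Fin (N1 b) => (Matrix.single i j (1 : W.K) * Cu) (I 0) (I 1)) ∈
      Submodule.span W.K {g | A1 (ops := ops) b 2 g} := by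
    have h4 : (fun I : Fin 2 → Fin (N1 b) => (Matrix.single i j (1 : W.K) * Cu) (I 0) (I 1)) =
        ∑ z, Cu j z • (DN.sg ![i, z] : (Fin 2 → Fin (N1 b)) → W.K) := by
      funext I
      rw [Finset.sum_apply]
      by_cases h5 : I 0 = i
      · rw [Finset.sum_eq_single (I 1)]
        · rw [Pi.smul_apply, DN.sg_apply, if_pos, smul_eq_mul, mul_one, h5]
          · simp
          · funext l
            refine Fin.cases ?_ (fun l => ?_) l
            · exact h5
            · obtain rfl : l = 0 := Fin.eq_zero l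
              rfl
        · intro z _ hz
          rw [Pi.smul_apply, DN.sg_apply, if_neg, smul_zero]
          intro h6
          apply hz
          rw [h6]; rfl
        · intro h; exact absurd (Finset.mem_univ _) h
      · rw [Finset.sum_eq_zero]
        · simp [Matrix.mul_apply, Matrix.single, Ne.symm h5]
        · intro z _
          rw [Pi.smul_apply, DN.sg_apply, if_neg, smul_zero]
          intro h6
          apply h5
          rw [h6]; rfl
    rw [h4]
    refine Submodule.sum_mem _ fun z _ => ?_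
    by_cases hz : Cu j z = 0
    · rw [hz, zero_smul]; exact Submodule.zero_mem _
    · refine Submodule.smul_mem _ _ (two_span G H hρ hT ?_)
      obtain ⟨l, hl, hl'⟩ := supp_rel (p := p) (x := ![j, z]) H hρ hF hCA hz
      refine ⟨l, hl, ?_⟩
      rw [Fin.prod_univ_two] at hl' ⊢
      exact (congrArg (· * ρ z) hij).trans hl'
  have h4 : ∀ g : (Fin 2 → Fin (N1 b)) → W.K,
      g ∈ Submodule.span W.K {g | A1 (ops := ops) b 2 g} →
      Matrix.of (fun x y => g ![x, y]) * G1 b f ∈ KU (G1 b f) (A1 (ops := ops) b) := by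
    intro g hg
    induction hg using Submodule.span_induction with
    | mem g hg => exact Submodule.subset_span ⟨g, hg, rfl⟩
    | zero =>
      have : Matrix.of (fun x y => (0 : (Fin 2 → Fin (N1 b)) → W.K) ![x, y]) = 0 := rfl
      rw [this, Matrix.zero_mul]; exact Submodule.zero_mem _
    | add x y _ _ hx hy =>
      have : Matrix.of (fun a c => (x + y) ![a, c]) = Matrix.of (fun a c => x ![a, c]) +
        Matrix.of (fun a c => y ![a, c]) := rfl
      rw [this, Matrix.add_mul]; exact Submodule.add_mem _ hx hy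
    | smul r x _ hx =>
      have : Matrix.of (fun a c => (r • x) ![a, c]) = r • Matrix.of (fun a c => x ![a, c]) := rfl
      rw [this, Matrix.smul_mul]; exact Submodule.smul_mem _ _ hx
  have h5 := h4 _ h3
  have h6 : Matrix.of (fun x y => (fun I : Fin 2 → Fin (N1 b) =>
      (Matrix.single i j (1 : W.K) * Cu) (I 0) (I 1)) ![x, y]) =
      Matrix.single i j (1 : W.K) * Cu := rfl
  rw [h6, Matrix.mul_assoc, h2, Matrix.mul_neg, Matrix.mul_one] at h5
  have h7 := Submodule.neg_mem _ h5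
  rwa [neg_neg] at h7

/-- **All the tensors of the system are positive.** -/
theorem all_pq (G : Gp W P.X P.D f) (H : Hy W P f b q) {m : ℕ} (hm : PosAt W P f m)
    (hp : (p : W.K) ≠ 0) (hG : ∀ i j, G1 b f j i = -(G1 b f i j))
    (hρ : ∀ a, W.map φ (e1 b a) = ρ a • e1 b a)
    (hF : ∀ s, FrobLike W (power ops P s).X (frobP ops P φ s) p)
    (hT1 : TateIn W (power ops P 1).X (frobP ops P φ 1) p 1)
    (hT : ∀ j, TateIn W (power ops P m).X (frobP ops P φ m) p j)
    (hfull : ∀ g, A1 (ops := ops) b 2 g → D.PQ 2 g) (hR : RelGen p ρ m) (n : ℕ)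
    (g : (Fin n → Fin (N1 b)) → W.K) (hg : A1 (ops := ops) b n g) : D.PQ n g := by
  have hE : ∀ i j, ρ i = ρ j → Matrix.single i j (1 : W.K) ∈ KU (G1 b f) (A1 (ops := ops) b) :=
    fun i j hij => single_ku G H D.hN hG hρ hF hT1 hij
  obtain ⟨τ, hτ⟩ := DN.exists_dual H.det
  refine DN.KP.supp hg fun x hx => ?_
  exact DN.KP.rel_mem hfull hp hE τ.injective hτ
    (fun i => by rw [mul_comm]; exact eig_dual H hp D.hN hG hρ hF (hτ i))
    (fun r a y hinj hy => kp_block G H hm hρ hT hfull (fun i => hE i i rfl) a y hinj hy) hR n x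
    (supp_rel H hρ hF hg hx)

end Blocks

end Pool.Agent.Y97.AB
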