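import Pool.Agent.Y97.AB.Dn

/-!
# Linear combinations of positive tensors with arbitrary coefficients
-/

set_option linter.unusedSectionVars false

open Finset

universe v

namespace Pool.Agent.Y97.AB

open Pool.Agent.W552 Pool.Agent.Y97 Pool.Agent.Y97.FD

variable {N : ℕ} {K : Type v} [Field K] [CharZero K] {par : Fin N → Bool}
  {G : Matrix (Fin N) (Fin N) K} {A : ∀ n : ℕ, ((Fin n → Fin N) → K) → Prop}

namespace DN

/-- A tensor of the system which is a linear combination of positive tensors, with coefficients in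
`K`, is positive. -/
theorem PQ.span' (D : DN par G A) {n : ℕ} : ∀ (r : ℕ) (a : Fin r → K)
    (c : Fin r → (Fin n → Fin N) → K) (e g : (Fin n → Fin N) → K), (∀ i, D.PQ n (c i)) →
    (∀ h, A n h → dG G h e = 0) → A n g → g = ∑ i, a i • c i + e → D.PQ n g := by
  intro r
  induction r with
  | zero =>
    intro a c e g _ he hg h
    rw [Fin.sum_univ_zero, zero_add] at h
    subst h
    refine PQ.nt hg fun h hh => ?_
    rw [D.dG_symm hg]
    exact he h hh
  | succ r ih =>
    intro a c e g hc he hg h
    have h0 : A n (c 0) := (hc 0).mem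
    obtain ⟨ρ, hρ⟩ := D.dG_rat h0 h0
    by_cases hρ0 : ρ = 0
    · have h1 := ((hc 0).pos hρ).2 hρ0
      refine ih (fun i => a i.succ) (fun i => c i.succ) (a 0 • c 0 + e) g
        (fun i => hc i.succ) (fun h hh => ?_) hg ?_
      · rw [dG_add, dG_smul, D.dG_symm hh, h1 h hh, he h hh, mul_zero, add_zero]
      · rw [h, Fin.sum_univ_succ]; abel
    · have hρK : (ρ : K) ≠ 0 := by exact_mod_cast hρ0
      have h1 : ∀ g, A n g → ∃ s : ℚ, dG G (c 0) g = (s : K) := fun g hg => D.dG_rat h0 hg
      choose! s hs using h1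
      -- orthogonal components
      have h2 : ∀ g, A n g → dG G (c 0) (g + ((-(s g / ρ) : ℚ) : K) • c 0) = 0 := by
        intro g hg
        rw [dG_add, dG_smul, hs g hg, hρ, ← Rat.cast_mul, ← Rat.cast_add]
        have : s g + -(s g / ρ) * ρ = 0 := by field_simp; ring
        rw [this, Rat.cast_zero]
      have hg' : A n (g + ((-(s g / ρ) : ℚ) : K) • c 0) :=
        (D.hN.sub n).add hg ((D.hN.sub n).smul _ h0)
      have hci : ∀ i : Fin r, A n (c i.succ) := fun i => (hc i.succ).mem
      set a' : K := a 0 + ((-(s g / ρ) : ℚ) : K) +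
        ∑ i : Fin r, a i.succ * ((s (c i.succ) / ρ : ℚ) : K) with ha'
      have h3 : g + ((-(s g / ρ) : ℚ) : K) • c 0 = ∑ i : Fin r, a i.succ •
          (c i.succ + ((-(s (c i.succ) / ρ) : ℚ) : K) • c 0) + (a' • c 0 + e) := by
        have h4 : ∑ i : Fin r, a i.succ • (c i.succ + ((-(s (c i.succ) / ρ) : ℚ) : K) • c 0) =
            ∑ i : Fin r, a i.succ • c i.succ -
              (∑ i : Fin r, a i.succ * ((s (c i.succ) / ρ : ℚ) : K)) • c 0 := by
          rw [Finset.sum_smul, ← Finset.sum_sub_distrib]
          refine Finset.sum_congr rfl fun i _ => ?_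
          push_cast
          module
        rw [h4, ha']
        generalize s g = sg
        rw [h, Fin.sum_univ_succ]
        module
      have h4 : a' = 0 := by
        have h5 := congrArg (dG G (c 0)) h3
        rw [h2 g hg, dG_add, dG_sum, dG_add, dG_smul, hρ, he _ h0, add_zero,
          Finset.sum_eq_zero (fun i _ => by
            rw [dG_smul, h2 _ (hci i), mul_zero]), zero_add] at h5
        exact (mul_eq_zero.1 h5.symm).resolve_right hρK
      rw [h4, zero_smul, zero_add] at h3
      have h5 := ih (fun i => a i.succ)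
        (fun i => c i.succ + ((-(s (c i.succ) / ρ) : ℚ) : K) • c 0) e _
        (fun i => (hc i.succ).add ((hc 0).smul _)) he hg' h3
      have h6 := h5.add ((hc 0).smul (s g / ρ))
      have h7 : g + ((-(s g / ρ) : ℚ) : K) • c 0 + ((s g / ρ : ℚ) : K) • c 0 = g := by
        push_cast
        module
      rwa [h7] at h6

theorem PQ.span (D : DN par G A) {n r : ℕ} {a : Fin r → K}
    {c : Fin r → (Fin n → Fin N) → K} {g : (Fin n → Fin N) → K} (hc : ∀ i, D.PQ n (c i))
    (hg : A n g) (h : g = ∑ i, a i • c i) : D.PQ n g :=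
  PQ.span' D r a c 0 g hc (fun h _ => dG_zero G h) hg (by rw [h, add_zero])

end DN

end Pool.Agent.Y97.AB
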