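import Pool.Agent.Y97.AB.Ua
import Pool.Agent.Y97.AB.Spn

/-!
# Linear combinations of positive tensors
-/

set_option linter.unusedSectionVars false

open Finset

universe v

namespace Pool.Agent.Y97.AB

open Pool.Agent.W552 Pool.Agent.Y97 Pool.Agent.Y97.FD

variable {N : ℕ} {K : Type v} [Field K] [CharZero K]
  {G : Matrix (Fin N) (Fin N) K} {A : ∀ n : ℕ, ((Fin n → Fin N) → K) → Prop}

/-- The linear combinations of the matrices given by the tensors of the system. -/
def KU (G : Matrix (Fin N) (Fin N) K) (A : ∀ n : ℕ, ((Fin n → Fin N) → K) → Prop) :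
    Submodule K (Matrix (Fin N) (Fin N) K) := Submodule.span K {u | UW G A u}

namespace DN

variable (D : DN (fun _ => true) G A)

/-- The linear combinations of the positive tensors. -/
def KP (n : ℕ) : Submodule K ((Fin n → Fin N) → K) := Submodule.span K {g | D.PQ n g}

variable {D} {n m : ℕ}

lemma KP.of {g : (Fin n → Fin N) → K} (h : D.PQ n g) : g ∈ D.KP n := Submodule.subset_span h

lemma KP.rel {g : (Fin n → Fin N) → K} (h : g ∈ D.KP n) (e : Fin n ≃ Fin m) :
    FD.rel e g ∈ D.KP m := by
  induction h using Submodule.span_induction with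
  | mem g hg => exact KP.of (hg.rel e)
  | zero => rw [rel_zero]; exact Submodule.zero_mem _
  | add x y _ _ hx hy => rw [rel_add]; exact Submodule.add_mem _ hx hy
  | smul a x _ hx => rw [rel_smul]; exact Submodule.smul_mem _ _ hx

lemma KP.tm {g : (Fin n → Fin N) → K} {h : (Fin m → Fin N) → K} (hg : g ∈ D.KP n)
    (hh : h ∈ D.KP m) : FD.rel finSumFinEquiv (tmul g h) ∈ D.KP (n + m) := by
  induction hg using Submodule.span_induction with
  | mem g hg =>
    induction hh using Submodule.span_induction with
    | mem h hh => exact KP.of (DN.PQ.tm hg hh)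
    | zero => rw [tmul_zero, rel_zero]; exact Submodule.zero_mem _
    | add x y _ _ hx hy => rw [tmul_add, rel_add]; exact Submodule.add_mem _ hx hy
    | smul a x _ hx => rw [tmul_smul, rel_smul]; exact Submodule.smul_mem _ _ hx
  | zero => rw [zero_tmul, rel_zero]; exact Submodule.zero_mem _
  | add x y _ _ hx hy => rw [add_tmul, rel_add]; exact Submodule.add_mem _ hx hy
  | smul a x _ hx => rw [smul_tmul, rel_smul]; exact Submodule.smul_mem _ _ hx

lemma KP.single (hfull : ∀ g, A 2 g → D.PQ 2 g) (l : Fin n)
    {u : Matrix (Fin N) (Fin N) K} (hu : u ∈ KU G A) {g : (Fin n → Fin N) → K}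
    (hg : g ∈ D.KP n) : Ua (Function.update (fun _ => 1) l u) g ∈ D.KP n := by
  induction hg using Submodule.span_induction with
  | mem g hg =>
    induction hu using Submodule.span_induction with
    | mem u hu => exact KP.of (DN.PQ.single D hfull l hu hg)
    | zero =>
      have h1 : Ua (Function.update (fun _ => 1) l (0 : Matrix (Fin N) (Fin N) K)) g = 0 := by
        funext y
        rw [Ua_single]
        simp
      rw [h1]; exact Submodule.zero_mem _
    | add u v _ _ hu hv =>
      have h1 : Ua (Function.update (fun _ => 1) l (u + v)) g =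
          Ua (Function.update (fun _ => 1) l u) g + Ua (Function.update (fun _ => 1) l v) g := by
        funext y
        rw [Ua_single, Pi.add_apply, Ua_single, Ua_single, ← Finset.sum_add_distrib]
        exact Finset.sum_congr rfl fun a _ => by rw [Matrix.add_apply, add_mul]
      rw [h1]; exact Submodule.add_mem _ hu hv
    | smul a u _ hu =>
      have h1 : Ua (Function.update (fun _ => 1) l (a • u)) g =
          a • Ua (Function.update (fun _ => 1) l u) g := by
        funext y
        rw [Ua_single, Pi.smul_apply, Ua_single, Finset.smul_sum]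
        exact Finset.sum_congr rfl fun b _ => by
          rw [Matrix.smul_apply, smul_eq_mul, smul_eq_mul, mul_assoc]
      rw [h1]; exact Submodule.smul_mem _ _ hu
  | zero =>
    have h1 : Ua (Function.update (fun _ => 1) l u) (0 : (Fin n → Fin N) → K) = 0 := by
      funext y
      rw [Ua_single]
      simp
    rw [h1]; exact Submodule.zero_mem _
  | add x y _ _ hx hy =>
    have h1 : Ua (Function.update (fun _ => 1) l u) (x + y) =
        Ua (Function.update (fun _ => 1) l u) x + Ua (Function.update (fun _ => 1) l u) y := by
      funext z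
      rw [Ua_single, Pi.add_apply, Ua_single, Ua_single, ← Finset.sum_add_distrib]
      exact Finset.sum_congr rfl fun a _ => by rw [Pi.add_apply, mul_add]
    rw [h1]; exact Submodule.add_mem _ hx hy
  | smul a x _ hx =>
    have h1 : Ua (Function.update (fun _ => 1) l u) (a • x) =
        a • Ua (Function.update (fun _ => 1) l u) x := by
      funext z
      rw [Ua_single, Pi.smul_apply, Ua_single, Finset.smul_sum]
      exact Finset.sum_congr rfl fun b _ => by
        rw [Pi.smul_apply, smul_eq_mul, smul_eq_mul, mul_left_comm]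
    rw [h1]; exact Submodule.smul_mem _ _ hx

lemma KP.ua (hfull : ∀ g, A 2 g → D.PQ 2 g) (U : Fin n → Matrix (Fin N) (Fin N) K)
    (hU : ∀ l, U l ∈ KU G A) {g : (Fin n → Fin N) → K} (hg : g ∈ D.KP n) : Ua U g ∈ D.KP n :=
  Ua_ind (p := fun g => g ∈ D.KP n) (𝒰 := fun u => u ∈ KU G A)
    (fun l _ _ hu h => KP.single hfull l hu h) U hU hg

/-- The tensors of the system which are linear combinations of positive tensors are positive. -/
theorem KP.pq {g : (Fin n → Fin N) → K} (hA : A n g) (hg : g ∈ D.KP n) : D.PQ n g := by
  obtain ⟨r, a, c, h⟩ := Submodule.mem_span_set'.1 hg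
  exact PQ.span D (fun i => (c i).2) hA h.symm

/-- The tensors with one entry. -/
def sg {n : ℕ} (x : Fin n → Fin N) : (Fin n → Fin N) → K := Pi.single x 1

lemma sg_apply (x y : Fin n → Fin N) : (sg x : (Fin n → Fin N) → K) y = if y = x then 1 else 0 :=
  Pi.single_apply _ _ _

lemma rel_sg (e : Fin n ≃ Fin m) (x : Fin n → Fin N) :
    FD.rel e (sg x : (Fin n → Fin N) → K) = sg (x ∘ e.symm) := by
  funext y
  rw [rel_apply, sg_apply, sg_apply]
  by_cases h : y = x ∘ e.symm
  · rw [if_pos h, if_pos]
    rw [h]; funext i; simp
  · rw [if_neg h, if_neg]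
    intro h'
    apply h
    rw [← h']; funext i; simp

lemma tmul_sg (x : Fin n → Fin N) (y : Fin m → Fin N) :
    FD.rel finSumFinEquiv (tmul (sg x : (Fin n → Fin N) → K) (sg y)) = sg (Fin.append x y) := by
  funext z
  rw [rel_apply, tmul_apply, sg_apply, sg_apply, sg_apply]
  by_cases h : z = Fin.append x y
  · rw [if_pos h, if_pos, if_pos, mul_one]
    · rw [h]; funext i
      rw [finSumFinEquiv_apply_right, Fin.append_right]
    · rw [h]; funext i
      rw [finSumFinEquiv_apply_left, Fin.append_left]
  · rw [if_neg h]
    by_cases h1 : (fun s => z (finSumFinEquiv (Sum.inl s))) = x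
    · by_cases h2 : (fun s => z (finSumFinEquiv (Sum.inr s))) = y
      · exfalso
        apply h
        funext l
        refine Fin.addCases (fun i => ?_) (fun i => ?_) l
        · rw [Fin.append_left, ← h1]
          simp only [finSumFinEquiv_apply_left]
        · rw [Fin.append_right, ← h2]
          simp only [finSumFinEquiv_apply_right]
      · rw [if_neg h2, mul_zero]
    · rw [if_neg h1, zero_mul]

/-- The tensors of the system are positive if they are supported on the indices of the
combinations of positive tensors. -/
theorem KP.supp {g : (Fin n → Fin N) → K} (hA : A n g)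
    (h : ∀ x, g x ≠ 0 → (sg x : (Fin n → Fin N) → K) ∈ D.KP n) : D.PQ n g := by
  refine KP.pq hA ?_
  have h1 : g = ∑ x, g x • (sg x : (Fin n → Fin N) → K) := by
    funext y
    rw [Finset.sum_apply, Finset.sum_eq_single y]
    · rw [Pi.smul_apply, sg_apply, if_pos rfl, smul_eq_mul, mul_one]
    · intro x _ hx
      rw [Pi.smul_apply, sg_apply, if_neg (Ne.symm hx), smul_zero]
    · intro h; exact absurd (Finset.mem_univ _) h
  rw [h1]
  refine Submodule.sum_mem _ fun x _ => ?_
  by_cases hx : g x = 0
  · rw [hx, zero_smul]; exact Submodule.zero_mem _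
  · exact Submodule.smul_mem _ _ (h x hx)

end DN

end Pool.Agent.Y97.AB
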