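import Pool.Agent.Y97.AB.Dn

/-!
# Operators acting on each slot by its own matrix
-/

set_option linter.unusedSectionVars false

open Finset

universe v

namespace Pool.Agent.Y97.AB

open Pool.Agent.W552 Pool.Agent.Y97 Pool.Agent.Y97.FD

section Ua

variable {R : Type} [Fintype R] [DecidableEq R] {K : Type*} [CommRing K] {κ : Type} [Fintype κ]
    [DecidableEq κ]

/-- The operator which acts on each slot by its own matrix. -/
def Ua (U : κ → Matrix R R K) (g : (κ → R) → K) : (κ → R) → K :=
  fun y => ∑ x, (∏ l, U l (y l) (x l)) * g x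

lemma Ua_const (M : Matrix R R K) (g : (κ → R) → K) : Ua (fun _ => M) g = act M g := rfl

lemma Ua_mul (U V : κ → Matrix R R K) (g : (κ → R) → K) :
    Ua (fun l => U l * V l) g = Ua U (Ua V g) := by
  funext I
  simp only [Ua, Matrix.mul_apply, Finset.mul_sum]
  rw [Finset.sum_comm]
  refine Finset.sum_congr rfl fun J _ => ?_
  rw [Finset.prod_univ_sum, Fintype.piFinset_univ, Finset.sum_mul]
  refine Finset.sum_congr rfl fun L _ => ?_
  rw [Finset.prod_mul_distrib]
  ring

lemma dot_Ua (U : κ → Matrix R R K) (g h : (κ → R) → K) :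
    dot (Ua U g) h = dot g (Ua (fun l => (U l).transpose) h) := by
  simp only [dot, Ua, Finset.sum_mul, Finset.mul_sum]
  rw [Finset.sum_comm]
  refine Finset.sum_congr rfl fun I _ => Finset.sum_congr rfl fun J _ => ?_
  simp only [Matrix.transpose_apply]
  ring

/-- The adjoint for the form. -/
lemma dG_Ua (G : Matrix R R K) (U V : κ → Matrix R R K)
    (h : ∀ l, G * V l = (U l).transpose * G) (g g' : (κ → R) → K) :
    dG G (Ua U g) g' = dG G g (Ua V g') := by
  rw [dG, dot_Ua, dG, ← Ua_const, ← Ua_mul, ← Ua_const, ← Ua_mul]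
  have h1 : (fun l => (U l).transpose * G) = fun l => G * V l := funext fun l => (h l).symm
  rw [h1]

lemma Ua_single (l : κ) (u : Matrix R R K) (g : (κ → R) → K) (y : κ → R) :
    Ua (Function.update (fun _ => 1) l u) g y = ∑ a, u (y l) a * g (Function.update y l a) := by
  classical
  rw [Ua]
  have h1 : ∀ x : κ → R, (∏ l', (Function.update (fun _ => (1 : Matrix R R K)) l u) l' (y l')
      (x l')) = if x = Function.update y l (x l) then u (y l) (x l) else 0 := by
    intro x
    split_ifs with h
    · rw [Finset.prod_eq_single l]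
      · rw [Function.update_self]
      · intro l' _ hl'
        rw [Function.update_of_ne hl', h, Function.update_of_ne hl', Matrix.one_apply_eq]
      · intro h; exact absurd (Finset.mem_univ _) h
    · have h2 : ∃ l', l' ≠ l ∧ x l' ≠ y l' := by
        by_contra h3
        push Not at h3
        apply h
        funext l'
        by_cases hl : l' = l
        · subst hl; rw [Function.update_self]
        · rw [Function.update_of_ne hl, h3 l' hl]
      obtain ⟨l', h3, h4⟩ := h2
      refine Finset.prod_eq_zero (Finset.mem_univ l') ?_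
      rw [Function.update_of_ne h3]
      exact Matrix.one_apply_ne (Ne.symm h4)
  simp only [h1, ite_mul, zero_mul]
  rw [← Finset.sum_filter]
  refine Finset.sum_bij' (fun x _ => x l) (fun a _ => Function.update y l a) ?_ ?_ ?_ ?_ ?_
  · intro x _; exact Finset.mem_univ _
  · intro a _
    rw [Finset.mem_filter]
    refine ⟨Finset.mem_univ _, ?_⟩
    rw [Function.update_self]
  · intro x hx
    rw [Finset.mem_filter] at hx
    exact hx.2.symm
  · intro a _
    rw [Function.update_self]
  · intro x hx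
    rw [Finset.mem_filter] at hx
    rw [← hx.2]

/-- Induction on the slots. -/
lemma Ua_ind {p : ((κ → R) → K) → Prop} {𝒰 : Matrix R R K → Prop}
    (hp : ∀ (l : κ) (u : Matrix R R K) (g : (κ → R) → K), 𝒰 u → p g →
      p (Ua (Function.update (fun _ => 1) l u) g))
    (U : κ → Matrix R R K) (hU : ∀ l, 𝒰 (U l)) {g : (κ → R) → K} (hg : p g) : p (Ua U g) := by
  classical
  have h1 : ∀ s : Finset κ, p (Ua (fun l => if l ∈ s then U l else 1) g) := by
    intro s
    induction s using Finset.induction_on with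
    | empty =>
      have h2 : Ua (fun l => if l ∈ (∅ : Finset κ) then U l else 1) g = g := by
        have h3 : (fun l => if l ∈ (∅ : Finset κ) then U l else (1 : Matrix R R K)) =
            fun _ => 1 := by
          funext l
          rw [if_neg (Finset.notMem_empty l)]
        rw [h3, Ua_const, act_one]
      rw [h2]; exact hg
    | insert l s hl ih =>
      have h2 : (fun l' => if l' ∈ insert l s then U l' else (1 : Matrix R R K)) =
          fun l' => Function.update (fun _ => (1 : Matrix R R K)) l (U l) l' *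
            (if l' ∈ s then U l' else 1) := by
        funext l'
        by_cases h3 : l' = l
        · subst h3
          rw [if_pos (Finset.mem_insert_self _ _), Function.update_self, if_neg hl, mul_one]
        · rw [Function.update_of_ne h3, one_mul]
          by_cases h4 : l' ∈ s
          · rw [if_pos h4, if_pos (Finset.mem_insert_of_mem h4)]
          · rw [if_neg h4, if_neg]
            rw [Finset.mem_insert]
            rintro (h5 | h5)
            · exact h3 h5
            · exact h4 h5
      rw [h2, Ua_mul]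
      exact hp l _ _ (hU l) ih
  have h2 := h1 Finset.univ
  have h3 : (fun l => if l ∈ (Finset.univ : Finset κ) then U l else (1 : Matrix R R K)) = U := by
    funext l
    rw [if_pos (Finset.mem_univ l)]
  rwa [h3] at h2

end Ua

variable {N : ℕ} {K : Type v} [Field K] [CharZero K]
  {G : Matrix (Fin N) (Fin N) K} {A : ∀ n : ℕ, ((Fin n → Fin N) → K) → Prop}

/-- The matrices given by the tensors of the system. -/
def UW (G : Matrix (Fin N) (Fin N) K) (A : ∀ n : ℕ, ((Fin n → Fin N) → K) → Prop)
    (u : Matrix (Fin N) (Fin N) K) : Prop :=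
  ∃ w : (Fin 2 → Fin N) → K, A 2 w ∧ u = Matrix.of (fun x y => w ![x, y]) * G

/-- The permutation of the slots used in a contraction. -/
def eS {n : ℕ} (l : Fin n) : Fin n ⊕ Fin 2 ≃ Fin n ⊕ Fin 2 :=
  (Equiv.swap (Sum.inl l) (Sum.inr 0)).trans (Equiv.swap (Sum.inr 0) (Sum.inr 1))

lemma eS_inl {n : ℕ} (l : Fin n) : eS l (Sum.inl l) = Sum.inr 1 := by
  rw [eS, Equiv.trans_apply, Equiv.swap_apply_left, Equiv.swap_apply_left]

lemma eS_inl_ne {n : ℕ} {l i : Fin n} (h : i ≠ l) : eS l (Sum.inl i) = Sum.inl i := by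
  have h1 : Equiv.swap (Sum.inl l : Fin n ⊕ Fin 2) (Sum.inr 0) (Sum.inl i) = Sum.inl i :=
    Equiv.swap_apply_of_ne_of_ne (fun h' => h (Sum.inl.inj h')) Sum.inl_ne_inr
  rw [eS, Equiv.trans_apply, h1]
  exact Equiv.swap_apply_of_ne_of_ne Sum.inl_ne_inr Sum.inl_ne_inr

lemma eS_zero {n : ℕ} (l : Fin n) : eS l (Sum.inr 0) = Sum.inl l := by
  rw [eS, Equiv.trans_apply, Equiv.swap_apply_right]
  exact Equiv.swap_apply_of_ne_of_ne Sum.inl_ne_inr Sum.inl_ne_inr

lemma eS_one {n : ℕ} (l : Fin n) : eS l (Sum.inr 1) = Sum.inr 0 := by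
  have h1 : Equiv.swap (Sum.inl l : Fin n ⊕ Fin 2) (Sum.inr 0) (Sum.inr 1) = Sum.inr 1 :=
    Equiv.swap_apply_of_ne_of_ne Sum.inr_ne_inl
      (fun h' => absurd (Sum.inr.inj h') (by decide))
  rw [eS, Equiv.trans_apply, h1, Equiv.swap_apply_right]

lemma eS_tmul {n : ℕ} {R : Type} {K : Type*} [Mul K] (l : Fin n) (g : (Fin n → R) → K)
    (w : (Fin 2 → R) → K) (y : Fin n → R) (I' : Fin 2 → R) :
    g (fun i => Sum.elim y I' (eS l (Sum.inl i))) *
      w (fun j => Sum.elim y I' (eS l (Sum.inr j))) =
      g (Function.update y l (I' 1)) * w ![y l, I' 0] := by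
  congr 2
  · funext i
    by_cases h : i = l
    · subst h
      rw [eS_inl, Function.update_self]; rfl
    · rw [eS_inl_ne h, Function.update_of_ne h]; rfl
  · funext j
    refine Fin.cases ?_ (fun j => ?_) j
    · rw [eS_zero]; rfl
    · obtain rfl : j = 0 := Fin.eq_zero j
      have h1 : (Fin.succ 0 : Fin 2) = 1 := rfl
      rw [h1, eS_one]; rfl

namespace DN

variable (D : DN (fun _ => true) G A)

/-- The contraction with a tensor of the system in one slot. -/
lemma PQ.single (hfull : ∀ g, A 2 g → D.PQ 2 g) {n : ℕ} (l : Fin n)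
    {u : Matrix (Fin N) (Fin N) K} (hu : UW G A u) {g : (Fin n → Fin N) → K} (hg : D.PQ n g) :
    D.PQ n (Ua (Function.update (fun _ => 1) l u) g) := by
  obtain ⟨w, hw, rfl⟩ := hu
  obtain ⟨Cu, hCu, hCA⟩ := D.hN.cup true
  have h1 : D.PQ (n + 2) (FD.rel finSumFinEquiv (FD.rel (eS l) (tmul g w))) := by
    have h2 := (PQ.tm hg (hfull w hw)).rel (finSumFinEquiv.symm.trans ((eS l).trans
      finSumFinEquiv))
    rw [rel_rel] at h2 ⊢
    have h3 : (finSumFinEquiv : Fin n ⊕ Fin 2 ≃ Fin (n + 2)).trans
        (finSumFinEquiv.symm.trans ((eS l).trans finSumFinEquiv)) =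
        (eS l).trans finSumFinEquiv := by
      ext x; simp
    rwa [h3] at h2
  have h2 := PQ.ctr h1 (hfull _ hCA)
  rw [rel_symm_rel] at h2
  have h3 : Ua (Function.update (fun _ => 1) l (Matrix.of (fun x y => w ![x, y]) * G)) g =
      pdot (FD.rel (eS l) (tmul g w)) (act G.transpose (fun I => Cu (I 0) (I 1))) := by
    funext y
    rw [Ua_single, pdot]
    have h4 : ∀ I' : Fin 2 → Fin N, act G.transpose (fun I => Cu (I 0) (I 1)) I' =
        G (I' 0) (I' 1) := by
      intro I'
      have h5 := hCu (I' 0) (I' 1)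
      rw [if_pos rfl] at h5
      rw [← h5, act_apply, Matrix.mul_apply]
      simp only [Matrix.mul_apply, Matrix.transpose_apply, Finset.sum_mul]
      rw [Finset.sum_comm, ← Fintype.sum_prod_type']
      refine Fintype.sum_equiv (finTwoArrowEquiv (Fin N)) _ _ fun J => ?_
      have e1 : (finTwoArrowEquiv (Fin N)) J = (J 0, J 1) := rfl
      rw [Fin.prod_univ_two, e1]
      ring
    have h5 : ∀ I' : Fin 2 → Fin N, FD.rel (eS l) (tmul g w) (Sum.elim y I') =
        g (Function.update y l (I' 1)) * w ![y l, I' 0] := fun I' => eS_tmul l g w y I'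
    simp only [h4, h5, Matrix.mul_apply, Matrix.of_apply, Finset.sum_mul]
    rw [Finset.sum_comm, ← Fintype.sum_prod_type']
    refine (Fintype.sum_equiv (finTwoArrowEquiv (Fin N)) _ _ fun J => ?_).symm
    have e1 : (finTwoArrowEquiv (Fin N)) J = (J 0, J 1) := rfl
    rw [e1]
    ring
  rw [h3]
  exact h2

/-- The operators which act on the slots by matrices of the system. -/
lemma PQ.ua (hfull : ∀ g, A 2 g → D.PQ 2 g) {n : ℕ} (U : Fin n → Matrix (Fin N) (Fin N) K)
    (hU : ∀ l, UW G A (U l)) {g : (Fin n → Fin N) → K} (hg : D.PQ n g) : D.PQ n (Ua U g) :=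
  Ua_ind (fun l _ _ hu h => PQ.single D hfull l hu h) U hU hg

/-- The adjoint matrix. -/
lemma exists_adj (hN : ClosedN (fun _ => true) G A) (hG : G.transpose = -G)
    {u : Matrix (Fin N) (Fin N) K} (hu : UW G A u) :
    ∃ u', UW G A u' ∧ G * u' = u.transpose * G := by
  obtain ⟨w, hw, rfl⟩ := hu
  refine ⟨Matrix.of (fun x y => ((((-1 : ℚ) : K) • FD.rel (Equiv.swap (0 : Fin 2) 1) w)) ![x, y]) *
    G, ⟨_, (hN.sub 2).smul _ (hN.perm _ hw), rfl⟩, ?_⟩
  have h1 : Matrix.of (fun x y => ((((-1 : ℚ) : K) • FD.rel (Equiv.swap (0 : Fin 2) 1) w))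
      ![x, y]) = -(Matrix.of (fun x y => w ![x, y])).transpose := by
    ext x y
    rw [Matrix.of_apply, Pi.smul_apply, rel_apply, Matrix.neg_apply, Matrix.transpose_apply,
      Matrix.of_apply, Rat.cast_neg, Rat.cast_one, neg_smul, one_smul]
    congr 2
    funext i
    refine Fin.cases ?_ (fun i => ?_) i
    · rw [Equiv.swap_apply_left]; rfl
    · obtain rfl : i = 0 := Fin.eq_zero i
      have h1 : (Fin.succ 0 : Fin 2) = 1 := rfl
      rw [h1, Equiv.swap_apply_right]; rfl
  rw [h1, Matrix.transpose_mul, hG]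
  simp only [Matrix.neg_mul, Matrix.mul_neg, Matrix.mul_assoc]

/-- The adjoint operators. -/
lemma exists_adj_ua (hN : ClosedN (fun _ => true) G A) (hG : G.transpose = -G) {n : ℕ}
    (U : Fin n → Matrix (Fin N) (Fin N) K) (hU : ∀ l, UW G A (U l)) :
    ∃ V : Fin n → Matrix (Fin N) (Fin N) K, (∀ l, UW G A (V l)) ∧
      ∀ g g', dG G (Ua U g) g' = dG G g (Ua V g') := by
  choose V hV hV' using fun l => exists_adj hN hG (hU l)
  exact ⟨V, hV, fun g g' => dG_Ua G U V hV' g g'⟩

end DN

end Pool.Agent.Y97.AB
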