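import Pool.Agent.Y97.AB.Star
import Pool.Agent.Y97.AB.Ua
import Pool.Agent.Y97.AB.Spn

/-!
# Pull-backs and push-forwards along arbitrary morphisms between powers
-/

set_option linter.unusedSectionVars false

open CategoryTheory AlgebraicGeometry Finset

universe u v

namespace Pool.Agent.Y97.AB

open Pool.Agent.H914 Pool.Agent.H914.VarClass Pool.Agent.H914.VarClass.Obj
  Pool.Agent.H914.WeilCohomology Pool.Agent.H281R3.HT Pool.Agent.W552 Pool.Agent.W539.Ker
  Pool.Agent.Y97.FD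

lemma DN.PQ.full {N : ℕ} {K : Type v} [Field K] [CharZero K] {par : Fin N → Bool}
    {G : Matrix (Fin N) (Fin N) K} {A : ∀ n : ℕ, ((Fin n → Fin N) → K) → Prop}
    (D : DN par G A) {n : ℕ} (h : ∀ g, A n g → ∀ q : ℚ, dG G g g = (q : K) →
      0 ≤ q ∧ (q = 0 → ∀ h, A n h → dG G g h = 0)) (g : (Fin n → Fin N) → K) (hg : A n g) :
    D.PQ n g := by
  refine MM.full D.hA D.mm ?_ _ (D.cs_mem hg)
  intro a ha q hq
  obtain ⟨g, hg, rfl⟩ := D.exists_cs ha
  have h1 : dG G g g = (q : K) := by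
    rw [D.bp_cs] at hq
    apply (DN.φ K).injective
    rw [hq]; simp
  obtain ⟨h2, h3⟩ := h g hg q h1
  exact ⟨h2, fun h0 => (DN.nt_iff hg).2 (h3 h0)⟩

variable {k : Type u} [Field k] {𝒱 : VarClass k} {ops : CycleOps 𝒱}
  {W : WeilCohomology.{u, v} ops} {P : Polarized 𝒱} {Y : 𝒱.Obj}
  {f : Module.End W.K (W.H P.X)} {b : HB W P.X} {q : ℚ}

/-- The morphism acts on the first cohomology by matrices of the system. -/
def UU (W : WeilCohomology.{u, v} ops) (P : Polarized 𝒱) (f : Module.End W.K (W.H P.X))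
    (b : HB W P.X) : Prop :=
  ∀ (s t : ℕ) (h : (power ops P t).X ⟶ (power ops P s).X),
    ∃ U : Fin (s + 1) → Fin (t + 1) → Matrix (Fin (N1 b)) (Fin (N1 b)) W.K,
      (∀ i a, W.map h (ev (ops := ops) b s i a) = ∑ j, ∑ a', U i j a' a • ev b t j a') ∧
        ∀ i j, UW (G1 b f) (A1 (ops := ops) b) (U i j)

/-- The pull-back of a product of classes of degree one. -/
lemma map_mon' {s t : ℕ} (h : (power ops P t).X ⟶ (power ops P s).X)
    (U : Fin (s + 1) → Fin (t + 1) → Matrix (Fin (N1 b)) (Fin (N1 b)) W.K)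
    (hU : ∀ i a, W.map h (ev (ops := ops) b s i a) = ∑ j, ∑ a', U i j a' a • ev b t j a')
    {n : ℕ} (φ : Fin n → Fin (s + 1)) (x : Fin n → Fin (N1 b)) :
    W.map h (mon b s φ x) = ∑ ψ : Fin n → Fin (t + 1), ∑ y : Fin n → Fin (N1 b),
      (∏ l, U (φ l) (ψ l) (y l) (x l)) • mon b t ψ y := by
  rw [mon, map_list_prod, List.map_ofFn]
  have h1 : (⇑(W.map h) ∘ fun l => ev (ops := ops) b s (φ l) (x l)) =
      fun l => ∑ p : Fin (t + 1) × Fin (N1 b), U (φ l) p.1 p.2 (x l) •
        ev (ops := ops) b t p.1 p.2 := by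
    funext l
    rw [Fintype.sum_prod_type]
    exact hU (φ l) (x l)
  rw [h1, prod_sum_ofFn (W := W), ← Fintype.sum_prod_type']
  exact Fintype.sum_equiv (Equiv.arrowProdEquivProdArrow (Fin n) (fun _ => Fin (t + 1))
    (fun _ => Fin (N1 b))) _ _ (fun _ => rfl)

/-- The pull-back of a class. -/
lemma map_mm' {s t : ℕ} (h : (power ops P t).X ⟶ (power ops P s).X)
    (U : Fin (s + 1) → Fin (t + 1) → Matrix (Fin (N1 b)) (Fin (N1 b)) W.K)
    (hU : ∀ i a, W.map h (ev (ops := ops) b s i a) = ∑ j, ∑ a', U i j a' a • ev b t j a')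
    {n : ℕ} (φ : Fin n → Fin (s + 1)) (g : (Fin n → Fin (N1 b)) → W.K) :
    W.map h (mm b s φ g) = ∑ ψ : Fin n → Fin (t + 1),
      mm b t ψ (Ua (fun l => U (φ l) (ψ l)) g) := by
  rw [mm, map_sum]
  simp only [map_smul, map_mon' h U hU, mm, Finset.smul_sum]
  rw [Finset.sum_comm]
  refine Finset.sum_congr rfl fun ψ _ => ?_
  rw [Finset.sum_comm]
  refine Finset.sum_congr rfl fun y _ => ?_
  rw [Ua, Finset.sum_smul]
  refine Finset.sum_congr rfl fun x _ => ?_
  rw [smul_smul, mul_comm]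

lemma G1_transpose {M : Matrix (Fin (N1 b)) (Fin (N1 b)) W.K} (h : ∀ i j, M j i = -M i j) :
    M.transpose = -M := by
  ext i j
  rw [Matrix.transpose_apply, Matrix.neg_apply, h]

namespace Qc

variable {D : DN (fun _ => true) (G1 b f) (A1 (ops := ops) b)} {t : ℕ}
  {c d : W.H (power ops P t).X}

/-- Pull-backs along arbitrary morphisms. -/
theorem pull' (G : Gp W P.X P.D f) (H : Hy W P f b q) (hE : EX W P f b t)
    (hfull : ∀ g, A1 (ops := ops) b 2 g → D.PQ 2 g) (hUU : UU W P f b) {r : ℕ}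
    (h : (power ops P r).X ⟶ (power ops P t).X) (hc : Qc D t c) : Qc D r (W.map h c) := by
  obtain ⟨U, hU, hU'⟩ := hUU t r h
  refine ind G H hE (p := fun c => Qc D r (W.map h c)) ?_ ?_ ?_ ?_ hc
  · rw [map_zero]; exact zero
  · intro c c' h h'
    rw [map_add]; exact h.add h'
  · intro r c h
    rw [map_smul]; exact h.smul r
  · intro n φ g hg
    rw [map_mm' h U hU]
    exact sum fun ψ _ => mm G H ψ (DN.PQ.ua D hfull _ (fun l => hU' _ _) hg)

/-- Push-forwards along arbitrary morphisms. -/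
theorem push' (G : Gp W P.X P.D f) (H : Hy W P f b q) (hE : ∀ t, EX W P f b t)
    (h0 : PosAt W P f 0) (hadj : ADJ W P f) (hG : ∀ i j, G1 b f j i = -(G1 b f i j))
    (hfull : ∀ g, A1 (ops := ops) b 2 g → D.PQ 2 g) (hUU : UU W P f b) {s : ℕ}
    (h : (power ops P t).X ⟶ (power ops P s).X) (hc : Qc D t c) : Qc D s (W.push h c) := by
  obtain ⟨U, hU, hU'⟩ := hUU s t h
  have h1 : Qc D s (sts W P f s (W.push h (sts W P f t (sts W P f t c)))) := by
    intro n φ
    choose V hV hV' using fun ψ : Fin n → Fin (t + 1) =>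
      DN.exists_adj_ua D.hN (G1_transpose hG) (fun l => U (φ l) (ψ l)) (fun l => hU' _ _)
    have h2 : tau (ops := ops) b f s φ
        (sts W P f s (W.push h (sts W P f t (sts W P f t c)))) =
        ∑ ψ : Fin n → Fin (t + 1), Ua (V ψ) (tau b f t ψ (sts W P f t c)) := by
      apply dG_ext H.det
      intro g
      rw [dG_tau b H.det, ← hadj, map_mm' h U hU, map_sum, LinearMap.sum_apply, dG_sum]
      refine Finset.sum_congr rfl fun ψ _ => ?_
      rw [← dG_tau b H.det, hV']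
    rw [h2]
    exact DN.PQ.sum fun ψ _ => DN.PQ.ua D hfull _ (hV ψ) (star G H hE h0 hc n ψ)
  have h2 := star G H hE h0 h1
  rwa [(gp_frm G s).gd.st_st_apply, (gp_frm G t).gd.st_st_apply] at h2

/-- The algebraic classes of a degree in which all the tensors of the system are positive. -/
theorem low (G : Gp W P.X P.D f) (H : Hy W P f b q) {m : ℕ}
    (hfull : ∀ g, A1 (ops := ops) b m g → D.PQ m g) (hc : AS W _ c)
    (hc2 : c ∈ W.gr (power ops P t).X m) : Qc D t c := by
  intro n φ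
  by_cases hn : n = m
  · subst hn
    exact hfull _ (H.a1 t n φ c hc)
  · rw [tau_deg G H hn φ hc2]
    exact DN.PQ.zero

/-- Algebraic classes which are linear combinations of classes with positive tensors. -/
theorem span (H : Hy W P f b q) {r : ℕ} {a : Fin r → W.K} {e : Fin r → W.H (power ops P t).X}
    (he : ∀ i, Qc D t (e i)) (hc : AS W _ c) (h : c = ∑ i, a i • e i) : Qc D t c := by
  intro n φ
  refine DN.PQ.span D (a := a) (fun i => he i n φ) (H.a1 t n φ c hc) ?_
  rw [h, tau_sum]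
  exact Finset.sum_congr rfl fun i _ => tau_smul b t φ _ _

end Qc

end Pool.Agent.Y97.AB
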