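import Pool.Agent.Y97.AB.Der

/-!
# The tensors on the first cohomology given by algebraic classes: definitions
-/

set_option linter.unusedSectionVars false

open CategoryTheory AlgebraicGeometry Finset

universe u v

namespace Pool.Agent.Y97.AB

open Pool.Agent.H914 Pool.Agent.H914.VarClass Pool.Agent.H914.VarClass.Obj
  Pool.Agent.H914.WeilCohomology Pool.Agent.H281R3.HT Pool.Agent.W552 Pool.Agent.W539.Ker
  Pool.Agent.Y97.FD

variable {k : Type u} [Field k] {𝒱 : VarClass k} {ops : CycleOps 𝒱}
  {W : WeilCohomology.{u, v} ops} {P : Polarized 𝒱}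

/-- The basis vectors of degree one. -/
abbrev R1 (b : HB W P.X) : Type := {i : Fin b.N // b.dg i = 1}

/-- The number of the basis vectors of degree one. -/
noncomputable def N1 (b : HB W P.X) : ℕ := Fintype.card (R1 b)

/-- The basis vectors of degree one, numbered. -/
noncomputable def j1 (b : HB W P.X) (i : Fin (N1 b)) : Fin b.N :=
  ((Fintype.equivFin (R1 b)).symm i).1

lemma j1_dg (b : HB W P.X) (i : Fin (N1 b)) : b.dg (j1 b i) = 1 :=
  ((Fintype.equivFin (R1 b)).symm i).2

lemma j1_inj (b : HB W P.X) {i i' : Fin (N1 b)} (h : j1 b i = j1 b i') : i = i' :=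
  (Fintype.equivFin (R1 b)).symm.injective (Subtype.ext h)

lemma j1_surj (b : HB W P.X) {i : Fin b.N} (h : b.dg i = 1) : ∃ a, j1 b a = i :=
  ⟨Fintype.equivFin (R1 b) ⟨i, h⟩, by rw [j1, Equiv.symm_apply_apply]⟩

/-- The basis of the first cohomology. -/
noncomputable def e1 (b : HB W P.X) (i : Fin (N1 b)) : W.H P.X := b.e (j1 b i)

lemma e1_mem (b : HB W P.X) (i : Fin (N1 b)) : e1 b i ∈ W.gr P.X 1 := by
  have := b.mem (j1 b i)
  rwa [j1_dg] at this

/-- The tensors on the first cohomology given by algebraic classes. -/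
def A1 (b : HB W P.X) : ∀ n : ℕ, ((Fin n → Fin (N1 b)) → W.K) → Prop
  | 0, g => ∃ q : ℚ, g = fun _ => (q : W.K)
  | s + 1, g => ∃ c : W.H (power ops P s).X, AS W _ c ∧
      g = fun x => co b s c (fun l => j1 b (x l))

/-- The normalized matrix of the form on the first cohomology. -/
noncomputable def G1 (b : HB W P.X) (f : Module.End W.K (W.H P.X)) :
    Matrix (Fin (N1 b)) (Fin (N1 b)) W.K :=
  Matrix.of fun i j => bf W P.X P.D f (e1 b i) (e1 b j) / bf W P.X P.D f 1 1

/-- The class with the given coordinates. -/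
noncomputable def TT (b : HB W P.X) (s : ℕ) (g : (Fin (s + 1) → Fin (N1 b)) → W.K) :
    W.H (power ops P s).X := ∑ x, g x • vec b s (fun l => j1 b (x l))

end Pool.Agent.Y97.AB
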