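import Pool.Agent.Y97.AB.RDefs

/-!
# The group of relations is generated by the relations of bounded multiplicity
-/

set_option linter.unusedSectionVars false

open Finset

namespace Pool.Agent.Y97.AB

variable {K : Type*} [Field K] {N : ℕ}

lemma relGroup_mono (q : ℕ) (π : Fin N → K) {m m' : ℕ} (h : m ≤ m') :
    relGroup q π m ≤ relGroup q π m' := by
  refine AddSubgroup.closure_mono ?_
  rintro v ⟨n, a, x, hinj, hx, hv⟩
  exact ⟨n, fun l => Fin.castLE (by omega) (a l), x, fun l l' h1 h2 =>
    hinj l l' (Fin.castLE_injective _ h1) h2, hx, hv⟩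

/-- **There is a bound for the multiplicities of generating relations.** -/
theorem exists_relGen (q : ℕ) (π : Fin N → K) : ∃ m, RelGen q π m := by
  classical
  let T : (Fin N → ℤ) →ₗ[ℤ] (K →₀ ℤ) :=
    ∑ i, (Finsupp.lsingle (π i)).comp (LinearMap.proj i)
  have hT : ∀ v, T v = ∑ i, Finsupp.single (π i) (v i) := by
    intro v
    simp [T]
  let f : ℕ →o Submodule ℤ (Fin N → ℤ) :=
    ⟨fun m => (AddSubgroup.toIntSubmodule (relGroup q π m)).comap T, fun m m' h =>
      Submodule.comap_mono (fun v hv => relGroup_mono q π h hv)⟩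
  obtain ⟨m, hm⟩ := monotone_stabilizes_iff_noetherian.2
    (inferInstance : IsNoetherian ℤ (Fin N → ℤ)) f
  refine ⟨m, fun n x hx => ?_⟩
  let c : Fin N → ℤ := ∑ l, Pi.single (x l) 1
  have hc : T c = expo π x := by
    rw [map_sum, expo]
    refine Finset.sum_congr rfl fun l _ => ?_
    rw [hT, Finset.sum_eq_single (x l)]
    · rw [Pi.single_eq_same]
    · intro i _ hi
      rw [Pi.single_eq_of_ne hi, Finsupp.single_zero]
    · intro h; exact absurd (Finset.mem_univ _) h
  have h1 : expo π x ∈ relGroup q π (max n m) := by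
    refine AddSubgroup.subset_closure ⟨n, Fin.castLE (by omega), x, fun l l' h _ =>
      Fin.castLE_injective _ h, hx, rfl⟩
  have h2 : c ∈ f (max n m) := by
    change T c ∈ relGroup q π (max n m)
    rw [hc]; exact h1
  rw [← hm (max n m) (le_max_right _ _)] at h2
  have h3 : T c ∈ relGroup q π m := h2
  rwa [hc] at h3

/-- Renumbering. -/
lemma RelGen.reindex {q m N' : ℕ} {π : Fin N → K} (h : RelGen q π m) (σ : Fin N' ≃ Fin N) :
    RelGen q (π ∘ σ) m := by
  have h1 : relGroup q π m ≤ relGroup q (π ∘ σ) m := by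
    refine AddSubgroup.closure_mono ?_
    rintro v ⟨n, a, x, hinj, hx, hv⟩
    refine ⟨n, a, σ.symm ∘ x, fun l l' h1 h2 => hinj l l' h1 (σ.symm.injective h2), ?_, ?_⟩
    · obtain ⟨j, hj, hj'⟩ := hx
      refine ⟨j, hj, ?_⟩
      rw [← hj']
      exact Finset.prod_congr rfl fun l _ => by simp
    · rw [hv, expo, expo]
      exact Finset.sum_congr rfl fun l _ => by simp
  intro n x hx
  exact h1 (h n (σ ∘ x) hx)

end Pool.Agent.Y97.AB
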