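import Pool.Agent.Y97.AB.Thm
import Pool.Agent.Y97.AB.Frb
import Pool.Agent.Y97.AB.Rlb

/-!
# The standard conjecture of Hodge type for all powers of an abelian variety over a finite field
-/

set_option linter.unusedSectionVars false

open CategoryTheory AlgebraicGeometry Finset

universe u v

namespace Pool.Agent.Y97.AB

open Pool.Agent.H914 Pool.Agent.H914.VarClass Pool.Agent.H914.VarClass.Obj
  Pool.Agent.H914.WeilCohomology Pool.Agent.H281R3.HT Pool.Agent.W552 Pool.Agent.W539.Ker
  Pool.Agent.Y97.FD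

variable {k : Type u} [Field k] {𝒱 : VarClass k} {ops : CycleOps 𝒱}

section

variable {W : WeilCohomology.{u, v} ops} {P : Polarized 𝒱}
  {f : Module.End W.K (W.H P.X)} {b : HB W P.X} {q : ℚ}

/-- The pairing of a primitive class with positive tensors. -/
theorem pos_qc (G : Gp W P.X P.D f) (H : Hy W P f b q) (hE : ∀ t, EX W P f b t)
    {D : DN (fun _ => true) (G1 b f) (A1 (ops := ops) b)} {s n : ℕ}
    (hn : 2 * n ≤ (power ops P s).X.dim)
    {z : (power ops P s).X.Cycles} (hprim : Primitive W (power ops P s).X (power ops P s).D n z)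
    (hc : Qc D s (W.cl (power ops P s).X z))
    (hnt : ∃ w, (power ops P s).X.IsCyc ((power ops P s).X.dim - n) w ∧
      (power ops P s).X.V.degCycle (ops.mul z w) ≠ 0) :
    0 < pairing ops (power ops P s).X (power ops P s).D n z z := by
  have F := (gp_frm G s).fr
  have h1 : bfs W P f s (W.cl (power ops P s).X z) (W.cl (power ops P s).X z) =
      (((((power ops P s).X.dim - 2 * n).factorial : ℚ)⁻¹ *
        pairing ops (power ops P s).X (power ops P s).D n z z : ℚ) : W.K) := by
    have h2 := F.form_prim hn hprim.1 hprim.2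
    refine h2.trans ?_
    rw [pairing]
    congr 1
    ring
  have h2 := Qc.pos G H (hE s) hc (AS.of ⟨_, hprim.1, rfl⟩) (W.cl_mem hprim.1) h1
  have h3 : (0 : ℚ) < (((power ops P s).X.dim - 2 * n).factorial : ℚ)⁻¹ := by positivity
  have h4 : 0 ≤ pairing ops (power ops P s).X (power ops P s).D n z z :=
    nonneg_of_mul_nonneg_right h2.1 h3
  refine lt_of_le_of_ne h4 (fun h5 => ?_)
  obtain ⟨w, hw, hw'⟩ := hnt
  have h6 := h2.2 (by rw [← h5, mul_zero]) _ (F.st_AS (AS.of ⟨w, hw, rfl⟩))
  have h7 : bf W (power ops P s).X (power ops P s).D (frm W P f s) (W.cl (power ops P s).X z)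
      (st W (power ops P s).X (power ops P s).D (frm W P f s) (W.cl (power ops P s).X w)) = 0 :=
    h6
  rw [bf_apply, (gp_frm G s).gd.st_st_apply, ← W.cl_mul, W.tr_cl] at h7
  · exact hw' (by exact_mod_cast h7)
  · have := ops.mul_mem hprim.1 hw
    rwa [show n + ((power ops P s).X.dim - n) = (power ops P s).X.dim by omega] at this

end

/-- **The standard conjecture of Hodge type for all the powers of `X` follows from the Tate
conjecture and the standard conjecture of Hodge type for one power**, given by the relations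
between the eigenvalues of the endomorphism. -/
theorem all_hodge (W : WeilCohomology.{u, v} ops) (P : Polarized 𝒱) (hP : Good W P)
    (hX : IsExt W P.X) (φ : P.X ⟶ P.X) {p N : ℕ} (hp : p ≠ 0) {π : Fin N → W.K}
    (hπ : Diag W P.X φ π) (hF : ∀ s, FrobLike W (power ops P s).X (frobP ops P φ s) p)
    (hT1 : TateIn W (power ops P 1).X (frobP ops P φ 1) p 1) {m : ℕ} (hR : RelGen p π m)
    (hT : ∀ j, TateIn W (power ops P m).X (frobP ops P φ m) p j)
    (hH : HodgeNum W (power ops P m).X (power ops P m).D)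
    (hI : m = 0 → HodgeIndex W (power ops P 1).X (power ops P 1).D) (s : ℕ) :
    HodgeNum W (power ops P s).X (power ops P s).D := by
  intro n hn z hz hne
  obtain ⟨f, G⟩ := exists_gp hP.div hP.hardLefschetz hP.lefschetzB
  obtain ⟨e, hli, hsp, he⟩ := hπ
  obtain ⟨b, σ, hb⟩ := exists_HB_eig hli hsp
  obtain ⟨q, hq, hq1⟩ := (pos_iff G.fr).1 hP.deg_pos
  have hX := hX.isExterior
  have hd : Der W P.X P.D f := Pool.Agent.Y96.AB.der_of_exterior G hX
  have hA := Pool.Agent.Y710.AB.a1_closed G b hq.ne' hq1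
  obtain ⟨hG, hdet⟩ := Pool.Agent.Y710.AB.G1_cond G b hq.ne' hq1
  obtain ⟨D⟩ := exists_DN hA (fun i j h => absurd rfl h)
    (fun i j => by rw [if_pos rfl, hG i j, neg_one_mul]) hdet
  have H : Hy W P f b q := by
    refine ⟨hq, hq1, hdet, fun t => kf G hd b hq.ne' hq1 t, ?_, ?_⟩
    · rintro s g ⟨c, hc, rfl⟩
      exact Pool.Agent.Y710.AB.TT_as G b hc
    · exact fun t n φ c hc => Pool.Agent.Y46.AB.tau_a1 G b hq.ne' hq1 t φ hc
  have hm : PosAt W P f m := by
    intro c hc r hr
    exact Pool.Agent.Y46.FD.pos_of_hodge (gp_frm G m).fr (gp_frm G m).gd.sy hH hc hr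
  have hE : ∀ t, EX W P f b t := fun t =>
    ex_of_span G H (Pool.Agent.Y232.AB.span_mon hX b t)
  have hfull : ∀ g, A1 (ops := ops) b 2 g → D.PQ 2 g := by
    intro g hg
    by_cases hnm : 2 ≤ m + 1
    · exact pq_low G H D hm hnm hg
    · have hm0 : m = 0 := by omega
      exact DN.PQ.full D (Pool.Agent.Y504.AB.a1_two_pos G b hq hq1 (hI hm0)) g hg
  have hρ : ∀ a, W.map φ (e1 b a) = (π ∘ σ) a • e1 b a := by
    intro a
    rw [hb]
    exact he _
  have hpK : (p : W.K) ≠ 0 := by exact_mod_cast hp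
  have hall := all_pq (D := D) G H hm hpK hG hρ hF hT1 hT hfull (hR.reindex σ)
  exact pos_qc G H hE hn hz
    (fun n ψ => hall n _ (H.a1 s n ψ _ (AS.of ⟨z, hz.1, rfl⟩))) hne

end Pool.Agent.Y97.AB
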