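import Pool.Agent.Y97.AB.Adj
import Pool.Agent.Y97.AB.Pow

/-!
# Other polarizations and other abelian varieties
-/

set_option linter.unusedSectionVars false

open CategoryTheory AlgebraicGeometry Finset

universe u v

namespace Pool.Agent.Y97.AB

open Pool.Agent.H914 Pool.Agent.H914.VarClass Pool.Agent.H914.VarClass.Obj
  Pool.Agent.H914.WeilCohomology Pool.Agent.H281R3.HT Pool.Agent.W552 Pool.Agent.W539.Ker
  Pool.Agent.Y97.FD

variable {k : Type u} [Field k] {𝒱 : VarClass k} {ops : CycleOps 𝒱}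
  {W : WeilCohomology.{u, v} ops} {P Q : Polarized 𝒱}
  {f : Module.End W.K (W.H P.X)} {f' : Module.End W.K (W.H Q.X)}
  {b : HB W P.X} {b' : HB W Q.X} {q q' : ℚ}

/-- The tensor in two slots of a matrix. -/
def mt {N : ℕ} {K : Type*} (C : Matrix (Fin N) (Fin N) K) : (Fin 2 → Fin N) → K :=
  fun I => C (I 0) (I 1)

lemma Rc_mt {N N' : ℕ} {K : Type*} [Field K] (M : Matrix (Fin N') (Fin N) K)
    (C : Matrix (Fin N) (Fin N) K) : Rc (fun _ : Fin 2 => M) (mt C) =
      mt (M * C * M.transpose) := by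
  funext x
  have h1 : Rc (fun _ : Fin 2 => M) (mt C) x =
      ∑ a, ∑ c, M (x 0) a * M (x 1) c * C a c := by
    rw [Rc, ← (finTwoArrowEquiv (Fin N)).symm.sum_comp, Fintype.sum_prod_type]
    refine Finset.sum_congr rfl fun a _ => Finset.sum_congr rfl fun c _ => ?_
    rw [Fin.prod_univ_two]
    rfl
  rw [h1, mt, Matrix.mul_apply]
  simp only [Matrix.mul_apply, Matrix.transpose_apply, Finset.sum_mul]
  rw [Finset.sum_comm]
  refine Finset.sum_congr rfl fun a _ => Finset.sum_congr rfl fun c _ => ?_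
  ring

/-- The slots of `X` itself. -/
def φ0 : Fin 2 → Fin (0 + 1) := fun _ => 0

lemma mon_φ0 (b : HB W P.X) (x : Fin 2 → Fin (N1 b)) :
    mon (ops := ops) b 0 φ0 x = e1 b (x 0) * e1 b (x 1) := by
  have h1 : mon (ops := ops) b 0 φ0 x = ev (ops := ops) b 0 0 (x 0) * ev b 0 0 (x 1) := by
    rw [mon, List.ofFn_succ, List.ofFn_succ, List.ofFn_zero, List.prod_cons, List.prod_cons,
      List.prod_nil, mul_one]
    rfl
  rw [h1, Pool.Agent.Y333.AB.ev_zero, Pool.Agent.Y333.AB.ev_zero]
  rfl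

/-- The tensor of the class of the divisor. -/
theorem tau_cl (G : Gp W P.X P.D f) (H : Hy W P f b q) (hG : ∀ i j, G1 b f j i = -(G1 b f i j))
    {Cu : Matrix (Fin (N1 b)) (Fin (N1 b)) W.K} (hCu : G1 b f * Cu = -1) :
    tau (ops := ops) b f 0 φ0 (W.cl P.X P.D) = (q : W.K) • mt Cu := by
  refine tau_eq b H.det 0 φ0 _ fun x => ?_
  have hqK : (q : W.K) ≠ 0 := by exact_mod_cast H.hq.ne'
  have h1 : bfs W P f 0 (mon b 0 φ0 x) (W.cl P.X P.D) =
      bf W P.X P.D f (e1 b (x 0) * e1 b (x 1)) (W.cl P.X P.D) := by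
    rw [mon_φ0]; rfl
  have h2 : act (G1 b f) (mt Cu) x = G1 b f (x 0) (x 1) := by
    rw [act_eq_Rc, Rc_mt, mt, hCu, Matrix.neg_mul, Matrix.one_mul, Matrix.neg_apply,
      Matrix.transpose_apply, hG (x 0) (x 1), neg_neg]
  have h3 : G1 b f (x 0) (x 1) =
      bf W P.X P.D f (e1 b (x 0)) (e1 b (x 1)) / bf W P.X P.D f 1 1 := rfl
  rw [h1, bf_cl G (e1_mem b _) (e1_mem b _), act_smul, Pi.smul_apply, h2, h3, H.hq1, smul_eq_mul]
  field_simp

/-- The class of the divisor. -/
theorem cl_eq (G : Gp W P.X P.D f) (H : Hy W P f b q) (hG : ∀ i j, G1 b f j i = -(G1 b f i j))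
    (hE : EX W P f b 0)
    {Cu : Matrix (Fin (N1 b)) (Fin (N1 b)) W.K} (hCu : G1 b f * Cu = -1) :
    (2 : W.K) • W.cl P.X P.D = mm (ops := ops) b 0 φ0 (mt Cu) := by
  have h1 := hE 2 (W.cl P.X P.D)
  have hqK : (q : W.K) ≠ 0 := by exact_mod_cast H.hq.ne'
  have hu : ∀ φ : Fin 2 → Fin (0 + 1), φ = φ0 := fun φ => by
    funext i
    exact (Fin.eq_zero (φ i)).trans (Fin.eq_zero (φ0 i)).symm
  have h2 : (∑ φ : Fin 2 → Fin (0 + 1), mm b 0 φ (tau b f 0 φ (W.cl P.X P.D))) =
      mm (ops := ops) b 0 φ0 (tau b f 0 φ0 (W.cl P.X P.D)) := by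
    rw [Finset.sum_eq_single φ0]
    · intro φ _ h
      exact absurd (hu φ) h
    · intro h; exact absurd (Finset.mem_univ _) h
  have h3 : bfs W P f 0 1 1 = (q : W.K) := H.hq1
  have h4 : proj (W.isInternal (power ops P 0).X) 2 (W.cl P.X P.D) = W.cl P.X P.D :=
    proj_same _ (W.cl_mem G.fr.hD)
  rw [h2, tau_cl G H hG hCu, mm_smul, h3, h4, mul_smul] at h1
  have h5 := smul_right_injective _ hqK h1
  rw [h5]
  have h6 : ((Nat.factorial 2 : ℕ) : W.K) = 2 := by norm_num [Nat.factorial]
  rw [h6]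
  rfl

/-- The polarization of `Q` is a positive combination of pull-backs of the polarization of `P`. -/
theorem cup_eq (G : Gp W P.X P.D f) (H : Hy W P f b q) (G' : Gp W Q.X Q.D f')
    (H' : Hy W Q f' b' q') (hG : ∀ i j, G1 b f j i = -(G1 b f i j))
    (hG' : ∀ i j, G1 b' f' j i = -(G1 b' f' i j)) (hE : EX W P f b 0)
    {Cu : Matrix (Fin (N1 b)) (Fin (N1 b)) W.K} (hCu : G1 b f * Cu = -1)
    {Cu' : Matrix (Fin (N1 b')) (Fin (N1 b')) W.K} (hCu' : G1 b' f' * Cu' = -1)
    {r : ℕ} {a : Fin r → ℚ} {h : Fin r → (Q.X ⟶ P.X)}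
    (ha : W.cl Q.X Q.D = ∑ i, (a i : W.K) • W.map (h i) (W.cl P.X P.D))
    {M : Fin r → Matrix (Fin (N1 b')) (Fin (N1 b)) W.K}
    (hM : ∀ i c, W.map (h i) (e1 b c) = ∑ y, M i y c • e1 b' y) :
    Cu' = ∑ i, (a i : W.K) • (M i * Cu * (M i).transpose) := by
  have hqK : (q' : W.K) ≠ 0 := by exact_mod_cast H'.hq.ne'
  -- antisymmetry
  have hCt : Cu.transpose = -Cu := by
    have h1 : (G1 b f).transpose = -(G1 b f) := G1_transpose hG
    have h2 := congrArg Matrix.transpose hCu
    rw [Matrix.transpose_mul, h1, Matrix.transpose_neg, Matrix.transpose_one] at h2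
    have h3 : (-(Cu.transpose)) * -(G1 b f) = 1 := by rw [Matrix.neg_mul, h2, neg_neg]
    have h4 : G1 b f * (-Cu) = 1 := by rw [Matrix.mul_neg, hCu, neg_neg]
    have h5 : (Cu.transpose) * G1 b f = 1 := by
      rw [Matrix.neg_mul, Matrix.mul_neg, neg_neg] at h3; exact h3
    calc Cu.transpose = Cu.transpose * (G1 b f * (-Cu)) := by rw [h4, Matrix.mul_one]
      _ = -Cu := by rw [← Matrix.mul_assoc, h5, Matrix.one_mul]
  have hmap : ∀ i, tau (ops := ops) b' f' 0 φ0 (W.map (h i) (W.cl P.X P.D)) =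
      (q' : W.K) • mt (M i * Cu * (M i).transpose) := by
    intro i
    have h1 : tupQ (P := P) (Q := Q) ops (s := 0) (fun _ => h i) = h i :=
      Category.id_comp (h i)
    have h2 : (2 : W.K) • W.map (h i) (W.cl P.X P.D) =
        mm (ops := ops) b' 0 φ0 (mt (M i * Cu * (M i).transpose)) := by
      rw [← map_smul, cl_eq (ops := ops) G H hG hE hCu]
      have h3 := map_tupQ_mm (ops := ops) (b := b) (b' := b') (s := 0) (h := fun _ => h i)
        (M := fun _ => M i) (fun _ c => hM i c) φ0 (mt Cu)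
      rw [h1, Rc_mt] at h3
      exact h3
    have h2' : ((2 : W.K) • (W.map (h i) (W.cl P.X P.D) : W.H (power ops Q 0).X)) =
        mm (ops := ops) b' 0 φ0 (mt (M i * Cu * (M i).transpose)) := h2
    have h3 : tau (ops := ops) b' f' 0 φ0
        ((2 : W.K) • (W.map (h i) (W.cl P.X P.D) : W.H (power ops Q 0).X)) =
        (2 * (q' : W.K)) • mt (M i * Cu * (M i).transpose) := by
      rw [h2']
      have h4 := tau_mm_self (ops := ops) G' H' 0 φ0 (mt (M i * Cu * (M i).transpose))
      have h5 : Sb φ0 = Finset.univ := by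
        ext σ
        rw [mem_Sb]
        exact ⟨fun _ => Finset.mem_univ _, fun _ => rfl⟩
      have h6 : alt (b := b') φ0 (mt (M i * Cu * (M i).transpose)) =
          mt (M i * Cu * (M i).transpose) := by
        have h7 : ∀ σ ∈ Sb φ0, rel σ (mt (M i * Cu * (M i).transpose)) =
            ((Equiv.Perm.sign σ : ℤ) : W.K) • mt (M i * Cu * (M i).transpose) := by
          intro σ _
          have h8 : (M i * Cu * (M i).transpose).transpose = -(M i * Cu * (M i).transpose) := by
            rw [Matrix.transpose_mul, Matrix.transpose_mul, Matrix.transpose_transpose, hCt,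
              Matrix.neg_mul, Matrix.mul_neg, ← Matrix.mul_assoc]
          have h9 : ∀ x y, (M i * Cu * (M i).transpose) y x =
              -((M i * Cu * (M i).transpose) x y) := fun x y => congrFun (congrFun h8 x) y
          have h10 : σ = 1 ∨ σ = Equiv.swap 0 1 := by
            revert σ; decide
          rcases h10 with rfl | rfl
          · simp only [Equiv.Perm.sign_one, Units.val_one, Int.cast_one, one_smul]
            rfl
          · rw [Equiv.Perm.sign_swap (by decide)]
            funext x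
            simp only [rel_apply, mt, Pi.smul_apply, Equiv.swap_apply_left,
              Equiv.swap_apply_right, Units.val_neg, Units.val_one, Int.cast_neg, Int.cast_one,
              smul_eq_mul, neg_one_mul]
            exact h9 _ _
        have h1' : ((Sb φ0).card : W.K) ≠ 0 := by exact_mod_cast (Sb_pos φ0).ne'
        have h11 := alt_eq' (b := b') φ0 (mt (M i * Cu * (M i).transpose))
        rw [Finset.sum_congr rfl fun σ hσ => by rw [h7 σ hσ, smul_smul, sgn_sq, one_smul],
          Finset.sum_const, ← Nat.cast_smul_eq_nsmul W.K] at h11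
        exact smul_right_injective _ h1' h11
      have h12 : (Sb φ0).card = 2 := by
        rw [h5, Finset.card_univ, Fintype.card_perm, Fintype.card_fin]; rfl
      rw [h6, h12] at h4
      rw [h4]
      congr 1
      push_cast
      ring
    rw [mul_smul] at h3
    have h3' := (tau_smul (ops := ops) (f := f') b' 0 φ0 (2 : W.K)
      (W.map (h i) (W.cl P.X P.D))).symm.trans h3
    exact smul_right_injective _ (two_ne_zero (α := W.K)) h3'
  have h1 := tau_cl (ops := ops) G' H' hG' hCu'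
  have h1a := congrArg (tau (ops := ops) b' f' 0 φ0) ha
  have h1b := tau_sum (ops := ops) (f := f') b' 0 φ0 Finset.univ
    (fun i => (a i : W.K) • W.map (h i) (W.cl P.X P.D))
  have h1c : ∀ i, tau (ops := ops) b' f' 0 φ0 ((a i : W.K) • W.map (h i) (W.cl P.X P.D)) =
      (a i : W.K) • ((q' : W.K) • mt (M i * Cu * (M i).transpose)) := fun i =>
    (tau_smul (ops := ops) (f := f') b' 0 φ0 (a i : W.K) (W.map (h i) (W.cl P.X P.D))).trans
      (congrArg ((a i : W.K) • ·) (hmap i))
  have h1d := h1.symm.trans (h1a.trans (h1b.trans (Finset.sum_congr rfl fun i _ => h1c i)))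
  have h2 : (q' : W.K) • mt (∑ i, (a i : W.K) • (M i * Cu * (M i).transpose)) =
      (q' : W.K) • mt Cu' := by
    rw [h1d]
    funext x
    simp only [mt, Pi.smul_apply, Finset.sum_apply, Matrix.sum_apply, Matrix.smul_apply,
      smul_eq_mul, Finset.mul_sum]
    exact Finset.sum_congr rfl fun i _ => by ring
  have h3 := smul_right_injective _ hqK h2
  ext x y
  exact (congrFun h3 ![x, y]).symm

end Pool.Agent.Y97.AB
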