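import Pool.Agent.Y97.FD.Geo3

/-!
# The action of rectangular matrices on the slots of tensors
-/

set_option linter.unusedSectionVars false

open Finset

namespace Pool.Agent.Y97.AB

open Pool.Agent.Y97.FD

variable {K : Type*} [Field K] {N N' N'' n : ℕ}

/-- The action of matrices on the slots. -/
def Rc (M : Fin n → Matrix (Fin N') (Fin N) K) (g : (Fin n → Fin N) → K) :
    (Fin n → Fin N') → K :=
  fun y => ∑ x, (∏ l, M l (y l) (x l)) * g x

lemma act_eq_Rc (G : Matrix (Fin N) (Fin N) K) (g : (Fin n → Fin N) → K) :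
    act G g = Rc (fun _ => G) g := rfl

lemma Rc_one (g : (Fin n → Fin N) → K) : Rc (fun _ => (1 : Matrix (Fin N) (Fin N) K)) g = g := by
  rw [← act_eq_Rc, act_one]

lemma Rc_Rc (M' : Fin n → Matrix (Fin N'') (Fin N') K) (M : Fin n → Matrix (Fin N') (Fin N) K)
    (g : (Fin n → Fin N) → K) : Rc M' (Rc M g) = Rc (fun l => M' l * M l) g := by
  funext z
  simp only [Rc, Finset.mul_sum]
  rw [Finset.sum_comm]
  refine Finset.sum_congr rfl fun x _ => ?_
  have h1 : (∏ l, (M' l * M l) (z l) (x l)) =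
      ∑ y : Fin n → Fin N', ∏ l, (M' l (z l) (y l) * M l (y l) (x l)) := by
    simp only [Matrix.mul_apply]
    rw [Finset.prod_univ_sum, Fintype.piFinset_univ]
  rw [h1, Finset.sum_mul]
  refine Finset.sum_congr rfl fun y _ => ?_
  rw [Finset.prod_mul_distrib]
  ring

lemma dot_Rc (M : Fin n → Matrix (Fin N') (Fin N) K) (g : (Fin n → Fin N) → K)
    (h : (Fin n → Fin N') → K) :
    dot (Rc M g) h = dot g (Rc (fun l => (M l).transpose) h) := by
  simp only [dot, Rc, Finset.sum_mul, Finset.mul_sum]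
  rw [Finset.sum_comm]
  refine Finset.sum_congr rfl fun x _ => Finset.sum_congr rfl fun y _ => ?_
  simp only [Matrix.transpose_apply]
  ring

lemma sum_Rc {r : ℕ} (w : Fin r → K) (M : Fin r → Matrix (Fin N') (Fin N) K)
    (g : (Fin n → Fin N) → K) :
    ∑ I : Fin n → Fin r, (∏ l, w (I l)) • Rc (fun l => M (I l)) g =
      Rc (fun _ => ∑ i, w i • M i) g := by
  funext y
  rw [Finset.sum_apply]
  simp only [Pi.smul_apply, smul_eq_mul, Rc, Finset.mul_sum]
  rw [Finset.sum_comm]
  refine Finset.sum_congr rfl fun x _ => ?_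
  have h1 : ∏ l : Fin n, (∑ i, w i • M i) (y l) (x l) =
      ∑ I : Fin n → Fin r, ∏ l, (w (I l) * M (I l) (y l) (x l)) := by
    have h2 : ∀ l : Fin n, (∑ i, w i • M i) (y l) (x l) = ∑ i, w i * M i (y l) (x l) := by
      intro l
      rw [Matrix.sum_apply]
      exact Finset.sum_congr rfl fun i _ => rfl
    rw [Finset.prod_congr rfl fun l _ => h2 l, Finset.prod_univ_sum, Fintype.piFinset_univ]
  rw [h1, Finset.sum_mul]
  refine Finset.sum_congr rfl fun I _ => ?_
  rw [Finset.prod_mul_distrib]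
  ring

end Pool.Agent.Y97.AB
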