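import Pool.Agent.Y97.AB.Cyc
import Pool.Agent.Y97.Pos

/-!
# The classes with positive tensors are stable under the operations on cycles
-/

set_option linter.unusedSectionVars false

open CategoryTheory AlgebraicGeometry Finset

universe u v

namespace Pool.Agent.Y97.AB

open Pool.Agent.H914 Pool.Agent.H914.VarClass Pool.Agent.H914.VarClass.Obj
  Pool.Agent.H914.WeilCohomology Pool.Agent.H281R3.HT Pool.Agent.W552 Pool.Agent.W539.Ker
  Pool.Agent.Y97.FD

variable {k : Type u} [Field k] {𝒱 : VarClass k} {ops : CycleOps 𝒱}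
  {W : WeilCohomology.{u, v} ops} {P : Polarized 𝒱} {Y : 𝒱.Obj}
  {f : Module.End W.K (W.H P.X)} {b : HB W P.X} {q : ℚ}

/-- The tensors of classes of another degree vanish. -/
lemma tau_deg (G : Gp W P.X P.D f) (H : Hy W P f b q) {t n m : ℕ} (hnm : n ≠ m)
    (φ : Fin n → Fin (t + 1)) {c : W.H (power ops P t).X} (hc : c ∈ W.gr (power ops P t).X m) :
    tau (ops := ops) b f t φ c = 0 := by
  refine tau_eq b H.det t φ _ fun x => ?_
  rw [act_zero]
  exact (gp_frm G t).fr.bf_deg (mon_mem b t φ x) hc hnm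

/-- The classes with positive tensors. -/
def Qc (D : DN (fun _ => true) (G1 b f) (A1 (ops := ops) b)) (t : ℕ)
    (c : W.H (power ops P t).X) : Prop :=
  ∀ (n : ℕ) (φ : Fin n → Fin (t + 1)), D.PQ n (tau (ops := ops) b f t φ c)

/-- The expansion of a class. -/
def EX (W : WeilCohomology.{u, v} ops) (P : Polarized 𝒱) (f : Module.End W.K (W.H P.X))
    (b : HB W P.X) (t : ℕ) : Prop :=
  ∀ (n : ℕ) (c : W.H (power ops P t).X), ∑ φ : Fin n → Fin (t + 1), mm b t φ (tau b f t φ c) =
    (bfs W P f t 1 1 * (n.factorial : W.K)) • proj (W.isInternal (power ops P t).X) n c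

/-- The expansion holds if the products of classes of degree one generate the cohomology. -/
theorem ex_of_span (G : Gp W P.X P.D f) (H : Hy W P f b q) {t : ℕ}
    (hs : Submodule.span W.K {c : W.H (power ops P t).X | ∃ (n : ℕ) (φ : Fin n → Fin (t + 1))
      (x : Fin n → Fin (N1 b)), c = mon b t φ x} = ⊤) : EX W P f b t := by
  intro n c
  have hc : c ∈ Submodule.span W.K {c : W.H (power ops P t).X | ∃ (n : ℕ)
      (φ : Fin n → Fin (t + 1)) (x : Fin n → Fin (N1 b)), c = mon b t φ x} := by
    rw [hs]; exact Submodule.mem_top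
  induction hc using Submodule.span_induction with
  | mem c hc =>
    obtain ⟨m, ψ, x, rfl⟩ := hc
    by_cases hnm : n = m
    · subst hnm
      rw [proj_same _ (mon_mem b t ψ x), ← mm_single b t ψ x]
      set g : (Fin n → Fin (N1 b)) → W.K := Pi.single x 1 with hg
      have h1 : ∀ φ : Fin n → Fin (t + 1),
          mm b t φ (tau (ops := ops) b f t φ (mm b t ψ g)) =
          ∑ σ : Equiv.Perm (Fin n), if φ ∘ σ = ψ then bfs W P f t 1 1 • mm b t ψ g else 0 := by
        intro φ
        rw [tau_mm b H.det t (H.kf t), mm_smul, mm_sum, Finset.smul_sum]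
        refine Finset.sum_congr rfl fun σ _ => ?_
        split_ifs with h
        · rw [mm_smul, mm_perm, smul_smul ((Equiv.Perm.sign σ : ℤ) : W.K), sgn_sq, one_smul, h]
        · rw [mm_zero, smul_zero]
      rw [Finset.sum_congr rfl fun φ _ => h1 φ, Finset.sum_comm]
      have h2 : ∀ σ : Equiv.Perm (Fin n), (∑ φ : Fin n → Fin (t + 1),
          if φ ∘ σ = ψ then bfs W P f t 1 1 • mm (ops := ops) b t ψ g else 0) =
          bfs W P f t 1 1 • mm b t ψ g := by
        intro σ
        rw [Finset.sum_eq_single (ψ ∘ ⇑σ⁻¹)]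
        · rw [if_pos]
          funext i; simp
        · intro φ _ hφ
          rw [if_neg]
          intro h
          apply hφ
          rw [← h]
          funext i; simp
        · intro h; exact absurd (Finset.mem_univ _) h
      rw [Finset.sum_congr rfl fun σ _ => h2 σ, Finset.sum_const, Finset.card_univ,
        Fintype.card_perm, Fintype.card_fin, ← Nat.cast_smul_eq_nsmul W.K, smul_smul, mul_comm]
    · rw [proj_ne _ (mon_mem b t ψ x) (Ne.symm hnm), smul_zero]
      refine Finset.sum_eq_zero fun φ _ => ?_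
      rw [tau_deg G H hnm φ (mon_mem b t ψ x), mm_zero]
  | zero =>
    rw [map_zero, smul_zero]
    refine Finset.sum_eq_zero fun φ _ => ?_
    rw [tau_zero, mm_zero]
  | add c d _ _ ihc ihd =>
    rw [map_add, smul_add, ← ihc, ← ihd, ← Finset.sum_add_distrib]
    refine Finset.sum_congr rfl fun φ _ => ?_
    rw [tau_add, mm_add]
  | smul r c _ ih =>
    rw [map_smul, smul_comm, ← ih, Finset.smul_sum]
    refine Finset.sum_congr rfl fun φ _ => ?_
    rw [tau_smul, mm_smul]

namespace Qc

variable {D : DN (fun _ => true) (G1 b f) (A1 (ops := ops) b)} {t : ℕ}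
  {c d : W.H (power ops P t).X}

lemma add (hc : Qc D t c) (hd : Qc D t d) : Qc D t (c + d) := by
  intro n φ
  rw [tau_add]
  exact (hc n φ).add (hd n φ)

lemma smul (hc : Qc D t c) (r : ℚ) : Qc D t ((r : W.K) • c) := by
  intro n φ
  rw [tau_smul]
  exact (hc n φ).smul r

lemma zero : Qc D t 0 := by
  intro n φ
  rw [tau_zero]
  exact DN.PQ.zero

lemma sum {ι : Type*} {s : Finset ι} {c : ι → W.H (power ops P t).X}
    (h : ∀ i ∈ s, Qc D t (c i)) : Qc D t (∑ i ∈ s, c i) := by
  classical
  induction s using Finset.induction_on with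
  | empty => rw [Finset.sum_empty]; exact zero
  | insert a s ha ih =>
    rw [Finset.sum_insert ha]
    exact (h a (Finset.mem_insert_self _ _)).add
      (ih fun i hi => h i (Finset.mem_insert_of_mem hi))

/-- The classes given by positive tensors. -/
theorem mm (G : Gp W P.X P.D f) (H : Hy W P f b q) {n : ℕ} (ψ : Fin n → Fin (t + 1))
    {g : (Fin n → Fin (N1 b)) → W.K} (hg : D.PQ n g) : Qc D t (mm b t ψ g) := by
  intro m φ
  by_cases hmn : m = n
  · subst hmn
    rw [tau_mm b H.det t (H.kf t), bfs_one' G H.hq1]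
    refine DN.PQ.smul (DN.PQ.sum fun σ _ => ?_) _
    split_ifs with h
    · have h1 := (hg.rel σ).smul ((Equiv.Perm.sign σ : ℤ) : ℚ)
      push_cast at h1
      exact h1
    · exact DN.PQ.zero
  · rw [tau_deg G H hmn φ (mm_mem b t ψ g)]
    exact DN.PQ.zero

/-- The induction principle. -/
theorem ind (G : Gp W P.X P.D f) (H : Hy W P f b q) (hE : EX W P f b t)
    {p : W.H (power ops P t).X → Prop} (h0 : p 0) (hadd : ∀ c d, p c → p d → p (c + d))
    (hsmul : ∀ (r : ℚ) c, p c → p ((r : W.K) • c))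
    (hmm : ∀ (n : ℕ) (φ : Fin n → Fin (t + 1)) (g : (Fin n → Fin (N1 b)) → W.K),
      D.PQ n g → p (AB.mm b t φ g)) (hc : Qc D t c) : p c := by
  classical
  have hsum : ∀ {ι : Type} (s : Finset ι) (c : ι → W.H (power ops P t).X),
      (∀ i ∈ s, p (c i)) → p (∑ i ∈ s, c i) := by
    intro ι s c h
    induction s using Finset.induction_on with
    | empty => rw [Finset.sum_empty]; exact h0
    | insert a s ha ih =>
      rw [Finset.sum_insert ha]
      exact hadd _ _ (h a (Finset.mem_insert_self _ _))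
        (ih fun i hi => h i (Finset.mem_insert_of_mem hi))
  have h1 : c = ∑ n ∈ Finset.range (2 * (power ops P t).X.dim + 1),
      proj (W.isInternal (power ops P t).X) n c := by
    have h2 := sum_proj (W.isInternal (power ops P t).X)
      (N := 2 * (power ops P t).X.dim + 1) (fun i hi => W.gr_eq_bot _ i (by omega))
    have h3 := congrArg (fun T => T c) h2
    simp only [LinearMap.sum_apply, Module.End.one_apply] at h3
    exact h3.symm
  rw [h1]
  refine hsum _ _ fun n _ => ?_
  have h2 : proj (W.isInternal (power ops P t).X) n c =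
      (((q ^ (t + 1) * (n.factorial : ℚ))⁻¹ : ℚ) : W.K) •
        ∑ φ : Fin n → Fin (t + 1), AB.mm b t φ (tau b f t φ c) := by
    rw [hE n c, bfs_one' G H.hq1, smul_smul]
    have h3 : (q ^ (t + 1) * (n.factorial : ℚ)) ≠ 0 :=
      mul_ne_zero (pow_ne_zero _ H.hq.ne') (by exact_mod_cast n.factorial_ne_zero)
    have h4 : (((q ^ (t + 1) * (n.factorial : ℚ))⁻¹ : ℚ) : W.K) *
        (((q ^ (t + 1) : ℚ) : W.K) * (n.factorial : W.K)) = 1 := by
      have h5 : (((q ^ (t + 1) * (n.factorial : ℚ))⁻¹ * (q ^ (t + 1) * (n.factorial : ℚ)) : ℚ) :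
          W.K) = 1 := by rw [inv_mul_cancel₀ h3, Rat.cast_one]
      push_cast at h5 ⊢
      exact h5
    rw [h4, one_smul]
  rw [h2]
  exact hsmul _ _ (hsum _ _ fun φ _ => hmm n φ _ (hc n φ))

/-- Products. -/
theorem mul (G : Gp W P.X P.D f) (H : Hy W P f b q) (hE : EX W P f b t) (hc : Qc D t c)
    (hd : Qc D t d) : Qc D t (c * d) := by
  refine ind G H hE (p := fun c => Qc D t (c * d)) ?_ ?_ ?_ ?_ hc
  · rw [zero_mul]; exact zero
  · intro c c' h h'
    rw [add_mul]; exact h.add h'
  · intro r c h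
    rw [smul_mul_assoc]; exact h.smul r
  · intro n φ g hg
    refine ind G H hE (p := fun d => Qc D t (AB.mm b t φ g * d)) ?_ ?_ ?_ ?_ hd
    · rw [mul_zero]; exact zero
    · intro c c' h h'
      rw [mul_add]; exact h.add h'
    · intro r c h
      rw [mul_smul_comm]; exact h.smul r
    · intro m ψ h hh
      rw [mm_mul]
      exact mm G H _ (hg.tm hh)

/-- Pull-backs along homomorphisms. -/
theorem pull (G : Gp W P.X P.D f) (H : Hy W P f b q) (hE : EX W P f b t) {r : ℕ}
    (h : (power ops P r).X ⟶ (power ops P t).X) (M : Fin (t + 1) → Fin (r + 1) → ℚ)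
    (hM : ∀ i, ∀ v ∈ W.gr P.X 1, W.map h (W.map (pr ops P t i) v) =
      ∑ j, (M i j : W.K) • W.map (pr ops P r j) v) (hc : Qc D t c) : Qc D r (W.map h c) := by
  refine ind G H hE (p := fun c => Qc D r (W.map h c)) ?_ ?_ ?_ ?_ hc
  · rw [map_zero]; exact zero
  · intro c c' h h'
    rw [map_add]; exact h.add h'
  · intro r c h
    rw [map_smul]; exact h.smul r
  · intro n φ g hg
    rw [map_mm b h (fun i j => (M i j : W.K)) hM]
    refine sum fun ψ _ => ?_
    have h1 := (mm (t := r) G H ψ hg).smul (∏ l, M (φ l) (ψ l))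
    push_cast at h1
    exact h1

/-- Numerically trivial classes. -/
theorem nt (G : Gp W P.X P.D f) (H : Hy W P f b q) (hc : AS W _ c)
    (h : ∀ d, AS W _ d → bfs W P f t d c = 0) : Qc D t c := by
  intro n φ
  have h1 := H.a1 t n φ c hc
  refine DN.PQ.nt h1 fun g hg => ?_
  rw [D.dG_symm h1, dG_tau b H.det]
  exact h _ (mm_as (fun h => H.tt _ _ h) t φ hg)

end Qc

/-- The star operator and the trace. -/
lemma bf_st {X : 𝒱.Obj} {D : X.Cycles} {f : Module.End W.K (W.H X)} (G : Gp W X D f)
    (a c : W.H X) : bf W X D f a (st W X D f c) = W.tr _ (a * c) := by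
  rw [bf_apply, G.gd.st_st_apply]

/-- The star operator on the unit class of a product. -/
lemma st_one_prod {X Y : 𝒱.Obj} {D : X.Cycles} {f : Module.End W.K (W.H X)} {E : Y.Cycles}
    {g : Module.End W.K (W.H Y)} (F : Gp W X D f) (G : Gp W Y E g) :
    st W (X.prod Y) (ops.pull (fst X Y) D + ops.pull (snd X Y) E) (extSum W f g) 1 =
      ext W (st W X D f 1) (st W Y E g 1) := by
  rw [← sub_eq_zero]
  apply (F.prod G).gd.nondeg
  intro y
  rw [map_sub, sub_eq_zero]
  refine ext_ind (p := fun y => bf W (X.prod Y) _ (extSum W f g) y (st W (X.prod Y) _ _ 1) =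
    bf W (X.prod Y) _ (extSum W f g) y (ext W (st W X D f 1) (st W Y E g 1))) ?_ ?_ y
  · intro a b ha hb
    rw [map_add, LinearMap.add_apply, LinearMap.add_apply, ha, hb]
  · intro i j a _ c _
    rw [bf_st (F.prod G), F.fr.bf_ext G.fr, bf_st F, bf_st G, mul_one, mul_one, mul_one]
    exact W.tr_prod a c

end Pool.Agent.Y97.AB
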