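import Pool.Agent.Y97.AB.Stab

/-!
# The star operator and push-forwards
-/

set_option linter.unusedSectionVars false

open CategoryTheory AlgebraicGeometry Finset

universe u v

namespace Pool.Agent.Y97.AB

open Pool.Agent.H914 Pool.Agent.H914.VarClass Pool.Agent.H914.VarClass.Obj
  Pool.Agent.H914.WeilCohomology Pool.Agent.H281R3.HT Pool.Agent.W552 Pool.Agent.W539.Ker
  Pool.Agent.Y97.FD

variable {k : Type u} [Field k] {𝒱 : VarClass k} {ops : CycleOps 𝒱}
  {W : WeilCohomology.{u, v} ops} {P : Polarized 𝒱} {Y : 𝒱.Obj}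
  {f : Module.End W.K (W.H P.X)} {b : HB W P.X} {q : ℚ}

/-- The star operator of a power. -/
noncomputable abbrev sts (W : WeilCohomology.{u, v} ops) (P : Polarized 𝒱)
    (f : Module.End W.K (W.H P.X)) (t : ℕ) : Module.End W.K (W.H (power ops P t).X) :=
  st W (power ops P t).X (power ops P t).D (frm W P f t)

/-- Pull-back and push-forward are adjoint for the form, up to the star operators. -/
def ADJ (W : WeilCohomology.{u, v} ops) (P : Polarized 𝒱)
    (f : Module.End W.K (W.H P.X)) : Prop :=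
  ∀ (s t : ℕ) (h : (power ops P t).X ⟶ (power ops P s).X) (a : W.H (power ops P s).X)
    (c : W.H (power ops P t).X), bfs W P f t (W.map h a) c =
      bfs W P f s a (sts W P f s (W.push h (sts W P f t c)))

/-- The tensors of the star of a class. -/
lemma tau_st_mm (G : Gp W P.X P.D f) (H : Hy W P f b q) (t : ℕ) {n m : ℕ}
    (φ : Fin n → Fin (t + 1)) (ψ : Fin m → Fin (t + 1)) (g : (Fin m → Fin (N1 b)) → W.K) :
    tau (ops := ops) b f t φ (sts W P f t (mm b t ψ g)) =
      pdot (rel finSumFinEquiv.symm (tau b f t (Fin.append φ ψ) (sts W P f t 1)))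
        (act (G1 b f).transpose g) := by
  apply dG_ext H.det
  intro h
  rw [dG_tau b H.det, bfs, bf_st (gp_frm G t), ← dG_ctr, ← dG_rel, dG_tau b H.det, bfs,
    bf_st (gp_frm G t), mul_one, mm_mul]

/-- The tensors of the adjoint. -/
lemma tau_adj (H : Hy W P f b q) (hadj : ADJ W P f) {s t : ℕ}
    (h : (power ops P t).X ⟶ (power ops P s).X) (M : Fin (s + 1) → Fin (t + 1) → W.K)
    (hM : ∀ i, ∀ v ∈ W.gr P.X 1, W.map h (W.map (pr ops P s i) v) =
      ∑ j, M i j • W.map (pr ops P t j) v) {n : ℕ} (φ : Fin n → Fin (s + 1))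
    (c : W.H (power ops P t).X) :
    tau (ops := ops) b f s φ (sts W P f s (W.push h (sts W P f t c))) =
      ∑ ψ : Fin n → Fin (t + 1), (∏ l, M (φ l) (ψ l)) • tau b f t ψ c := by
  refine tau_eq b H.det s φ _ fun x => ?_
  rw [← hadj, map_mon b h M hM, map_sum, LinearMap.sum_apply, act_sum, Finset.sum_apply]
  refine Finset.sum_congr rfl fun ψ _ => ?_
  rw [map_smul, LinearMap.smul_apply, act_smul, Pi.smul_apply, act_tau b H.det]

namespace Qc

variable {D : DN (fun _ => true) (G1 b f) (A1 (ops := ops) b)} {t : ℕ}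
  {c d : W.H (power ops P t).X}

/-- The classes of the cycles on a power on which the form is positive. -/
theorem cyc (G : Gp W P.X P.D f) (H : Hy W P f b q) (h0 : PosAt W P f t)
    (hc : AS W _ c) : Qc D t c := fun _ φ => pq_cyc G H D h0 φ hc

/-- The star of the unit class. -/
theorem st_one (G : Gp W P.X P.D f) (H : Hy W P f b q) (hE : ∀ t, EX W P f b t)
    (h0 : PosAt W P f 0) (t : ℕ) : Qc D t (sts W P f t 1) := by
  induction t with
  | zero => exact cyc G H h0 ((gp_frm G 0).fr.st_AS AS.one)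
  | succ t ih =>
    have h1 : sts W P f (t + 1) 1 = ext W (X := P.X) (Y := (power ops P t).X)
        (st W P.X P.D f 1) (sts W P f t 1) := st_one_prod G (gp_frm G t)
    rw [h1]
    have h2 : Qc D (t + 1) (W.map (fst P.X (power ops P t).X) (st W P.X P.D f 1)) := by
      refine pull (t := 0) (r := t + 1) G H (hE 0) (fst P.X (power ops P t).X)
        (fun _ j => if j = 0 then 1 else 0) (fun i v _ => ?_)
        (cyc (t := 0) G H h0 ((gp_frm G 0).fr.st_AS AS.one))
      rw [Finset.sum_eq_single 0]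
      · rw [if_pos rfl, Rat.cast_one, one_smul]
        have h3 : pr ops P 0 i = 𝟙 P.X := rfl
        rw [h3]
        exact congrArg (W.map (fst P.X (power ops P t).X)) (W.map_id P.X v)
      · intro j _ hj
        rw [if_neg hj, Rat.cast_zero, zero_smul]
      · intro h; exact absurd (Finset.mem_univ _) h
    have h3 : Qc D (t + 1) (W.map (snd P.X (power ops P t).X) (sts W P f t 1)) := by
      refine pull (t := t) (r := t + 1) G H (hE t) (snd P.X (power ops P t).X)
        (fun i j => if j = i.succ then 1 else 0) (fun i v _ => ?_) ih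
      rw [Finset.sum_eq_single i.succ]
      · rw [if_pos rfl, Rat.cast_one, one_smul]
        exact (W.map_comp (snd P.X (power ops P t).X) (pr ops P t i) v).symm
      · intro j _ hj
        rw [if_neg hj, Rat.cast_zero, zero_smul]
      · intro h; exact absurd (Finset.mem_univ _) h
    exact mul G H (hE (t + 1)) h2 h3

/-- The star operator. -/
theorem star (G : Gp W P.X P.D f) (H : Hy W P f b q) (hE : ∀ t, EX W P f b t)
    (h0 : PosAt W P f 0) (hc : Qc D t c) : Qc D t (sts W P f t c) := by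
  refine ind G H (hE t) (p := fun c => Qc D t (sts W P f t c)) ?_ ?_ ?_ ?_ hc
  · rw [map_zero]; exact zero
  · intro c c' h h'
    rw [map_add]; exact h.add h'
  · intro r c h
    rw [map_smul]; exact h.smul r
  · intro m ψ g hg n φ
    rw [tau_st_mm G H]
    exact DN.PQ.ctr (st_one G H hE h0 t (n + m) (Fin.append φ ψ)) hg

/-- Push-forwards along homomorphisms. -/
theorem push (G : Gp W P.X P.D f) (H : Hy W P f b q) (hE : ∀ t, EX W P f b t)
    (h0 : PosAt W P f 0) (hadj : ADJ W P f) {s : ℕ}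
    (h : (power ops P t).X ⟶ (power ops P s).X) (M : Fin (s + 1) → Fin (t + 1) → ℚ)
    (hM : ∀ i, ∀ v ∈ W.gr P.X 1, W.map h (W.map (pr ops P s i) v) =
      ∑ j, (M i j : W.K) • W.map (pr ops P t j) v) (hc : Qc D t c) :
    Qc D s (W.push h c) := by
  have h1 : Qc D s (sts W P f s (W.push h (sts W P f t (sts W P f t c)))) := by
    intro n φ
    rw [tau_adj H hadj h (fun i j => (M i j : W.K)) hM]
    refine DN.PQ.sum fun ψ _ => ?_
    have h2 := DN.PQ.smul (star G H hE h0 hc n ψ) (∏ l, M (φ l) (ψ l))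
    push_cast at h2
    exact h2
  have h2 := star G H hE h0 h1
  rwa [(gp_frm G s).gd.st_st_apply, (gp_frm G t).gd.st_st_apply] at h2

/-- **Positivity.** -/
theorem pos (G : Gp W P.X P.D f) (H : Hy W P f b q) (hE : EX W P f b t) (hc : Qc D t c)
    (hA : AS W _ c) {n : ℕ} (hn : c ∈ W.gr (power ops P t).X n) {r : ℚ}
    (hr : bfs W P f t c c = (r : W.K)) :
    0 ≤ r ∧ (r = 0 → ∀ d, AS W _ d → bfs W P f t c d = 0) := by
  have hfac : (0 : ℚ) < n.factorial := by exact_mod_cast n.factorial_pos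
  have h1 : ∀ d, ∑ φ : Fin n → Fin (t + 1),
      dG (G1 b f) (tau (ops := ops) b f t φ c) (tau b f t φ d) =
      ((q ^ (t + 1) * (n.factorial : ℚ) : ℚ) : W.K) * bfs W P f t c d := by
    intro d
    have h2 := congrArg (fun e => bfs W P f t e d) (hE n c)
    simp only [map_sum, LinearMap.sum_apply, map_smul, LinearMap.smul_apply] at h2
    rw [proj_same _ hn, bfs_one' G H.hq1] at h2
    rw [Finset.sum_congr rfl fun φ _ => dG_tau b H.det t φ _ d, h2]
    push_cast
    rw [smul_eq_mul]
  have h2 : ∀ φ : Fin n → Fin (t + 1), ∃ r : ℚ,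
      dG (G1 b f) (tau (ops := ops) b f t φ c) (tau b f t φ c) = (r : W.K) := fun φ =>
    D.dG_rat (H.a1 t n φ c hA) (H.a1 t n φ c hA)
  choose ρ hρ using h2
  have h3 : ∑ φ, ρ φ = q ^ (t + 1) * (n.factorial : ℚ) * r := by
    have h4 := h1 c
    rw [hr, Finset.sum_congr rfl fun φ _ => hρ φ] at h4
    exact_mod_cast h4
  have h4 : ∀ φ, 0 ≤ ρ φ := fun φ => ((hc n φ).pos (hρ φ)).1
  have h5 : (0 : ℚ) < q ^ (t + 1) * (n.factorial : ℚ) := mul_pos (pow_pos H.hq _) hfac
  refine ⟨nonneg_of_mul_nonneg_right (h3 ▸ Finset.sum_nonneg fun φ _ => h4 φ) h5,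
    fun hr0 d hd => ?_⟩
  have h6 : ∀ φ, ρ φ = 0 := by
    rw [hr0, mul_zero, Finset.sum_eq_zero_iff_of_nonneg (fun φ _ => h4 φ)] at h3
    exact fun φ => h3 φ (Finset.mem_univ φ)
  have h7 := h1 d
  rw [Finset.sum_eq_zero fun φ _ => ((hc n φ).pos (hρ φ)).2 (h6 φ) _ (H.a1 t n φ d hd)] at h7
  exact (mul_eq_zero.1 h7.symm).resolve_left (by exact_mod_cast h5.ne')

end Qc

end Pool.Agent.Y97.AB
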