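import Pool.Agent.Y97.AB.Fin
import Pool.Agent.Y97.AB.Kf
import Pool.Agent.Y97.AB.Ext
import Pool.Agent.Y504.AB.Two

/-!
# The standard conjecture of Hodge type on the powers of an abelian variety
-/

set_option linter.unusedSectionVars false

open CategoryTheory AlgebraicGeometry Finset

universe u v

namespace Pool.Agent.Y97.AB

open Pool.Agent.H914 Pool.Agent.H914.VarClass Pool.Agent.H914.VarClass.Obj
  Pool.Agent.H914.WeilCohomology Pool.Agent.H281R3.HT Pool.Agent.W552 Pool.Agent.W539.Ker
  Pool.Agent.Y97.FD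

variable {k : Type u} [Field k] {𝒱 : VarClass k} {ops : CycleOps 𝒱}

/-- Let `X` be an abelian variety (the cohomology is the exterior algebra on the first
cohomology). The standard conjecture of Hodge type for `X ^ (m + 1)` implies the positivity for all
the classes on all the powers of `X` which are generated by the cycles on `X ^ (m + 1)` and by the
cycles of small codimension or dimension on all the powers. For `m = 0` the Hodge index theorem for
`X × X` is assumed. -/
theorem genA_hodge (W : WeilCohomology.{u, v} ops) (P : Polarized 𝒱) (hP : Good W P)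
    (hX : IsExt W P.X) {m : ℕ} (hH : HodgeNum W (power ops P m).X (power ops P m).D)
    (hI : m = 0 → HodgeIndex W (power ops P 1).X (power ops P 1).D) {s n : ℕ}
    (hn : 2 * n ≤ (power ops P s).X.dim) {z : (power ops P s).X.Cycles}
    (hz : Primitive W (power ops P s).X (power ops P s).D n z)
    (hgen : GenA W P m s (W.cl (power ops P s).X z))
    (hne : ∃ w, (power ops P s).X.IsCyc ((power ops P s).X.dim - n) w ∧
      (power ops P s).X.V.degCycle (ops.mul z w) ≠ 0) :
    0 < pairing ops (power ops P s).X (power ops P s).D n z z := by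
  obtain ⟨f, G⟩ := exists_gp hP.div hP.hardLefschetz hP.lefschetzB
  obtain ⟨b⟩ := exists_HB W P.X
  obtain ⟨q, hq, hq1⟩ := (pos_iff G.fr).1 hP.deg_pos
  have hX := hX.isExterior
  have hd : Der W P.X P.D f := Pool.Agent.Y96.AB.der_of_exterior G hX
  have hA := Pool.Agent.Y710.AB.a1_closed G b hq.ne' hq1
  obtain ⟨hG, hdet⟩ := Pool.Agent.Y710.AB.G1_cond G b hq.ne' hq1
  obtain ⟨D⟩ := exists_DN hA (fun i j h => absurd rfl h)
    (fun i j => by rw [if_pos rfl, hG i j, neg_one_mul]) hdet
  have H : Hy W P f b q := by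
    refine ⟨hq, hq1, hdet, fun t => kf G hd b hq.ne' hq1 t, ?_, ?_⟩
    · rintro s g ⟨c, hc, rfl⟩
      exact Pool.Agent.Y710.AB.TT_as G b hc
    · exact fun t n φ c hc => Pool.Agent.Y46.AB.tau_a1 G b hq.ne' hq1 t φ hc
  have hm : PosAt W P f m := by
    intro c hc r hr
    exact Pool.Agent.Y46.FD.pos_of_hodge (gp_frm G m).fr (gp_frm G m).gd.sy hH hc hr
  have h0 : PosAt W P f 0 := posAt_le G hP.deg_pos hm (Nat.zero_le m)
  have hE : ∀ t, EX W P f b t := fun t =>
    ex_of_span G H (Pool.Agent.Y232.AB.span_mon hX b t)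
  have hfull : ∀ n, n ≤ max 2 (m + 1) → ∀ g, A1 (ops := ops) b n g → D.PQ n g := by
    intro n hn g hg
    by_cases hnm : n ≤ m + 1
    · exact pq_low G H D hm hnm hg
    · have hm0 : m = 0 := by omega
      have hn2 : n = 2 := by omega
      subst hn2
      exact DN.PQ.full D (Pool.Agent.Y504.AB.a1_two_pos G b hq hq1 (hI hm0)) g hg
  exact main_pos' G H hE (fun s t h a c => Pool.Agent.Y46.AB.bfs_adj G h a c) hG h0 hm hfull
    (fun s t h => Pool.Agent.Y333.AB.exists_uu G b hq.ne' hq1 h) hn hz hgen hne

end Pool.Agent.Y97.AB
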