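import Pool.Agent.Y97.AB.Pol

/-!
# The positivity for other abelian varieties and polarizations
-/

set_option linter.unusedSectionVars false

open CategoryTheory AlgebraicGeometry Finset

universe u v

namespace Pool.Agent.Y97.AB

open Pool.Agent.H914 Pool.Agent.H914.VarClass Pool.Agent.H914.VarClass.Obj
  Pool.Agent.H914.WeilCohomology Pool.Agent.H281R3.HT Pool.Agent.W552 Pool.Agent.W539.Ker
  Pool.Agent.Y97.FD

variable {k : Type u} [Field k] {𝒱 : VarClass k} {ops : CycleOps 𝒱}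

/-- The form is positive on all algebraic tensors. -/
def TP {N : ℕ} {K : Type v} [Field K] (G : Matrix (Fin N) (Fin N) K)
    (A : ∀ n : ℕ, ((Fin n → Fin N) → K) → Prop) : Prop :=
  ∀ (n : ℕ) (g : (Fin n → Fin N) → K), A n g → ∀ r : ℚ, dG G g g = (r : K) →
    0 ≤ r ∧ (r = 0 → ∀ h, A n h → dG G g h = 0)

section

variable {W : WeilCohomology.{u, v} ops} {P Q : Polarized 𝒱}
  {f : Module.End W.K (W.H P.X)} {f' : Module.End W.K (W.H Q.X)}
  {b : HB W P.X} {b' : HB W Q.X} {q q' : ℚ}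

/-- The form of `Q` in terms of the form of `P`. -/
theorem dG_resolve {G : Matrix (Fin (N1 b)) (Fin (N1 b)) W.K}
    {G' : Matrix (Fin (N1 b')) (Fin (N1 b')) W.K}
    {Cu : Matrix (Fin (N1 b)) (Fin (N1 b)) W.K} (hCu : G * Cu = -1)
    {Cu' : Matrix (Fin (N1 b')) (Fin (N1 b')) W.K} (hCu' : Cu' * G' = -1)
    {r : ℕ} {a : Fin r → ℚ} {M : Fin r → Matrix (Fin (N1 b')) (Fin (N1 b)) W.K}
    (hC : Cu' = ∑ i, (a i : W.K) • (M i * Cu * (M i).transpose)) {n : ℕ}
    (g g' : (Fin n → Fin (N1 b')) → W.K) :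
    dG G' g g' = ∑ I : Fin n → Fin r, (∏ l, (a (I l) : W.K)) *
      dG G (Rc (fun l => -(Cu * (M (I l)).transpose * G')) g)
        (Rc (fun l => -(Cu * (M (I l)).transpose * G')) g') := by
  have h1 : ∑ i, (a i : W.K) • (M i * -(Cu * (M i).transpose * G')) = 1 := by
    have h2 : ∀ i, (a i : W.K) • (M i * -(Cu * (M i).transpose * G')) =
        -(((a i : W.K) • (M i * Cu * (M i).transpose)) * G') := by
      intro i
      rw [Matrix.mul_neg, smul_neg, Matrix.smul_mul, ← Matrix.mul_assoc, ← Matrix.mul_assoc]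
    rw [Finset.sum_congr rfl fun i _ => h2 i, Finset.sum_neg_distrib, ← Finset.sum_mul, ← hC,
      hCu', neg_neg]
  have h2 : g = ∑ I : Fin n → Fin r, (∏ l, (a (I l) : W.K)) •
      Rc (fun l => M (I l)) (Rc (fun l => -(Cu * (M (I l)).transpose * G')) g) := by
    have h3 := sum_Rc (n := n) (fun i => (a i : W.K))
      (fun i => M i * -(Cu * (M i).transpose * G')) g
    rw [h1, Rc_one] at h3
    exact h3.symm.trans (Finset.sum_congr rfl fun I _ => by rw [Rc_Rc])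
  have h3 : ∀ I : Fin n → Fin r,
      dot (Rc (fun l => M (I l)) (Rc (fun l => -(Cu * (M (I l)).transpose * G')) g))
        (act G' g') = dG G (Rc (fun l => -(Cu * (M (I l)).transpose * G')) g)
        (Rc (fun l => -(Cu * (M (I l)).transpose * G')) g') := by
    intro I
    rw [dot_Rc, dG, act_eq_Rc, act_eq_Rc, Rc_Rc, Rc_Rc]
    congr 2
    funext l
    rw [Matrix.mul_neg, ← Matrix.mul_assoc, ← Matrix.mul_assoc, hCu, Matrix.neg_mul,
      Matrix.neg_mul, neg_neg, Matrix.one_mul]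
  have h4 : dG G' g g' = dot g (act G' g') := rfl
  rw [h4]
  conv_lhs => rw [h2]
  rw [dot_comm, dot_sum]
  refine Finset.sum_congr rfl fun I _ => ?_
  rw [dot_smul, dot_comm, h3]

/-- **The positivity is inherited.** -/
theorem tp_transfer (G : Gp W P.X P.D f) (H : Hy W P f b q) (G' : Gp W Q.X Q.D f')
    (H' : Hy W Q f' b' q') (hG : ∀ i j, G1 b f j i = -(G1 b f i j))
    (hG' : ∀ i j, G1 b' f' j i = -(G1 b' f' i j)) (hE : EX W P f b 0)
    (D : DN (fun _ => true) (G1 b f) (A1 (ops := ops) b))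
    {r : ℕ} {a : Fin r → ℚ} (ha0 : ∀ i, 0 < a i) {h : Fin r → (Q.X ⟶ P.X)}
    (ha : W.cl Q.X Q.D = ∑ i, (a i : W.K) • W.map (h i) (W.cl P.X P.D))
    (hT : TP (G1 b f) (A1 (ops := ops) b)) : TP (G1 b' f') (A1 (ops := ops) b') := by
  obtain ⟨M, hM⟩ : ∃ M : Fin r → Matrix (Fin (N1 b')) (Fin (N1 b)) W.K,
      ∀ i c, W.map (h i) (e1 b c) = ∑ y, M i y c • e1 b' y := by
    choose M hM using fun i => exists_mat b b' (h i)
    exact ⟨M, hM⟩
  obtain ⟨Cu, hCu⟩ : ∃ Cu : Matrix (Fin (N1 b)) (Fin (N1 b)) W.K, G1 b f * Cu = -1 :=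
    ⟨-(G1 b f)⁻¹, by
      rw [Matrix.mul_neg, Matrix.mul_nonsing_inv _ (isUnit_iff_ne_zero.2 H.det)]⟩
  obtain ⟨Cu', hCu', hCu2⟩ : ∃ Cu' : Matrix (Fin (N1 b')) (Fin (N1 b')) W.K,
      G1 b' f' * Cu' = -1 ∧ Cu' * G1 b' f' = -1 :=
    ⟨-(G1 b' f')⁻¹, by
      rw [Matrix.mul_neg, Matrix.mul_nonsing_inv _ (isUnit_iff_ne_zero.2 H'.det)], by
      rw [Matrix.neg_mul, Matrix.nonsing_inv_mul _ (isUnit_iff_ne_zero.2 H'.det)]⟩
  have hC := cup_eq G H G' H' hG hG' hE hCu hCu' ha hM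
  have hres := fun (n : ℕ) (g g' : (Fin n → Fin (N1 b')) → W.K) =>
    dG_resolve (b := b) (b' := b') hCu hCu2 hC g g'
  intro n g hg s hs
  have hA : ∀ (g : (Fin n → Fin (N1 b')) → W.K), A1 (ops := ops) b' n g →
      ∀ I : Fin n → Fin r, A1 (ops := ops) b n
        (Rc (fun l => -(Cu * (M (I l)).transpose * G1 b' f')) g) := fun g hg I =>
    a1_adj G H G' H' D.hN hCu (h := fun l => h (I l)) (M := fun l => M (I l))
      (fun l c => hM (I l) c) hg
  choose t ht using fun I : Fin n → Fin r => D.dG_rat (hA g hg I) (hA g hg I)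
  have hpos : ∀ I : Fin n → Fin r, 0 < ∏ l, a (I l) := fun I => Finset.prod_pos fun l _ => ha0 (I l)
  have hst : s = ∑ I : Fin n → Fin r, (∏ l, a (I l)) * t I := by
    have h1 := hres n g g
    rw [hs] at h1
    have h2 : (s : W.K) = ((∑ I : Fin n → Fin r, (∏ l, a (I l)) * t I : ℚ) : W.K) := by
      rw [h1]
      push_cast
      exact Finset.sum_congr rfl fun I _ => by rw [ht]
    exact_mod_cast h2
  have hnn : ∀ I ∈ (Finset.univ : Finset (Fin n → Fin r)), 0 ≤ (∏ l, a (I l)) * t I :=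
    fun I _ => mul_nonneg (hpos I).le (hT n _ (hA g hg I) _ (ht I)).1
  refine ⟨by rw [hst]; exact Finset.sum_nonneg hnn, fun h0 g' hg' => ?_⟩
  rw [hst] at h0
  have h1 := (Finset.sum_eq_zero_iff_of_nonneg hnn).1 h0
  rw [hres n g g']
  refine Finset.sum_eq_zero fun I _ => ?_
  have h2 : t I = 0 := (mul_eq_zero.1 (h1 I (Finset.mem_univ I))).resolve_left (hpos I).ne'
  rw [(hT n _ (hA g hg I) _ (ht I)).2 h2 _ (hA g' hg' I), mul_zero]

end

/-- The standard setup. -/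
theorem setup (W : WeilCohomology.{u, v} ops) (P : Polarized 𝒱) (hP : Good W P)
    (hX : IsExt W P.X) (b : HB W P.X) : ∃ (f : Module.End W.K (W.H P.X)) (q : ℚ),
      Gp W P.X P.D f ∧ Hy W P f b q ∧ (∀ i j, G1 b f j i = -(G1 b f i j)) ∧
      Nonempty (DN (fun _ => true) (G1 b f) (A1 (ops := ops) b)) ∧ ∀ t, EX W P f b t := by
  obtain ⟨f, G⟩ := exists_gp hP.div hP.hardLefschetz hP.lefschetzB
  obtain ⟨q, hq, hq1⟩ := (pos_iff G.fr).1 hP.deg_pos
  have hX := hX.isExterior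
  have hd : Der W P.X P.D f := Pool.Agent.Y96.AB.der_of_exterior G hX
  have hA := Pool.Agent.Y710.AB.a1_closed G b hq.ne' hq1
  obtain ⟨hG, hdet⟩ := Pool.Agent.Y710.AB.G1_cond G b hq.ne' hq1
  have H : Hy W P f b q := by
    refine ⟨hq, hq1, hdet, fun t => kf G hd b hq.ne' hq1 t, ?_, ?_⟩
    · rintro s g ⟨c, hc, rfl⟩
      exact Pool.Agent.Y710.AB.TT_as G b hc
    · exact fun t n φ c hc => Pool.Agent.Y46.AB.tau_a1 G b hq.ne' hq1 t φ hc
  exact ⟨f, q, G, H, hG, exists_DN hA (fun i j h => absurd rfl h)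
    (fun i j => by rw [if_pos rfl, hG i j, neg_one_mul]) hdet,
    fun t => ex_of_span G H (Pool.Agent.Y232.AB.span_mon hX b t)⟩

/-- **The Tate conjecture and the standard conjecture of Hodge type for one power of `X` imply the
standard conjecture of Hodge type for all powers of all abelian varieties `Z` with a polarization
which is a positive combination of pull-backs of the polarization of `X`.** -/
theorem all_hodge_Q (W : WeilCohomology.{u, v} ops) (P : Polarized 𝒱) (hP : Good W P)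
    (hX : IsExt W P.X) (φ : P.X ⟶ P.X) {p N : ℕ} (hp : p ≠ 0) {π : Fin N → W.K}
    (hπ : Diag W P.X φ π) (hF : ∀ s, FrobLike W (power ops P s).X (frobP ops P φ s) p)
    (hT1 : TateIn W (power ops P 1).X (frobP ops P φ 1) p 1) {m : ℕ} (hR : RelGen p π m)
    (hT : ∀ j, TateIn W (power ops P m).X (frobP ops P φ m) p j)
    (hH : HodgeNum W (power ops P m).X (power ops P m).D)
    (hI : m = 0 → HodgeIndex W (power ops P 1).X (power ops P 1).D)
    (Q : Polarized 𝒱) (hQ : Good W Q) (hZ : IsExt W Q.X) {r : ℕ} {a : Fin r → ℚ}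
    (ha0 : ∀ i, 0 < a i) {h : Fin r → (Q.X ⟶ P.X)}
    (ha : W.cl Q.X Q.D = ∑ i, (a i : W.K) • W.map (h i) (W.cl P.X P.D)) (s : ℕ) :
    HodgeNum W (power ops Q s).X (power ops Q s).D := by
  intro n hn z hz hne
  obtain ⟨e, hli, hsp, he⟩ := hπ
  obtain ⟨b, σ, hb⟩ := exists_HB_eig hli hsp
  obtain ⟨f, q, G, H, hG, ⟨D⟩, hE⟩ := setup W P hP hX b
  have hm : PosAt W P f m := by
    intro c hc r hr
    exact Pool.Agent.Y46.FD.pos_of_hodge (gp_frm G m).fr (gp_frm G m).gd.sy hH hc hr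
  have hfull : ∀ g, A1 (ops := ops) b 2 g → D.PQ 2 g := by
    intro g hg
    by_cases hnm : 2 ≤ m + 1
    · exact pq_low G H D hm hnm hg
    · have hm0 : m = 0 := by omega
      exact DN.PQ.full D (Pool.Agent.Y504.AB.a1_two_pos G b H.hq H.hq1 (hI hm0)) g hg
  have hρ : ∀ a, W.map φ (e1 b a) = (π ∘ σ) a • e1 b a := by
    intro a
    rw [hb]
    exact he _
  have hpK : (p : W.K) ≠ 0 := by exact_mod_cast hp
  have hall := all_pq (D := D) G H hm hpK hG hρ hF hT1 hT hfull (hR.reindex σ)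
  have hTP : TP (G1 b f) (A1 (ops := ops) b) := fun n g hg r hr => (hall n g hg).pos hr
  obtain ⟨b'⟩ := exists_HB W Q.X
  obtain ⟨f', q', G', H', hG', ⟨D'⟩, hE'⟩ := setup W Q hQ hZ b'
  have hTP' := tp_transfer G H G' H' hG hG' (hE 0) D ha0 ha hTP
  exact pos_qc G' H' hE' (D := D') hn hz
    (fun n ψ => DN.PQ.full D' (hTP' n) _ (H'.a1 s n ψ _ (AS.of ⟨z, hz.1, rfl⟩))) hne

end Pool.Agent.Y97.AB
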